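import Pool.Agent.Lib_helper88.Hodge.Defs

namespace HodgeEuler

open Matrix

/-- `Sp_{2g}(ℤ)` acts on `ℝ^{2g}` by matrix-vector multiplication. -/
noncomputable instance spAction (g : ℕ) :
    DistribMulAction (symplecticGroup (Fin g) ℤ) (Fin g ⊕ Fin g → ℝ) where
  smul A v := ((A : Matrix (Fin g ⊕ Fin g) (Fin g ⊕ Fin g) ℤ).map (Int.cast : ℤ → ℝ)) *ᵥ v
  one_smul v := by
    show ((1 : Matrix (Fin g ⊕ Fin g) (Fin g ⊕ Fin g) ℤ).map (Int.cast : ℤ → ℝ)) *ᵥ v = v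
    rw [Matrix.map_one _ Int.cast_zero Int.cast_one, one_mulVec]
  mul_smul A B v := by
    show (((A : Matrix (Fin g ⊕ Fin g) (Fin g ⊕ Fin g) ℤ) * B).map (Int.cast : ℤ → ℝ)) *ᵥ v =
      ((A : Matrix (Fin g ⊕ Fin g) (Fin g ⊕ Fin g) ℤ).map (Int.cast : ℤ → ℝ)) *ᵥ
        (((B : Matrix (Fin g ⊕ Fin g) (Fin g ⊕ Fin g) ℤ).map (Int.cast : ℤ → ℝ)) *ᵥ v)
    have h := Matrix.map_mul (L := (A : Matrix (Fin g ⊕ Fin g) (Fin g ⊕ Fin g) ℤ))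
      (M := (B : Matrix (Fin g ⊕ Fin g) (Fin g ⊕ Fin g) ℤ)) (f := Int.castRingHom ℝ)
    rw [mulVec_mulVec]
    exact congrArg (· *ᵥ v) h
  smul_zero A := mulVec_zero _
  smul_add A v w := mulVec_add _ v w

lemma sp_smul_def {g : ℕ} (A : symplecticGroup (Fin g) ℤ) (v : Fin g ⊕ Fin g → ℝ) :
    A • v = ((A : Matrix (Fin g ⊕ Fin g) (Fin g ⊕ Fin g) ℤ).map (Int.cast : ℤ → ℝ)) *ᵥ v := rfl

instance spActionComm (g : ℕ) :
    SMulCommClass (symplecticGroup (Fin g) ℤ) ℝ (Fin g ⊕ Fin g → ℝ) where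
  smul_comm A r v := by
    rw [sp_smul_def, sp_smul_def, mulVec_smul]

end HodgeEuler
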