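import Pool.Agent.Lib_helper88.Hodge.SpGroup

namespace HodgeEuler

open Matrix

section Order

variable {g : ℕ}

lemma mU_mulVec_inl (U U' : Matrix (Fin g) (Fin g) ℤ) (h : Uᵀ * U' = 1) (k : Fin g) :
    (mU U U' h : Matrix (Fin g ⊕ Fin g) (Fin g ⊕ Fin g) ℤ) *ᵥ Pi.single (Sum.inl k) 1
      = Sum.elim (fun a => U a k) (fun _ => 0) := by
  rw [mulVec_single_one]
  funext s
  rcases s with a | a <;> simp [mU, Matrix.col]

lemma mU_mulVec_inr (U U' : Matrix (Fin g) (Fin g) ℤ) (h : Uᵀ * U' = 1) (k : Fin g) :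
    (mU U U' h : Matrix (Fin g ⊕ Fin g) (Fin g ⊕ Fin g) ℤ) *ᵥ Pi.single (Sum.inr k) 1
      = Sum.elim (fun _ => 0) (fun a => U' a k) := by
  rw [mulVec_single_one]
  funext s
  rcases s with a | a <;> simp [mU, Matrix.col]

lemma pP_mulVec_inl (π : Equiv.Perm (Fin g)) (k : Fin g) :
    (pP π : Matrix (Fin g ⊕ Fin g) (Fin g ⊕ Fin g) ℤ) *ᵥ Pi.single (Sum.inl k) 1
      = Pi.single (Sum.inl (π k)) 1 := by
  rw [pP, mU_mulVec_inl]
  funext s
  rcases s with a | a
  · rw [Sum.elim_inl, pM_apply, Pi.single_apply]; simp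
  · rw [Sum.elim_inr, Pi.single_apply]; simp

lemma pP_mulVec_inr (π : Equiv.Perm (Fin g)) (k : Fin g) :
    (pP π : Matrix (Fin g ⊕ Fin g) (Fin g ⊕ Fin g) ℤ) *ᵥ Pi.single (Sum.inr k) 1
      = Pi.single (Sum.inr (π k)) 1 := by
  rw [pP, mU_mulVec_inr]
  funext s
  rcases s with a | a
  · rw [Sum.elim_inl, Pi.single_apply]; simp
  · rw [Sum.elim_inr, pM_apply, Pi.single_apply]; simp

lemma jE_mulVec_inl (i k : Fin g) :
    (jE i : Matrix (Fin g ⊕ Fin g) (Fin g ⊕ Fin g) ℤ) *ᵥ Pi.single (Sum.inl k) 1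
      = if k = i then Pi.single (Sum.inr i) 1 else Pi.single (Sum.inl k) 1 := by
  rw [mulVec_single_one]
  funext s
  rcases s with a | a
  · rcases eq_or_ne k i with rfl | hk
    · simp only [if_true, jE, Matrix.col, Matrix.transpose_apply, fromBlocks_apply₁₁,
        Matrix.sub_apply, Matrix.one_apply, eu, Matrix.single_apply, Pi.single_apply]
      rcases eq_or_ne a k with rfl | ha
      · simp
      · simp [ha, ha.symm]
    · simp only [if_neg hk, jE, Matrix.col, Matrix.transpose_apply, fromBlocks_apply₁₁,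
        Matrix.sub_apply, Matrix.one_apply, eu, Matrix.single_apply, Pi.single_apply]
      simp [hk.symm]
  · rcases eq_or_ne k i with rfl | hk
    · simp only [if_true, jE, Matrix.col, Matrix.transpose_apply, fromBlocks_apply₂₁,
        eu, Matrix.single_apply, Pi.single_apply]
      simp [eq_comm]
    · simp only [if_neg hk, jE, Matrix.col, Matrix.transpose_apply, fromBlocks_apply₂₁,
        eu, Matrix.single_apply, Pi.single_apply]
      simp [hk.symm]

lemma jE_mulVec_inr (i k : Fin g) :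
    (jE i : Matrix (Fin g ⊕ Fin g) (Fin g ⊕ Fin g) ℤ) *ᵥ Pi.single (Sum.inr k) 1
      = if k = i then -Pi.single (Sum.inl i) 1 else Pi.single (Sum.inr k) 1 := by
  rw [mulVec_single_one]
  funext s
  rcases s with a | a
  · rcases eq_or_ne k i with rfl | hk
    · simp only [if_true, jE, Matrix.col, Matrix.transpose_apply, fromBlocks_apply₁₂,
        Matrix.neg_apply, eu, Matrix.single_apply, Pi.neg_apply, Pi.single_apply]
      simp [eq_comm]
    · simp only [if_neg hk, jE, Matrix.col, Matrix.transpose_apply, fromBlocks_apply₁₂,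
        Matrix.neg_apply, eu, Matrix.single_apply, Pi.single_apply]
      simp [hk.symm]
  · rcases eq_or_ne k i with rfl | hk
    · simp only [if_true, jE, Matrix.col, Matrix.transpose_apply, fromBlocks_apply₂₂,
        Matrix.sub_apply, Matrix.one_apply, eu, Matrix.single_apply, Pi.neg_apply, Pi.single_apply]
      rcases eq_or_ne a k with rfl | ha
      · simp
      · simp [ha, ha.symm]
    · simp only [if_neg hk, jE, Matrix.col, Matrix.transpose_apply, fromBlocks_apply₂₂,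
        Matrix.sub_apply, Matrix.one_apply, eu, Matrix.single_apply, Pi.single_apply]
      simp [hk.symm]

/-- the orbit of `e_0` -/
def wv (g : ℕ) (k : ℕ) : Fin g ⊕ Fin g → ℤ :=
  if h : k < g then Pi.single (Sum.inl ⟨k, h⟩) 1
  else if h : k - g < g then Pi.single (Sum.inr ⟨k - g, h⟩) 1 else 0

lemma finRotate_lt (k : ℕ) (hk : k + 1 < g) :
    finRotate g ⟨k, by omega⟩ = ⟨k + 1, hk⟩ := by
  cases g with
  | zero => omega
  | succ n => exact finRotate_of_lt (by omega)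

lemma finRotate_pred (hg : 0 < g) :
    finRotate g ⟨g - 1, by omega⟩ = ⟨0, hg⟩ := by
  cases g with
  | zero => omega
  | succ n => exact finRotate_last'

lemma Cg_mulVec (hg : 0 < g) (v : Fin g ⊕ Fin g → ℤ) :
    (Cg g hg : Matrix (Fin g ⊕ Fin g) (Fin g ⊕ Fin g) ℤ) *ᵥ v
      = (pP (finRotate g) : Matrix (Fin g ⊕ Fin g) (Fin g ⊕ Fin g) ℤ) *ᵥ
        ((jE (⟨g - 1, by omega⟩ : Fin g) : Matrix (Fin g ⊕ Fin g) (Fin g ⊕ Fin g) ℤ) *ᵥ v) := by
  rw [mulVec_mulVec]; rfl

lemma Cg_wv (hg : 0 < g) (k : ℕ) (hk : k + 1 < 2 * g) :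
    (Cg g hg : Matrix (Fin g ⊕ Fin g) (Fin g ⊕ Fin g) ℤ) *ᵥ wv g k = wv g (k + 1) := by
  rw [Cg_mulVec]
  rcases Nat.lt_trichotomy (k + 1) g with h | h | h
  · have h1 : k < g := by omega
    rw [wv, dif_pos h1, wv, dif_pos h, jE_mulVec_inl, if_neg, pP_mulVec_inl, finRotate_lt k h]
    intro h2
    have := congrArg Fin.val h2
    simp only at this
    omega
  · have h1 : k < g := by omega
    have h3 : ¬ (k + 1 < g) := by omega
    have h4 : k + 1 - g < g := by omega
    rw [wv, dif_pos h1, wv, dif_neg h3, dif_pos h4, jE_mulVec_inl, if_pos, pP_mulVec_inr,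
      finRotate_pred hg]
    · congr 3; omega
    · apply Fin.ext; simp only; omega
  · have h1 : ¬ (k < g) := by omega
    have h2 : k - g < g := by omega
    have h3 : ¬ (k + 1 < g) := by omega
    have h4 : k + 1 - g < g := by omega
    rw [wv, dif_neg h1, dif_pos h2, wv, dif_neg h3, dif_pos h4, jE_mulVec_inr, if_neg,
      pP_mulVec_inr, finRotate_lt (k - g) (by omega)]
    · congr 3; omega
    · intro h5
      have := congrArg Fin.val h5
      simp only at this
      omega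

lemma Cg_wv_last (hg : 0 < g) :
    (Cg g hg : Matrix (Fin g ⊕ Fin g) (Fin g ⊕ Fin g) ℤ) *ᵥ wv g (2 * g - 1) = - wv g 0 := by
  rw [Cg_mulVec]
  have h1 : ¬ (2 * g - 1 < g) := by omega
  have h2 : 2 * g - 1 - g < g := by omega
  rw [wv, dif_neg h1, dif_pos h2, wv, dif_pos hg, jE_mulVec_inr, if_pos, mulVec_neg,
    pP_mulVec_inl, finRotate_pred hg]
  apply Fin.ext; simp only; omega

lemma Cg_pow_wv (hg : 0 < g) (k : ℕ) (hk : k < 2 * g) :
    ((Cg g hg ^ k : symplecticGroup (Fin g) ℤ) : Matrix (Fin g ⊕ Fin g) (Fin g ⊕ Fin g) ℤ) *ᵥ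
      wv g 0 = wv g k := by
  induction k with
  | zero => rw [pow_zero]; exact one_mulVec _
  | succ k ih =>
    rw [pow_succ', sp_mul_coe, ← mulVec_mulVec, ih (by omega), Cg_wv hg k hk]

/-- the central element `-1` -/
def negOne (g : ℕ) : symplecticGroup (Fin g) ℤ := ⟨-1, SymplecticGroup.neg_mem (one_mem _)⟩

lemma Cg_pow (hg : 0 < g) : Cg g hg ^ (2 * g) = negOne g := by
  apply Subtype.ext
  refine Matrix.ext_of_mulVec_single fun s => ?_
  have h0 : ((Cg g hg ^ (2 * g) : symplecticGroup (Fin g) ℤ) :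
      Matrix (Fin g ⊕ Fin g) (Fin g ⊕ Fin g) ℤ) *ᵥ wv g 0 = - wv g 0 := by
    have h1 : 2 * g = (2 * g - 1) + 1 := by omega
    rw [h1, pow_succ', sp_mul_coe, ← mulVec_mulVec, Cg_pow_wv hg _ (by omega), Cg_wv_last]
  have h2 : ∃ k < 2 * g, Pi.single s 1 = wv g k := by
    rcases s with a | a
    · refine ⟨a, by omega, ?_⟩
      rw [wv, dif_pos a.isLt]
    · refine ⟨a + g, by omega, ?_⟩
      have h1 : ¬ ((a : ℕ) + g < g) := by omega
      have h2 : (a : ℕ) + g - g < g := by have := a.isLt; omega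
      rw [wv, dif_neg h1, dif_pos h2]
      congr 2
      apply Fin.ext; simp only; omega
  obtain ⟨k, hk, hs⟩ := h2
  rw [hs, ← Cg_pow_wv hg k hk, mulVec_mulVec, ← sp_mul_coe, ← pow_add, Nat.add_comm, pow_add,
    sp_mul_coe, ← mulVec_mulVec, h0, mulVec_neg]
  show _ = (-1 : Matrix (Fin g ⊕ Fin g) (Fin g ⊕ Fin g) ℤ) *ᵥ _
  rw [neg_mulVec, one_mulVec]

lemma negOne_sq (g : ℕ) : negOne g ^ 2 = 1 := by
  rw [pow_two]
  apply Subtype.ext
  rw [sp_mul_coe]
  show (-1 : Matrix (Fin g ⊕ Fin g) (Fin g ⊕ Fin g) ℤ) * (-1) = 1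
  rw [neg_mul_neg, one_mul]

lemma negOne_comm (g : ℕ) (γ : symplecticGroup (Fin g) ℤ) : negOne g * γ = γ * negOne g := by
  apply Subtype.ext
  rw [sp_mul_coe, sp_mul_coe]
  show (-1 : Matrix (Fin g ⊕ Fin g) (Fin g ⊕ Fin g) ℤ) * (γ : Matrix _ _ ℤ)
    = (γ : Matrix (Fin g ⊕ Fin g) (Fin g ⊕ Fin g) ℤ) * (-1)
  rw [neg_one_mul, mul_neg_one]

end Order

end HodgeEuler
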