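import Pool.Agent.Lib_helper88.Hodge.Exist
import Pool.Agent.Lib_helper88.Hodge.SpOrder
import Pool.Agent.Lib_helper88.Hodge.SpAction

namespace HodgeEuler

open Matrix

section

variable {g : ℕ}

lemma sp_det_invariant {n : ℕ} (b : Module.Basis (Fin n) ℝ (Fin g ⊕ Fin g → ℝ))
    (A : symplecticGroup (Fin g) ℤ) (v : Fin n → (Fin g ⊕ Fin g → ℝ)) :
    b.det (fun i => A • v i) = b.det v := by
  have h1 : (fun i => A • v i) =
      (Matrix.toLin' ((A : Matrix (Fin g ⊕ Fin g) (Fin g ⊕ Fin g) ℤ).map (Int.cast : ℤ → ℝ))) ∘ v := by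
    funext i
    rw [Function.comp_apply, toLin'_apply, sp_smul_def]
  have h2 : ((A : Matrix (Fin g ⊕ Fin g) (Fin g ⊕ Fin g) ℤ).map (Int.cast : ℤ → ℝ)).det = 1 := by
    have h3 := SymplecticGroup.det_eq_one A.2
    have h4 := RingHom.map_det (Int.castRingHom ℝ) (A : Matrix (Fin g ⊕ Fin g) (Fin g ⊕ Fin g) ℤ)
    rw [h3, map_one] at h4
    exact h4.symm
  rw [h1, Module.Basis.det_comp, LinearMap.det_toLin', h2, one_mul]

lemma negOne_smul (v : Fin g ⊕ Fin g → ℝ) : negOne g • v = -v := by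
  rw [sp_smul_def]
  show ((-1 : Matrix (Fin g ⊕ Fin g) (Fin g ⊕ Fin g) ℤ).map (Int.cast : ℤ → ℝ)) *ᵥ v = -v
  have : ((-1 : Matrix (Fin g ⊕ Fin g) (Fin g ⊕ Fin g) ℤ).map (Int.cast : ℤ → ℝ)) = -1 := by
    rw [Matrix.map_neg _ Int.cast_neg, Matrix.map_one _ Int.cast_zero Int.cast_one]
  rw [this, neg_mulVec, one_mulVec]

/-- **The 2-part of the order of the Euler class of `Sp_{2g}(ℤ)`, `g ≥ 2`.** -/
theorem sp_two_part (hg : 2 ≤ g) (b : Module.Basis (Fin (2 * g)) ℝ (Fin g ⊕ Fin g → ℝ))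
    {c : groupCohomology (Rep.trivial ℤ (symplecticGroup (Fin g) ℤ) ℤ) (2 * g)}
    (hc : IsEulerClass b c) {k : ℤ} (hk : k • c = 0) :
    (2 : ℤ) ^ (padicValNat 2 g + 3) ∣ k := by
  obtain ⟨q, rfl⟩ : ∃ q, g = q + 1 := ⟨g - 1, by omega⟩
  obtain ⟨m, hm⟩ := pow_padicValNat_dvd (p := 2) (n := q + 1)
  have hpow : (Cg (q + 1) (by omega) ^ m) ^ (2 ^ (padicValNat 2 (q + 1) + 1))
      = negOne (q + 1) := by
    rw [← pow_mul, ← Cg_pow (by omega)]
    congr 1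
    rw [pow_succ]
    conv_rhs => rw [hm]
    ring
  exact two_pow_dvd (q := q) (K := padicValNat 2 (q + 1) + 1) b
    (fun A v => sp_det_invariant b A v) (fun v => negOne_smul v) (negOne_sq _) (negOne_comm _)
    hpow (fun x => by rw [map_pow, x_Cg x hg, one_pow]) hc hk

end

end HodgeEuler
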