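import Pool.Agent.Lib_helper88.Hodge.Defs

namespace HodgeEuler

open Finsupp

section Basic

variable {X Y Z : Type*}

/-- cone with apex `w` -/
noncomputable def cone (w : X) (k : ℕ) : Cv X k →ₗ[ℤ] Cv X (k + 1) :=
  Finsupp.lmapDomain ℤ ℤ (fun v : Fin k → X => (Fin.cons w v : Fin (k + 1) → X))

@[simp] lemma cone_single (w : X) (k : ℕ) (v : Fin k → X) (r : ℤ) :
    cone w k (single v r) = single (Fin.cons w v) r := by
  simp [cone, lmapDomain_apply, mapDomain_single]

@[simp] lemma cmap_single (φ : X → Y) (k : ℕ) (v : Fin k → X) (r : ℤ) :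
    cmap φ k (single v r) = single (fun i => φ (v i)) r := by
  simp [cmap, lmapDomain_apply, mapDomain_single]

lemma bd_single (k : ℕ) (v : Fin (k + 1) → X) (r : ℤ) :
    bd k (single v r) =
      ∑ i : Fin (k + 1), (-1 : ℤ) ^ (i : ℕ) • single (fun j => v (i.succAbove j)) r := by
  simp only [bd, linearCombination_single, Finset.smul_sum, smul_single, smul_eq_mul, mul_one]
  exact Finset.sum_congr rfl fun i _ => by rw [mul_comm]

/-- two linear maps on chains agree if they agree on simplices -/
lemma cv_ext {M : Type*} [AddCommGroup M] {k : ℕ} {f g : Cv X k →ₗ[ℤ] M}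
    (h : ∀ v, f (single v 1) = g (single v 1)) : f = g := by
  refine Finsupp.lhom_ext' fun v => LinearMap.ext_ring (by simpa using h v)

lemma bd_cone_zero (w : X) (c : Cv X 0) : bd 0 (cone w 0 c) = c := by
  have : (bd 0 (X := X)) ∘ₗ cone w 0 = LinearMap.id := by
    refine cv_ext fun v => ?_
    simp only [LinearMap.comp_apply, cone_single, bd_single, LinearMap.id_apply]
    simp only [Nat.reduceAdd, Fin.sum_univ_one, Fin.val_eq_zero, pow_zero, one_smul]
    congr 1
  exact LinearMap.congr_fun this c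

lemma bd_cone (w : X) (k : ℕ) (c : Cv X (k + 1)) :
    bd (k + 1) (cone w (k + 1) c) = c - cone w k (bd k c) := by
  have : (bd (k + 1) (X := X)) ∘ₗ cone w (k + 1) = LinearMap.id - cone w k ∘ₗ bd k := by
    refine cv_ext fun v => ?_
    simp only [LinearMap.comp_apply, cone_single, bd_single, LinearMap.id_apply,
      LinearMap.sub_apply, map_sum, map_smul]
    rw [Fin.sum_univ_succ]
    simp only [Fin.val_zero, pow_zero, one_smul, Fin.zero_succAbove, Fin.cons_succ,
      Fin.val_succ]
    rw [sub_eq_add_neg, ← Finset.sum_neg_distrib]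
    congr 1
    refine Finset.sum_congr rfl fun i _ => ?_
    rw [pow_succ, mul_neg_one, neg_smul]
    congr 3
    funext j
    refine Fin.cases ?_ (fun j => ?_) j
    · simp
    · simp
  exact LinearMap.congr_fun this c

/-- every simplex with at least one vertex is a cone -/
lemma single_eq_cone {k : ℕ} (v : Fin (k + 1) → X) (r : ℤ) :
    single v r = cone (v 0) k (single (Fin.tail v) r) := by
  simp

lemma bd_comp_bd (k : ℕ) : (bd k (X := X)) ∘ₗ bd (k + 1) = 0 := by
  induction k with
  | zero =>
    refine cv_ext fun v => ?_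
    rw [single_eq_cone, LinearMap.comp_apply, bd_cone]
    rw [map_sub, bd_cone_zero]
    simp
  | succ k ih =>
    refine cv_ext fun v => ?_
    rw [single_eq_cone, LinearMap.comp_apply, bd_cone]
    rw [map_sub, bd_cone]
    have := LinearMap.congr_fun ih (single (Fin.tail v) 1)
    simp only [LinearMap.comp_apply, LinearMap.zero_apply] at this
    rw [this]
    simp

lemma bd_bd (k : ℕ) (c : Cv X (k + 2)) : bd k (bd (k + 1) c) = 0 :=
  LinearMap.congr_fun (bd_comp_bd k) c

lemma bd_cmap (φ : X → Y) (k : ℕ) (c : Cv X (k + 1)) :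
    bd k (cmap φ (k + 1) c) = cmap φ k (bd k c) := by
  have : (bd k (X := Y)) ∘ₗ cmap φ (k + 1) = cmap φ k ∘ₗ bd k := by
    refine cv_ext fun v => ?_
    simp only [LinearMap.comp_apply, cmap_single, bd_single, map_sum, map_smul]
  exact LinearMap.congr_fun this c

lemma cmap_cmap (φ : X → Y) (ψ : Y → Z) (k : ℕ) (c : Cv X k) :
    cmap ψ k (cmap φ k c) = cmap (ψ ∘ φ) k c := by
  have : cmap ψ k ∘ₗ cmap φ k = cmap (ψ ∘ φ) k := by
    refine cv_ext fun v => ?_
    simp
  exact LinearMap.congr_fun this c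

@[simp] lemma cmap_id (k : ℕ) (c : Cv X k) : cmap (fun x : X => x) k c = c := by
  have : cmap (fun x : X => x) k = LinearMap.id := by
    refine cv_ext fun v => ?_
    simp
  exact LinearMap.congr_fun this c

end Basic

section Action

variable {Γ X : Type*} [Group Γ] [MulAction Γ X]

@[simp] lemma act_single (γ : Γ) (k : ℕ) (v : Fin k → X) (r : ℤ) :
    act γ k (single v r) = single (fun i => γ • v i) r := by
  simp [act]

@[simp] lemma act_one (k : ℕ) (c : Cv X k) : act (1 : Γ) k c = c := by
  have : act (1 : Γ) k = (LinearMap.id : Cv X k →ₗ[ℤ] Cv X k) := by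
    refine cv_ext fun v => ?_
    simp
  exact LinearMap.congr_fun this c

lemma act_mul (γ δ : Γ) (k : ℕ) (c : Cv X k) : act (γ * δ) k c = act γ k (act δ k c) := by
  rw [act, act, act, cmap_cmap]
  congr 2
  funext x
  simp [mul_smul]

lemma bd_act (γ : Γ) (k : ℕ) (c : Cv X (k + 1)) :
    bd k (act γ (k + 1) c) = act γ k (bd k c) := bd_cmap _ _ _

lemma act_zero_eq (γ : Γ) (c : Cv X 0) : act γ 0 c = c := by
  have : act γ 0 = (LinearMap.id : Cv X 0 →ₗ[ℤ] Cv X 0) := by
    refine cv_ext fun v => ?_
    simp only [act_single, LinearMap.id_apply]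
    congr 1
    exact Subsingleton.elim _ _
  exact LinearMap.congr_fun this c

variable (Γ X) in
/-- the action on chains as a monoid hom -/
noncomputable def actHom (k : ℕ) : Γ →* Module.End ℤ (Cv X k) where
  toFun γ := act γ k
  map_one' := LinearMap.ext fun c => act_one k c
  map_mul' γ δ := by
    refine LinearMap.ext fun c => ?_
    exact act_mul γ δ k c

/-- the action of the group ring on chains -/
noncomputable def ract (a : MonoidAlgebra ℤ Γ) (k : ℕ) : Cv X k →ₗ[ℤ] Cv X k :=
  MonoidAlgebra.lift ℤ (Module.End ℤ (Cv X k)) Γ (actHom Γ X k) a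

lemma ract_mul (a b : MonoidAlgebra ℤ Γ) (k : ℕ) (c : Cv X k) :
    ract (a * b) k c = ract a k (ract b k c) := by
  simp only [ract, map_mul]; rfl

lemma ract_add (a b : MonoidAlgebra ℤ Γ) (k : ℕ) (c : Cv X k) :
    ract (a + b) k c = ract a k c + ract b k c := by
  simp only [ract, map_add]; rfl

lemma ract_sub (a b : MonoidAlgebra ℤ Γ) (k : ℕ) (c : Cv X k) :
    ract (a - b) k c = ract a k c - ract b k c := by
  simp only [ract, map_sub]; rfl

lemma ract_neg (a : MonoidAlgebra ℤ Γ) (k : ℕ) (c : Cv X k) :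
    ract (-a) k c = - ract a k c := by
  simp only [ract, map_neg]; rfl

@[simp] lemma ract_zero (k : ℕ) (c : Cv X k) :
    ract (0 : MonoidAlgebra ℤ Γ) k c = 0 := by
  simp only [ract, map_zero]; rfl

@[simp] lemma ract_one (k : ℕ) (c : Cv X k) :
    ract (1 : MonoidAlgebra ℤ Γ) k c = c := by
  simp only [ract, map_one]; rfl

lemma ract_sum {ι : Type*} (s : Finset ι) (a : ι → MonoidAlgebra ℤ Γ) (k : ℕ) (c : Cv X k) :
    ract (∑ i ∈ s, a i) k c = ∑ i ∈ s, ract (a i) k c := by
  simp only [ract, map_sum, LinearMap.sum_apply]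

@[simp] lemma ract_of (γ : Γ) (k : ℕ) (c : Cv X k) :
    ract (MonoidAlgebra.of ℤ Γ γ) k c = act γ k c := by
  simp [ract, actHom]

lemma ract_single (γ : Γ) (m : ℤ) (k : ℕ) (c : Cv X k) :
    ract (MonoidAlgebra.single γ m) k c = m • act γ k c := by
  simp [ract, actHom]

lemma bd_ract (a : MonoidAlgebra ℤ Γ) (k : ℕ) (c : Cv X (k + 1)) :
    bd k (ract a (k + 1) c) = ract a k (bd k c) := by
  induction a using MonoidAlgebra.induction_on with
  | of γ => rw [ract_of, ract_of, bd_act]
  | add a b ha hb => rw [ract_add, ract_add, map_add, ha, hb]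
  | smul m a ha =>
    have h1 : ∀ (j : ℕ) (c : Cv X j), ract (m • a) j c = m • ract a j c := by
      intro j c
      simp only [ract, map_smul]; rfl
    rw [h1, h1, map_smul, ha]

/-- invariant functionals see only the augmentation -/
lemma inv_ract {M : Type*} [AddCommGroup M] {k : ℕ} (A : Cv X k →ₗ[ℤ] M)
    (hA : ∀ (γ : Γ) c, A (act γ k c) = A c) (a : MonoidAlgebra ℤ Γ) (c : Cv X k) :
    A (ract a k c) = (MonoidAlgebra.lift ℤ ℤ Γ 1 a) • A c := by
  induction a using MonoidAlgebra.induction_on with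
  | of γ => rw [ract_of, hA]; simp
  | add a b ha hb => rw [ract_add, map_add, ha, hb, map_add, add_smul]
  | smul m a ha =>
    have h1 : ∀ (j : ℕ) (c : Cv X j), ract (m • a) j c = m • ract a j c := by
      intro j c
      simp only [ract, map_smul]; rfl
    rw [h1, map_smul, ha, map_smul, smul_assoc]

end Action

end HodgeEuler
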