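import Pool.Agent.Lib_helper88.Hodge.Odd

namespace HodgeEuler

open Finsupp CategoryTheory groupCohomology

section Pi

lemma coho_pi_eq_zero {Γ : Type} [Group Γ] (A : Rep ℤ Γ) (n : ℕ) (x : cocycles A (n + 1))
    (hx : π A (n + 1) x = 0) :
    ∃ y : (Fin n → Γ) → A, iCocycles A (n + 1) x = inhomogeneousCochains.d A n y := by
  let K := groupCohomology.inhomogeneousCochains A
  have h1 : (ShortComplex.mk (K.toCycles n (n + 1)) (K.homologyπ (n + 1)) (by simp)).Exact :=
    ShortComplex.exact_of_g_is_cokernel _ (K.homologyIsCokernel n (n + 1) (by simp))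
  rw [ShortComplex.moduleCat_exact_iff] at h1
  obtain ⟨y, hy⟩ := h1 x hx
  refine ⟨y, ?_⟩
  have h2 := congrArg (fun f => f.hom y) (K.toCycles_i n (n + 1))
  have h3 : K.d n (n + 1) = inhomogeneousCochains.d A n :=
    groupCohomology.inhomogeneousCochains.d_def A n
  rw [← hy, ← h3]
  exact h2

lemma coho_pi_eq_zero_of {Γ : Type} [Group Γ] (A : Rep ℤ Γ) (n : ℕ) (x : cocycles A (n + 1))
    (y : (Fin n → Γ) → A) (h : iCocycles A (n + 1) x = inhomogeneousCochains.d A n y) :
    π A (n + 1) x = 0 := by
  let K := groupCohomology.inhomogeneousCochains A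
  have h2 := congrArg (fun f => f.hom y) (K.toCycles_i n (n + 1))
  have h3 : K.d n (n + 1) = inhomogeneousCochains.d A n :=
    groupCohomology.inhomogeneousCochains.d_def A n
  have h4 : x = (K.toCycles n (n + 1)) y := by
    refine (ModuleCat.mono_iff_injective (K.iCycles (n + 1))).mp inferInstance ?_
    have h5 : (K.iCycles (n + 1)) ((K.toCycles n (n + 1)) y) = inhomogeneousCochains.d A n y := by
      rw [← h3]; exact h2
    rw [h5]; exact h
  have h6 := congrArg (fun f => f.hom y) (K.toCycles_comp_homologyπ n (n + 1))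
  rw [h4]
  exact h6

lemma coho_d_iCocycles {Γ : Type} [Group Γ] (A : Rep ℤ Γ) (n : ℕ) (x : cocycles A n) :
    inhomogeneousCochains.d A n (iCocycles A n x) = 0 := by
  let K := groupCohomology.inhomogeneousCochains A
  have h3 : K.d n (n + 1) = inhomogeneousCochains.d A n :=
    groupCohomology.inhomogeneousCochains.d_def A n
  have h2 := congrArg (fun f => f.hom x) (K.iCycles_d n (n + 1))
  rw [← h3]
  exact h2

end Pi

section Homog

variable {Γ : Type} [Group Γ]

/-- the homogeneous cochain (as a functional on the bar resolution) of an inhomogeneous one -/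
noncomputable def homc {n : ℕ} (φ : (Fin n → Γ) → ℤ) : Cv Γ (n + 1) →ₗ[ℤ] ℤ :=
  Finsupp.linearCombination ℤ
    (fun x : Fin (n + 1) → Γ => φ (fun j : Fin n => (x j.castSucc)⁻¹ * x j.succ))

lemma homc_single {n : ℕ} (φ : (Fin n → Γ) → ℤ) (x : Fin (n + 1) → Γ) (r : ℤ) :
    homc φ (single x r) = r * φ (fun j : Fin n => (x j.castSucc)⁻¹ * x j.succ) := by
  simp [homc]

lemma homc_act {n : ℕ} (φ : (Fin n → Γ) → ℤ) (γ : Γ) (c : Cv Γ (n + 1)) :
    homc φ (act γ (n + 1) c) = homc φ c := by
  have : homc φ ∘ₗ act γ (n + 1) = homc φ := by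
    refine cv_ext fun x => ?_
    rw [LinearMap.comp_apply, act_single, homc_single, homc_single]
    congr 2
    funext j
    simp only [smul_eq_mul]
    group
  exact LinearMap.congr_fun this c

lemma homc_bd {n : ℕ} (φ : (Fin n → Γ) → ℤ) (c : Cv Γ (n + 2)) :
    homc φ (bd (n + 1) c) =
      homc (n := n + 1) (inhomogeneousCochains.d (Rep.trivial ℤ Γ ℤ) n φ) c := by
  have : homc φ ∘ₗ bd (n + 1) =
      homc (n := n + 1) (inhomogeneousCochains.d (Rep.trivial ℤ Γ ℤ) n φ) := by
    refine cv_ext fun x => ?_
    rw [LinearMap.comp_apply, bd_single, map_sum, homc_single, one_mul,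
      inhomogeneousCochains.d_hom_apply, Fin.sum_univ_succ]
    congr 1
    · rw [map_smul, homc_single, Fin.val_zero, pow_zero, one_smul, one_mul]
      rfl
    · refine Finset.sum_congr rfl fun j _ => ?_
      rw [map_smul, homc_single, one_mul, Fin.val_succ]
      congr 2
      funext k
      rcases lt_trichotomy (k : ℕ) (j : ℕ) with h | h | h
      · rw [Fin.contractNth_apply_of_lt _ _ _ _ h]
        rw [Fin.succAbove_of_castSucc_lt _ _ (by
            rw [Fin.lt_def]; simp only [Fin.val_castSucc, Fin.val_succ]; omega),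
          Fin.succAbove_of_castSucc_lt _ _ (by
            rw [Fin.lt_def]; simp only [Fin.val_castSucc, Fin.val_succ]; omega)]
        rfl
      · rw [Fin.contractNth_apply_of_eq _ _ _ _ h]
        rw [Fin.succAbove_of_castSucc_lt _ _ (by
            rw [Fin.lt_def]; simp only [Fin.val_castSucc, Fin.val_succ]; omega),
          Fin.succAbove_of_le_castSucc _ _ (by
            rw [Fin.le_def]; simp only [Fin.val_castSucc, Fin.val_succ]; omega)]
        have e1 : (Fin.castSucc (Fin.castSucc k)) = (Fin.castSucc (Fin.castSucc k)) := rfl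
        show (x k.castSucc.castSucc)⁻¹ * x k.succ.succ
          = ((x k.castSucc.castSucc)⁻¹ * x k.castSucc.succ)
            * ((x k.succ.castSucc)⁻¹ * x k.succ.succ)
        have e2 : k.castSucc.succ = k.succ.castSucc := rfl
        rw [e2]; group
      · rw [Fin.contractNth_apply_of_gt _ _ _ _ h]
        rw [Fin.succAbove_of_le_castSucc _ _ (by
            rw [Fin.le_def]; simp only [Fin.val_castSucc, Fin.val_succ]; omega),
          Fin.succAbove_of_le_castSucc _ _ (by
            rw [Fin.le_def]; simp only [Fin.val_castSucc, Fin.val_succ]; omega)]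
        rfl
  exact LinearMap.congr_fun this c

end Homog

end HodgeEuler
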