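import Pool.Agent.Lib_helper88.Hodge.Chains

namespace HodgeEuler

open Finsupp

section Gamma

variable {Γ : Type*} [Group Γ]

lemma bd_fill (k : ℕ) (c : Cv Γ (k + 1)) (hc : bd k c = 0) :
    bd (k + 1) (cone 1 (k + 1) c) = c := by
  rw [bd_cone, hc]; simp

/-- first version: sequences starting in dimension `0` -/
lemma fillSeq (T : ℕ → MonoidAlgebra ℤ Γ) (hT : ∀ k, T (k + 2) * T (k + 1) = 0)
    (r : ∀ k, Cv Γ (k + 1)) (h0 : bd 0 (r 0) = 0)
    (h : ∀ k, bd (k + 1) (r (k + 1)) = - ract (T (k + 1)) (k + 1) (r k)) :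
    ∃ q : ∀ k, Cv Γ (k + 2), bd 1 (q 0) = r 0 ∧
      ∀ k, bd (k + 2) (q (k + 1)) = r (k + 1) + ract (T (k + 1)) (k + 2) (q k) := by
  let q : ∀ k, Cv Γ (k + 2) := fun k =>
    Nat.rec (motive := fun k => Cv Γ (k + 2)) (cone 1 1 (r 0))
      (fun k qk => cone 1 (k + 2) (r (k + 1) + ract (T (k + 1)) (k + 2) qk)) k
  have hq0 : bd 1 (q 0) = r 0 := bd_fill 0 _ h0
  have hqs : ∀ k, bd (k + 2) (q (k + 1)) = r (k + 1) + ract (T (k + 1)) (k + 2) (q k) := by
    intro k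
    induction k with
    | zero =>
      refine bd_fill 1 _ ?_
      rw [map_add, bd_ract]
      have h1 := h 0
      simp only [Nat.zero_add] at h1 ⊢
      rw [h1]
      show - _ + ract (T 1) 1 (bd 1 (q 0)) = 0
      rw [hq0]; abel
    | succ k ih =>
      refine bd_fill (k + 2) _ ?_
      rw [map_add, bd_ract]
      show bd (k + 2) (r (k + 1 + 1)) + ract (T (k + 1 + 1)) (k + 2) (bd (k + 2) (q (k + 1))) = 0
      rw [ih, map_add, ← ract_mul, hT, ract_zero, h (k + 1)]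
      abel
  exact ⟨q, hq0, hqs⟩

/-- second version: sequences starting in dimension `1` -/
lemma fillSeq' (T : ℕ → MonoidAlgebra ℤ Γ) (hT : ∀ k, T (k + 2) * T (k + 1) = 0)
    (r : ∀ k, Cv Γ (k + 2)) (h0 : bd 1 (r 0) = 0)
    (h : ∀ k, bd (k + 2) (r (k + 1)) = - ract (T (k + 1)) (k + 2) (r k)) :
    ∃ q : ∀ k, Cv Γ (k + 3), bd 2 (q 0) = r 0 ∧
      ∀ k, bd (k + 3) (q (k + 1)) = r (k + 1) + ract (T (k + 1)) (k + 3) (q k) := by
  let q : ∀ k, Cv Γ (k + 3) := fun k =>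
    Nat.rec (motive := fun k => Cv Γ (k + 3)) (cone 1 2 (r 0))
      (fun k qk => cone 1 (k + 3) (r (k + 1) + ract (T (k + 1)) (k + 3) qk)) k
  have hq0 : bd 2 (q 0) = r 0 := bd_fill 1 _ h0
  have hqs : ∀ k, bd (k + 3) (q (k + 1)) = r (k + 1) + ract (T (k + 1)) (k + 3) (q k) := by
    intro k
    induction k with
    | zero =>
      refine bd_fill 2 _ ?_
      rw [map_add, bd_ract]
      have h1 := h 0
      simp only [Nat.zero_add] at h1 ⊢
      rw [h1]
      show - _ + ract (T 1) 2 (bd 2 (q 0)) = 0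
      rw [hq0]; abel
    | succ k ih =>
      refine bd_fill (k + 3) _ ?_
      rw [map_add, bd_ract]
      show bd (k + 3) (r (k + 1 + 1)) + ract (T (k + 1 + 1)) (k + 3) (bd (k + 3) (q (k + 1))) = 0
      rw [ih, map_add, ← ract_mul, hT, ract_zero, h (k + 1)]
      abel
  exact ⟨q, hq0, hqs⟩

/-- the twisting elements of the periodic resolution of the cyclic group generated by `h` of
order dividing `M`: `h - 1` in odd degrees, the norm in even degrees. -/
noncomputable def tw (h : Γ) (M : ℕ) (k : ℕ) : MonoidAlgebra ℤ Γ :=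
  if Even k then ∑ i ∈ Finset.range M, (MonoidAlgebra.of ℤ Γ h) ^ i
  else MonoidAlgebra.of ℤ Γ h - 1

lemma tw_even {h : Γ} {M k : ℕ} (hk : Even k) :
    tw h M k = ∑ i ∈ Finset.range M, (MonoidAlgebra.of ℤ Γ h) ^ i := by
  simp [tw, hk]

lemma tw_odd {h : Γ} {M k : ℕ} (hk : ¬ Even k) :
    tw h M k = MonoidAlgebra.of ℤ Γ h - 1 := by
  simp [tw, hk]

lemma of_pow_eq_one {h : Γ} {M : ℕ} (hM : h ^ M = 1) : (MonoidAlgebra.of ℤ Γ h) ^ M = 1 := by
  rw [← map_pow, hM, map_one]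

lemma tw_mul_tw {h : Γ} {M : ℕ} (hM : h ^ M = 1) (k : ℕ) :
    tw h M (k + 1) * tw h M k = 0 := by
  by_cases hk : Even k
  · have hk' : ¬ Even (k + 1) := by rw [Nat.even_add_one]; exact not_not.mpr hk
    rw [tw_even hk, tw_odd hk', mul_geom_sum, of_pow_eq_one hM, sub_self]
  · have hk' : Even (k + 1) := Nat.even_add_one.mpr hk
    rw [tw_even hk', tw_odd hk, geom_sum_mul, of_pow_eq_one hM, sub_self]

/-- The standard chains `c_k` of a cyclic group in the bar resolution: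
`c₀ = (1)`, `∂ c_{k+1} = T_{k+1} c_k`. -/
noncomputable def cyc (h : Γ) (M : ℕ) : ∀ k, Cv Γ (k + 1)
  | 0 => single (fun _ => 1) 1
  | (k + 1) => cone 1 (k + 1) (ract (tw h M (k + 1)) (k + 1) (cyc h M k))

lemma bd_ract_cyc_zero (h : Γ) (M : ℕ) :
    bd 0 (ract (tw h M 1) 1 (cyc h M 0)) = 0 := by
  rw [bd_ract, tw_odd (by decide), ract_sub, ract_of, ract_one, act_zero_eq, sub_self]

lemma bd_cyc {h : Γ} {M : ℕ} (hM : h ^ M = 1) (k : ℕ) :
    bd (k + 1) (cyc h M (k + 1)) = ract (tw h M (k + 1)) (k + 1) (cyc h M k) := by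
  induction k with
  | zero => exact bd_fill 0 _ (bd_ract_cyc_zero h M)
  | succ k ih =>
    refine bd_fill (k + 1) _ ?_
    rw [bd_ract, ih, ← ract_mul, tw_mul_tw hM, ract_zero]

end Gamma

end HodgeEuler

namespace HodgeEuler

open Finsupp

section Key

variable {Γ : Type*} [Group Γ]

/-- comparison coefficients `ν_k` -/
noncomputable def nu (h : Γ) (L : ℕ) (k : ℕ) : MonoidAlgebra ℤ Γ :=
  if Even k then 1 else ∑ i ∈ Finset.range L, (MonoidAlgebra.of ℤ Γ h) ^ i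

lemma geom_sum_mul_pow {R : Type*} [Ring R] (a : R) (L l : ℕ) :
    ∑ i ∈ Finset.range (l * L), a ^ i =
      (∑ j ∈ Finset.range l, (a ^ L) ^ j) * ∑ i ∈ Finset.range L, a ^ i := by
  induction l with
  | zero => simp
  | succ l ih =>
    rw [Nat.succ_mul, Finset.sum_range_add, ih, Finset.sum_range_succ, add_mul]
    congr 1
    rw [Finset.mul_sum]
    refine Finset.sum_congr rfl fun i _ => ?_
    rw [pow_add, ← pow_mul, Nat.mul_comm L l]

lemma nu_mul_tw {h z : Γ} {L l : ℕ} (hz : h ^ L = z) (k : ℕ) :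
    nu h L (k + 1) * tw h (l * L) (k + 1) = tw z l (k + 1) * nu h L k := by
  have hz' : (MonoidAlgebra.of ℤ Γ h) ^ L = MonoidAlgebra.of ℤ Γ z := by
    rw [← map_pow, hz]
  by_cases hk : Even k
  · have hk' : ¬ Even (k + 1) := by rw [Nat.even_add_one]; exact not_not.mpr hk
    rw [tw_odd hk', tw_odd hk']
    simp only [nu, hk, hk', if_true, if_false]
    rw [geom_sum_mul, hz', mul_one]
  · have hk' : Even (k + 1) := Nat.even_add_one.mpr hk
    rw [tw_even hk', tw_even hk']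
    simp only [nu, hk, hk', if_true, if_false]
    rw [one_mul, geom_sum_mul_pow, hz']

/-- comparison of the standard chains of `⟨z⟩` and `⟨h⟩`, `z = h ^ L` of order `l`. -/
lemma exists_compare {h z : Γ} {L l : ℕ} (hz : h ^ L = z) (hzl : z ^ l = 1) :
    ∃ U : ∀ k, Cv Γ (k + 2),
      bd 1 (U 0) = cyc z l 0 - ract (nu h L 0) 1 (cyc h (l * L) 0) ∧
      ∀ k, bd (k + 2) (U (k + 1)) =
        (cyc z l (k + 1) - ract (nu h L (k + 1)) (k + 2) (cyc h (l * L) (k + 1)))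
          + ract (- tw z l (k + 1)) (k + 2) (U k) := by
  have hh : h ^ (l * L) = 1 := by rw [Nat.mul_comm, pow_mul, hz, hzl]
  refine fillSeq (fun k => - tw z l k) (fun k => ?_)
    (fun k => cyc z l k - ract (nu h L k) (k + 1) (cyc h (l * L) k)) ?_ ?_
  · rw [neg_mul_neg, tw_mul_tw hzl]
  · have : nu h L 0 = 1 := by simp [nu]
    rw [this, ract_one]
    simp [cyc]
  · intro k
    rw [map_sub, bd_cyc hzl, bd_ract, bd_cyc hh, ← ract_mul, nu_mul_tw hz, ract_neg, neg_neg,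
      map_sub, ract_mul]

lemma aug_tw_even {z : Γ} {l k : ℕ} (hk : Even k) :
    MonoidAlgebra.lift ℤ ℤ Γ 1 (tw z l k) = (l : ℤ) := by
  rw [tw_even hk, map_sum]
  simp

lemma aug_of_sub_one (γ : Γ) :
    MonoidAlgebra.lift ℤ ℤ Γ 1 (MonoidAlgebra.of ℤ Γ γ - 1) = 0 := by
  rw [map_sub]; simp

section functional

variable {q : ℕ} {z h : Γ} {L l : ℕ} {M : ℤ}
  (A : Cv Γ (2 * q + 2) →ₗ[ℤ] ℤ) (E : Cv Γ (2 * q + 3) →ₗ[ℤ] ℤ)

/-- evaluation on the standard cycle: `k E (c_n) = (l L) A (c_{n-1})` -/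
lemma eval_cyc (hA : ∀ (γ : Γ) c, A (act γ _ c) = A c)
    (hE : ∀ c, A (bd (2 * q + 2) c) = M * E c)
    (hz : h ^ L = z) (hzl : z ^ l = 1) :
    M * E (cyc h (l * L) (2 * q + 2)) = ((l * L : ℕ) : ℤ) * A (cyc h (l * L) (2 * q + 1)) := by
  have hh : h ^ (l * L) = 1 := by rw [Nat.mul_comm, pow_mul, hz, hzl]
  rw [← hE, bd_cyc hh, inv_ract A hA, aug_tw_even ⟨q + 1, by ring⟩]
  rfl

/-- `E (c_n(z)) ≡ E (c_n(h))` modulo `l` -/
lemma compare_eval (hEi : ∀ (γ : Γ) c, E (act γ _ c) = E c)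
    (hEc : ∀ c, E (bd (2 * q + 3) c) = 0)
    (hz : h ^ L = z) (hzl : z ^ l = 1) :
    (l : ℤ) ∣ E (cyc z l (2 * q + 2)) - E (cyc h (l * L) (2 * q + 2)) := by
  obtain ⟨U, -, hU⟩ := exists_compare hz hzl
  have h1 := congrArg E (hU (2 * q + 1))
  have h2 : nu h L (2 * q + 1 + 1) = 1 := by
    have : Even (2 * q + 1 + 1) := ⟨q + 1, by ring⟩
    simp only [nu, this, if_true]
  rw [h2, ract_one, hEc, map_add, map_sub, inv_ract E hEi, map_neg,
    aug_tw_even ⟨q + 1, by ring⟩] at h1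
  refine ⟨E (U (2 * q + 1)), ?_⟩
  have h3 : (-(l : ℤ)) • E (U (2 * q + 1)) = -((l : ℤ) * E (U (2 * q + 1))) := by
    rw [smul_eq_mul, neg_mul]
  rw [h3] at h1
  linarith

end functional

/-- **Key lemma.** -/
theorem key {q : ℕ} {z h : Γ} {L : ℕ} (hL : 0 < L) (hz2 : z ^ 2 = 1)
    (hzc : ∀ γ, z * γ = γ * z) (hz : h ^ L = z)
    (A : Cv Γ (2 * q + 2) →ₗ[ℤ] ℤ) (hA : ∀ (γ : Γ) c, A (act γ _ c) = A c)
    (E : Cv Γ (2 * q + 3) →ₗ[ℤ] ℤ)
    (hE : ∀ c, A (bd (2 * q + 2) c) = ((2 * L : ℕ) : ℤ) * E c) :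
    ∃ x : Γ →* Multiplicative (ZMod 2),
      Multiplicative.toAdd (x h) = ((E (cyc z 2 (2 * q + 2)) : ℤ) : ZMod 2) := by
  have hM : ((2 * L : ℕ) : ℤ) ≠ 0 := by positivity
  have hEi : ∀ (γ : Γ) c, E (act γ _ c) = E c := by
    intro γ c
    refine mul_left_cancel₀ hM ?_
    rw [← hE, ← hE, bd_act, hA]
  have hEc : ∀ c, E (bd (2 * q + 3) c) = 0 := by
    intro c
    refine mul_left_cancel₀ hM ?_
    rw [← hE, bd_bd, map_zero, mul_zero]
  have htt : ∀ k, tw z 2 (k + 2) * tw z 2 (k + 1) = 0 := fun k => tw_mul_tw hz2 (k + 1)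
  have hcomm : ∀ (γ : Γ) k, tw z 2 k * MonoidAlgebra.of ℤ Γ γ
      = MonoidAlgebra.of ℤ Γ γ * tw z 2 k := by
    intro γ k
    have h1 : MonoidAlgebra.of ℤ Γ z * MonoidAlgebra.of ℤ Γ γ
        = MonoidAlgebra.of ℤ Γ γ * MonoidAlgebra.of ℤ Γ z := by
      rw [← map_mul, ← map_mul, hzc]
    by_cases hk : Even k
    · rw [tw_even hk, Finset.sum_mul, Finset.mul_sum]
      refine Finset.sum_congr rfl fun i _ => ?_
      exact ((show Commute (MonoidAlgebra.of ℤ Γ z) (MonoidAlgebra.of ℤ Γ γ) from h1).pow_left i).eq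
    · rw [tw_odd hk, sub_mul, mul_sub, h1, one_mul, mul_one]
  have hcommr : ∀ (γ : Γ) k j (c : Cv Γ j), ract (tw z 2 k) j (act γ j c)
      = act γ j (ract (tw z 2 k) j c) := by
    intro γ k j c
    rw [← ract_of, ← ract_of, ← ract_mul, ← ract_mul, hcomm]
  -- even values
  have heven : ∀ (R : ∀ k, Cv Γ (k + 2)) (Q : ∀ k, Cv Γ (k + 3)), bd 2 (Q 0) = R 0 →
      (∀ k, bd (k + 3) (Q (k + 1)) = R (k + 1) + ract (tw z 2 (k + 1)) (k + 3) (Q k)) →
      ((A (R (2 * q)) : ℤ) : ZMod 2) = 0 := by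
    intro R Q hQ0 hQ
    rw [ZMod.intCast_zmod_eq_zero_iff_dvd]
    rcases q with _ | q
    · have : A (R 0) = ((2 * L : ℕ) : ℤ) * E (Q 0) := by rw [← hE, ← hQ0]
      refine ⟨L * E (Q 0), ?_⟩
      show A (R 0) = _
      rw [this]; push_cast; ring
    · have h1 := congrArg A (hQ (2 * q + 1))
      have h5 : A (ract (tw z 2 (2 * q + 1 + 1)) (2 * q + 1 + 3) (Q (2 * q + 1)))
          = ((2 : ℕ) : ℤ) • A (Q (2 * q + 1)) := by
        rw [← aug_tw_even (z := z) (l := 2) (k := 2 * q + 1 + 1) ⟨q + 1, by ring⟩]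
        exact inv_ract A hA _ _
      rw [map_add, h5] at h1
      have h2 := hE (Q (2 * q + 1 + 1))
      have h3 : A (bd (2 * q + 1 + 3) (Q (2 * q + 1 + 1)))
          = ((2 * L : ℕ) : ℤ) * E (Q (2 * q + 1 + 1)) := h2
      rw [h3] at h1
      refine ⟨L * E (Q (2 * q + 1 + 1)) - A (Q (2 * q + 1)), ?_⟩
      have h4 : ((2 : ℕ) : ℤ) • A (Q (2 * q + 1)) = 2 * A (Q (2 * q + 1)) := by
        rw [smul_eq_mul]; norm_num
      rw [h4] at h1
      show A (R (2 * q + 1 + 1)) = _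
      push_cast at h1 ⊢
      linarith
  -- the chains P
  have hP : ∀ γ : Γ, ∃ P : ∀ k, Cv Γ (k + 2),
      bd 1 (P 0) = ract (MonoidAlgebra.of ℤ Γ γ - 1) 1 (cyc z 2 0) ∧
      ∀ k, bd (k + 2) (P (k + 1)) =
        ract (MonoidAlgebra.of ℤ Γ γ - 1) (k + 2) (cyc z 2 (k + 1))
          + ract (- tw z 2 (k + 1)) (k + 2) (P k) := by
    intro γ
    refine fillSeq (fun k => - tw z 2 k) (fun k => ?_)
      (fun k => ract (MonoidAlgebra.of ℤ Γ γ - 1) (k + 1) (cyc z 2 k)) ?_ ?_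
    · rw [neg_mul_neg, htt]
    · rw [bd_ract, ract_sub, ract_of, ract_one, act_zero_eq, sub_self]
    · intro k
      rw [bd_ract, bd_cyc hz2, ← ract_mul, ← ract_mul, ← ract_neg]
      congr 2
      rw [sub_mul, neg_mul, neg_neg, mul_sub, hcomm, one_mul, mul_one]
  choose P hP0 hPs using hP
  have hadd : ∀ γ δ : Γ, ((A (P (γ * δ) (2 * q)) : ℤ) : ZMod 2)
      = ((A (P γ (2 * q)) : ℤ) : ZMod 2) + ((A (P δ (2 * q)) : ℤ) : ZMod 2) := by
    intro γ δ
    obtain ⟨Q, hQ0, hQs⟩ := fillSeq' (fun k => tw z 2 k) htt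
      (fun k => P γ k + act γ (k + 2) (P δ k) - P (γ * δ) k) (by
        rw [map_sub, map_add, bd_act, hP0, hP0, hP0, ← ract_of γ, ← ract_mul, ← ract_add,
          ← ract_sub]
        have : MonoidAlgebra.of ℤ Γ γ - 1 + MonoidAlgebra.of ℤ Γ γ * (MonoidAlgebra.of ℤ Γ δ - 1)
          - (MonoidAlgebra.of ℤ Γ (γ * δ) - 1) = 0 := by
          rw [map_mul]; noncomm_ring
        rw [this, ract_zero]) (by
        intro k
        simp only [map_sub, map_add, bd_act, hPs, ract_sub, ract_of, ract_one, ract_neg, map_neg,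
          act_mul, hcommr]
        abel)
    have h1 := heven (fun k => P γ k + act γ (k + 2) (P δ k) - P (γ * δ) k) Q hQ0 hQs
    simp only [map_sub, map_add, hA] at h1
    push_cast at h1
    linear_combination -h1
  let x : Γ →* Multiplicative (ZMod 2) :=
    MonoidHom.mk' (fun γ => Multiplicative.ofAdd ((A (P γ (2 * q)) : ℤ) : ZMod 2))
      (fun γ δ => by rw [hadd, ofAdd_add])
  refine ⟨x, ?_⟩
  show ((A (P h (2 * q)) : ℤ) : ZMod 2) = _
  have hh : h ^ (2 * L) = 1 := by rw [Nat.mul_comm, pow_mul, hz, hz2]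
  obtain ⟨U, hU0, hUs⟩ := exists_compare (L := L) (l := 2) hz hz2
  obtain ⟨p, hpe, hpo⟩ : ∃ p : ∀ k, Cv Γ (k + 2),
      (∀ k, Even k → p k = cyc h (2 * L) (k + 1)) ∧ (∀ k, ¬ Even k → p k = 0) :=
    ⟨fun k => if Even k then cyc h (2 * L) (k + 1) else 0, fun k hk => by simp [hk],
      fun k hk => by simp [hk]⟩
  obtain ⟨W, hW0, hWs⟩ := fillSeq' (fun k => tw z 2 k) htt
    (fun k => P h k - p k - ract (MonoidAlgebra.of ℤ Γ h - 1) (k + 2) (U k)) (by
      have e1 : nu h L 0 = 1 := by simp [nu]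
      have e2 : tw h (2 * L) (0 + 1) = MonoidAlgebra.of ℤ Γ h - 1 := tw_odd (by decide)
      have e3 : bd 1 (cyc h (2 * L) (0 + 1)) =
          ract (tw h (2 * L) (0 + 1)) 1 (cyc h (2 * L) 0) := bd_cyc hh 0
      rw [map_sub, map_sub, hP0, hpe 0 (by decide), bd_ract, hU0, e1, ract_one, e3, e2, map_sub]
      abel) (by
      intro k
      have e0 : bd (k + 2) (cyc h (2 * L) (k + 1 + 1)) =
          ract (tw h (2 * L) (k + 1 + 1)) (k + 2) (cyc h (2 * L) (k + 1)) := bd_cyc hh (k + 1)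
      have hc1 : (MonoidAlgebra.of ℤ Γ h - 1) * tw z 2 (k + 1)
          = tw z 2 (k + 1) * (MonoidAlgebra.of ℤ Γ h - 1) := by
        rw [sub_mul, mul_sub, hcomm, one_mul, mul_one]
      have hc2 : ract (MonoidAlgebra.of ℤ Γ h - 1) (k + 2) (ract (tw z 2 (k + 1)) (k + 2) (U k))
          = ract (tw z 2 (k + 1)) (k + 2) (ract (MonoidAlgebra.of ℤ Γ h - 1) (k + 2) (U k)) := by
        rw [← ract_mul, ← ract_mul, hc1]
      -- the defining property of `p`
      have hp : ract (MonoidAlgebra.of ℤ Γ h - 1) (k + 2)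
            (ract (nu h L (k + 1)) (k + 2) (cyc h (2 * L) (k + 1))) - bd (k + 2) (p (k + 1))
          = ract (tw z 2 (k + 1)) (k + 2) (p k) := by
        by_cases hk : Even k
        · have hk' : ¬ Even (k + 1) := by rw [Nat.even_add_one]; exact not_not.mpr hk
          have hz' : (MonoidAlgebra.of ℤ Γ h) ^ L = MonoidAlgebra.of ℤ Γ z := by
            rw [← map_pow, hz]
          rw [hpo (k + 1) hk', hpe k hk, map_zero, sub_zero, ← ract_mul, tw_odd hk']
          simp only [nu, hk', if_false]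
          rw [mul_geom_sum, hz']
        · have hk' : Even (k + 1) := Nat.even_add_one.mpr hk
          have hk'' : ¬ Even (k + 1 + 1) := by rw [Nat.even_add_one]; exact not_not.mpr hk'
          rw [hpe (k + 1) hk', hpo k hk, map_zero, e0, tw_odd hk'']
          simp only [nu, hk', if_true]
          rw [ract_one, sub_self]
      rw [map_sub, map_sub, hPs, bd_ract, hUs]
      simp only [map_sub, map_add, ract_neg, map_neg, hc2]
      rw [← hp]
      abel)
  have h1 := heven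
    (fun k => P h k - p k - ract (MonoidAlgebra.of ℤ Γ h - 1) (k + 2) (U k)) W hW0 hWs
  have h2 : ((A (P h (2 * q)) : ℤ) : ZMod 2) = ((A (cyc h (2 * L) (2 * q + 1)) : ℤ) : ZMod 2) := by
    have e1 : A (ract (MonoidAlgebra.of ℤ Γ h - 1) (2 * q + 2) (U (2 * q))) = 0 := by
      rw [inv_ract A hA, aug_of_sub_one, zero_smul]
    rw [map_sub, map_sub, e1, hpe (2 * q) (even_two_mul q)] at h1
    push_cast at h1
    linear_combination h1
  have h3 : A (cyc h (2 * L) (2 * q + 1)) = E (cyc h (2 * L) (2 * q + 2)) := by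
    have := eval_cyc A E hA hE hz hz2
    exact (mul_left_cancel₀ hM this).symm
  rw [h2, h3]
  have h4 := compare_eval E hEi hEc hz hz2
  rw [← sub_eq_zero, ← Int.cast_sub, ZMod.intCast_zmod_eq_zero_iff_dvd]
  have h5 := (dvd_neg (α := ℤ)).mpr h4
  rwa [neg_sub] at h5

end Key

end HodgeEuler
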