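import Pool.Agent.Lib_helper88.Hodge.Wind
import Pool.Agent.Lib_helper88.Hodge.Key

namespace HodgeEuler

open Finsupp

section ConeCoeff

variable {X : Type*}

lemma cone_apply_same (w : X) (k : ℕ) (c : Cv X k) (v : Fin k → X) :
    cone w k c (Fin.cons w v) = c v := by
  unfold cone
  rw [lmapDomain_apply]
  exact Finsupp.mapDomain_apply (Fin.cons_right_injective (α := fun _ => X) w) c v

lemma cone_apply_ne {w w' : X} (hw : w' ≠ w) (k : ℕ) (c : Cv X k) (v : Fin k → X) :
    cone w k c (Fin.cons w' v) = 0 := by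
  unfold cone
  rw [lmapDomain_apply]
  refine Finsupp.mapDomain_of_notMem_range _ _ ?_
  rintro ⟨v', hv'⟩
  apply hw
  have := congrFun hv' 0
  simpa using this.symm

lemma mem_support_cone {w : X} {k : ℕ} {c : Cv X k} {v : Fin (k + 1) → X}
    (hv : v ∈ (cone w k c).support) : ∃ v' ∈ c.support, v = Fin.cons w v' := by
  classical
  have h1 : (cone w k c).support ⊆ c.support.image (fun v => (Fin.cons w v : Fin (k + 1) → X)) :=
    Finsupp.mapDomain_support
  obtain ⟨v', hv', h⟩ := Finset.mem_image.mp (h1 hv)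
  exact ⟨v', hv', h.symm⟩

lemma cmap_cone {Y : Type*} (φ : X → Y) (w : X) (k : ℕ) (c : Cv X k) :
    cmap φ (k + 1) (cone w k c) = cone (φ w) k (cmap φ k c) := by
  have : cmap φ (k + 1) ∘ₗ cone w k = cone (φ w) k ∘ₗ cmap φ k := by
    refine cv_ext fun v => ?_
    simp only [LinearMap.comp_apply, cone_single, cmap_single]
    congr 1
    funext i
    refine Fin.cases ?_ (fun j => ?_) i <;> simp
  exact LinearMap.congr_fun this c

end ConeCoeff

section Polytope

variable {V : Type*} [AddCommGroup V] [Module ℝ V] {n : ℕ}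

/-- the oriented sphere of the cross-polytope on `e 0, …, e (k-1)` -/
noncomputable def octa (e : ℕ → V) : ∀ k, Cv V k
  | 0 => single Fin.elim0 1
  | (k + 1) => cone (e k) k (octa e k) - cone (-(e k)) k (octa e k)

lemma bd_octa (e : ℕ → V) (k : ℕ) : bd k (octa e (k + 1)) = 0 := by
  cases k with
  | zero => rw [octa, map_sub, bd_cone_zero, bd_cone_zero, sub_self]
  | succ k =>
    have ih := bd_octa e k
    rw [octa, map_sub, bd_cone, bd_cone, ih, map_zero, map_zero, sub_self]

lemma neg_octa (e : ℕ → V) (k : ℕ) :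
    cmap (fun v : V => -v) k (octa e k) = (-1 : ℤ) ^ k • octa e k := by
  induction k with
  | zero =>
    rw [octa, cmap_single, pow_zero, one_smul]
    congr 1
    exact Subsingleton.elim _ _
  | succ k ih =>
    rw [octa, map_sub, cmap_cone, cmap_cone, ih, neg_neg, map_smul, map_smul, pow_succ,
      mul_neg_one, neg_smul, smul_sub]
    abel

/-- the basis as a sequence -/
noncomputable def bseq (b : Module.Basis (Fin n) ℝ V) (i : ℕ) : V :=
  if h : i < n then b ⟨i, h⟩ else 0

lemma bseq_of_lt (b : Module.Basis (Fin n) ℝ V) {i : ℕ} (h : i < n) : bseq b i = b ⟨i, h⟩ := by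
  simp [bseq, h]

lemma bseq_notMem_span (b : Module.Basis (Fin n) ℝ V) {k : ℕ} (hk : k < n) :
    bseq b k ∉ Submodule.span ℝ (bseq b '' {i | i < k}) := by
  rw [bseq_of_lt b hk]
  intro h
  have h1 : bseq b '' {i | i < k} ⊆ b '' {j | j ≠ ⟨k, hk⟩} := by
    rintro _ ⟨i, hi, rfl⟩
    have hi' : i < k := hi
    refine ⟨⟨i, hi'.trans hk⟩, ?_, (bseq_of_lt b _).symm⟩
    intro h2
    have := congrArg Fin.val h2
    simp at this
    omega
  have h2 := Submodule.span_mono h1 h
  exact (b.linearIndependent.notMem_span_image (s := {j | j ≠ ⟨k, hk⟩}) (by simp)) h2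

lemma support_octa (b : Module.Basis (Fin n) ℝ V) {k : ℕ} (hk : k ≤ n) (v : Fin k → V)
    (hv : v ∈ (octa (bseq b) k).support) :
    (0 : V) ∉ convexHull ℝ (Set.range v) ∧
      Set.range v ⊆ Submodule.span ℝ (bseq b '' {i | i < k}) := by
  classical
  induction k with
  | zero =>
    refine ⟨?_, ?_⟩
    · rw [Set.range_eq_empty, convexHull_empty]; exact Set.notMem_empty _
    · rw [Set.range_eq_empty]; exact Set.empty_subset _
  | succ k ih =>
    have h1 : ∃ w : V, (w = bseq b k ∨ w = - bseq b k) ∧ ∃ v' ∈ (octa (bseq b) k).support,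
        v = Fin.cons w v' := by
      rw [octa, sub_eq_add_neg] at hv
      rcases Finset.mem_union.mp (Finsupp.support_add hv) with h | h
      · obtain ⟨v', hv', h⟩ := mem_support_cone h
        exact ⟨_, Or.inl rfl, v', hv', h⟩
      · rw [Finsupp.support_neg] at h
        obtain ⟨v', hv', h⟩ := mem_support_cone h
        exact ⟨_, Or.inr rfl, v', hv', h⟩
    obtain ⟨w, hw, v', hv', rfl⟩ := h1
    obtain ⟨ih1, ih2⟩ := ih (by omega) v' hv'
    have hmono : Submodule.span ℝ (bseq b '' {i | i < k}) ≤
        Submodule.span ℝ (bseq b '' {i | i < k + 1}) :=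
      Submodule.span_mono (Set.image_mono fun i hi => Nat.lt_succ_of_lt hi)
    have hwk : w ∈ Submodule.span ℝ (bseq b '' {i | i < k + 1}) := by
      have h2 : bseq b k ∈ Submodule.span ℝ (bseq b '' {i | i < k + 1}) :=
        Submodule.subset_span ⟨k, Nat.lt_succ_self k, rfl⟩
      rcases hw with rfl | rfl
      · exact h2
      · exact Submodule.neg_mem _ h2
    have hwn : w ∉ Submodule.span ℝ (Set.range v') := by
      intro h
      have h2 := Submodule.span_le.mpr ih2 h
      apply bseq_notMem_span b (k := k) (by omega)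
      rcases hw with rfl | rfl
      · exact h2
      · simpa using h2
    refine ⟨zero_notMem_cons ih1 hwn, ?_⟩
    rw [Fin.range_cons]
    rintro x (rfl | hx)
    · exact hwk
    · exact hmono (ih2 hx)

lemma avoids_octa (b : Module.Basis (Fin n) ℝ V) {k : ℕ} (hk : k ≤ n) :
    Avoids (octa (bseq b) k) := fun v hv => (support_octa b hk v hv).1

lemma avoids_cone_octa (b : Module.Basis (Fin n) ℝ V) {k : ℕ} (hk : k < n) :
    Avoids (cone (bseq b k) k (octa (bseq b) k)) := by
  refine avoids_map _ _ fun v hv => ?_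
  rw [cone_single]
  have h1 := support_octa b hk.le v hv
  exact avoids_single (zero_notMem_cons h1.1 (fun h =>
    bseq_notMem_span b hk (Submodule.span_le.mpr h1.2 h))) _

lemma support_octa' (b : Module.Basis (Fin n) ℝ V) (k : ℕ) (v : Fin k → V)
    (hv : v ∈ (octa (bseq b) k).support) :
    ∃ s : Fin k → ℤˣ, v = fun i => ((s i : ℤˣ) : ℤ) • bseq b (k - 1 - i) := by
  classical
  induction k with
  | zero => exact ⟨fun i => 1, Subsingleton.elim _ _⟩
  | succ k ih =>
    have h1 : ∃ t : ℤˣ, ∃ v' ∈ (octa (bseq b) k).support,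
        v = Fin.cons ((t : ℤ) • bseq b k) v' := by
      rw [octa, sub_eq_add_neg] at hv
      rcases Finset.mem_union.mp (Finsupp.support_add hv) with h | h
      · obtain ⟨v', hv', h⟩ := mem_support_cone h
        exact ⟨1, v', hv', by simpa using h⟩
      · rw [Finsupp.support_neg] at h
        obtain ⟨v', hv', h⟩ := mem_support_cone h
        exact ⟨-1, v', hv', by simpa using h⟩
    obtain ⟨t, v', hv', rfl⟩ := h1
    obtain ⟨s, rfl⟩ := ih v' hv'
    refine ⟨Fin.cons t s, ?_⟩
    funext i
    refine Fin.cases ?_ (fun j => ?_) i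
    · simp
    · simp only [Fin.cons_succ, Fin.val_succ]
      congr 2
      omega

lemma octa_coeff (b : Module.Basis (Fin n) ℝ V) {k : ℕ} (hk : k ≤ n) :
    octa (bseq b) k (fun i => bseq b (k - 1 - i)) = 1 := by
  induction k with
  | zero =>
    have : (fun i : Fin 0 => bseq b (0 - 1 - i)) = Fin.elim0 := Subsingleton.elim _ _
    rw [this, octa, Finsupp.single_eq_same]
  | succ k ih =>
    have h1 : (fun i : Fin (k + 1) => bseq b (k + 1 - 1 - i))
        = Fin.cons (bseq b k) (fun i : Fin k => bseq b (k - 1 - i)) := by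
      funext i
      refine Fin.cases ?_ (fun j => ?_) i
      · simp
      · simp only [Fin.cons_succ, Fin.val_succ]
        congr 1
        omega
    have h2 : bseq b k ≠ - bseq b k := by
      intro h
      have h3 : bseq b k = 0 := by
        have : (2 : ℝ) • bseq b k = 0 := by
          rw [two_smul]; nth_rewrite 2 [h]; simp
        exact (smul_eq_zero.mp this).resolve_left (by norm_num)
      rw [bseq_of_lt b (by omega : k < n)] at h3
      exact b.ne_zero _ h3
    rw [h1, octa, Finsupp.sub_apply, cone_apply_same, cone_apply_ne h2, ih (by omega), sub_zero]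

lemma basis_sum_generic (b : Module.Basis (Fin n) ℝ V) :
    Generic (∑ i, b i) (octa (bseq b) n) := by
  classical
  intro v hv l hmem
  obtain ⟨s, rfl⟩ := support_octa' b n v hv
  have hl : n - 1 - (l : ℕ) < n := by have := l.isLt; omega
  have h1 : ∀ x ∈ Submodule.span ℝ ((fun i : Fin n => ((s i : ℤˣ) : ℤ) • bseq b (n - 1 - i)) ''
      {j | j ≠ l}), b.coord ⟨n - 1 - l, hl⟩ x = 0 := by
    intro x hx
    induction hx using Submodule.span_induction with
    | mem x hx =>
      obtain ⟨j, hj, rfl⟩ := hx
      have hj' : n - 1 - (j : ℕ) < n := by have := j.isLt; omega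
      simp only
      rw [bseq_of_lt b hj', map_zsmul, Module.Basis.coord_apply, Module.Basis.repr_self,
        Finsupp.single_apply, if_neg, smul_zero]
      intro h
      apply hj
      have h2 := congrArg Fin.val h
      simp only at h2
      have := j.isLt
      have := l.isLt
      exact Fin.ext (by omega)
    | zero => simp
    | add x y _ _ hx hy => rw [map_add, hx, hy, add_zero]
    | smul a x _ hx => rw [map_smul, hx, smul_zero]
  have h2 := h1 _ hmem
  rw [map_sum] at h2
  simp only [Module.Basis.coord_apply, Module.Basis.repr_self, Finsupp.single_apply] at h2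
  simp at h2

/-- the cross-polytope sphere has degree `± 1` -/
lemma crossing_octa (b : Module.Basis (Fin n) ℝ V) :
    crossingNumber b (∑ i, b i) (octa (bseq b) n) = 1 ∨
      crossingNumber b (∑ i, b i) (octa (bseq b) n) = -1 := by
  classical
  set v0 : Fin n → V := fun i => bseq b (n - 1 - i) with hv0
  have hv0' : ∀ i : Fin n, v0 i = b i.rev := by
    intro i
    have hi : n - 1 - (i : ℕ) < n := by have := i.isLt; omega
    rw [hv0]
    simp only
    rw [bseq_of_lt b hi]
    congr 1
    apply Fin.ext
    simp only [Fin.val_rev]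
    omega
  have hrev : v0 = b.reindex Fin.revPerm := by
    funext i
    rw [hv0' i]
    simp
  have hdet : b.det v0 ≠ 0 := by
    have : IsUnit (b.det (b.reindex Fin.revPerm)) := b.isUnit_det _
    rw [hrev]
    exact this.ne_zero
  have hsum : crossingNumber b (∑ i, b i) (octa (bseq b) n)
      = ∑ v ∈ (octa (bseq b) n).support, octa (bseq b) n v * crossing b (∑ i, b i) v := by
    rw [crossingNumber, Finsupp.linearCombination_apply, Finsupp.sum]
    rfl
  have hv0s : v0 ∈ (octa (bseq b) n).support := by
    rw [Finsupp.mem_support_iff, octa_coeff b le_rfl]; exact one_ne_zero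
  rw [hsum, Finset.sum_eq_single v0]
  · rw [octa_coeff b le_rfl, one_mul]
    rw [crossing_eq_of_sum b v0 (fun _ => 1) _ ?_ hdet]
    · rw [if_pos (fun _ => one_pos)]
      rcases hdet.lt_or_gt with h | h
      · right; rw [sign_neg h]; rfl
      · left; rw [sign_pos h]; rfl
    · simp only [one_smul]
      rw [← Equiv.sum_comp Fin.revPerm]
      refine Finset.sum_congr rfl fun i _ => ?_
      rw [hv0' i]; rfl
  · intro v hv hne
    obtain ⟨s, rfl⟩ := support_octa' b n v hv
    have hs : ∃ i, s i = -1 := by
      by_contra hcon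
      push Not at hcon
      apply hne
      funext i
      rcases Int.units_eq_one_or (s i) with h | h
      · simp [h, hv0]
      · exact absurd h (hcon i)
    obtain ⟨i, hi⟩ := hs
    have hsm : ∀ j, ((s j : ℤˣ) : ℤ) • v0 j = (((s j : ℤˣ) : ℤ) : ℝ) • v0 j := by
      intro j; rw [Int.cast_smul_eq_zsmul]
    by_cases hd : b.det (fun i => ((s i : ℤˣ) : ℤ) • bseq b (n - 1 - i)) = 0
    · rw [crossing_eq_zero_of_det b (Fin.pos i) _ _ hd, mul_zero]
    · rw [crossing_eq_of_sum b _ (fun j => (((s j : ℤˣ) : ℤ) : ℝ)) _ ?_ hd]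
      · rw [if_neg, mul_zero]
        intro h
        have := h i
        rw [hi] at this
        norm_num at this
      · rw [← Equiv.sum_comp Fin.revPerm]
        refine Finset.sum_congr rfl fun j _ => ?_
        have h1 : ((s j : ℤˣ) : ℤ) • bseq b (n - 1 - j) = (((s j : ℤˣ) : ℤ) : ℝ) • v0 j := hsm j
        rw [h1, smul_smul, hv0' j]
        have h2 : (((s j : ℤˣ) : ℤ) : ℝ) * (((s j : ℤˣ) : ℤ) : ℝ) = 1 := by
          rcases Int.units_eq_one_or (s j) with h | h <;> rw [h] <;> norm_num
        rw [h2, one_smul]; rfl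
  · intro h; exact absurd hv0s h

end Polytope

end HodgeEuler
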