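import Mathlib

/-!
# Ordered affine chains and the Euler class of a flat bundle

For a set `X` we write `Cv X k` for the free abelian group on the `k`-tuples of elements of `X`
(ordered simplices with `k` vertices, i.e. of dimension `k - 1`); `Cv X 0` is the group of the
empty simplex, so that `bd : Cv X (k + 1) → Cv X k` is the *augmented* ordered chain complex.

* for a group `Γ`, `Cv Γ (k + 1)` is the degree-`k` part of the homogeneous bar resolution;
* for a real vector space `V`, the tuples of `Cv V k` whose convex hull misses `0` are the affine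
  singular simplices of `V ∖ {0}`.
-/

namespace HodgeEuler

open Finsupp

/-- Ordered chains with `k` vertices in `X` (dimension `k - 1`). -/
abbrev Cv (X : Type*) (k : ℕ) := (Fin k → X) →₀ ℤ

/-- The map induced on chains by a map of vertices. -/
noncomputable def cmap {X Y : Type*} (φ : X → Y) (k : ℕ) : Cv X k →ₗ[ℤ] Cv Y k :=
  Finsupp.lmapDomain ℤ ℤ (fun v : Fin k → X => fun i => φ (v i))

/-- The boundary `∑ᵢ (-1)ⁱ (v₀, …, v̂ᵢ, …, v_k)` (augmented: the boundary of a vertex is the empty
simplex). -/
noncomputable def bd {X : Type*} (k : ℕ) : Cv X (k + 1) →ₗ[ℤ] Cv X k :=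
  Finsupp.linearCombination ℤ
    (fun v : Fin (k + 1) → X =>
      ∑ i : Fin (k + 1), (-1 : ℤ) ^ (i : ℕ) • Finsupp.single (fun j => v (i.succAbove j)) (1 : ℤ))

/-- The action of a group element on chains. -/
noncomputable def act {Γ X : Type*} [SMul Γ X] (γ : Γ) (k : ℕ) : Cv X k →ₗ[ℤ] Cv X k :=
  cmap (fun x : X => γ • x) k

section Euler

variable {V : Type*} [AddCommGroup V] [Module ℝ V]

/-- All simplices of the chain `c` (with at least one vertex) miss the origin: `c` is a chain of
affine simplices of `V ∖ {0}`. -/
def Avoids {k : ℕ} (c : Cv V k) : Prop :=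
  ∀ v ∈ c.support, (0 : V) ∉ convexHull ℝ (Set.range v)

variable {n : ℕ}

open Classical in
/-- Crossing sign of the ray `ℝ₊ p` with the oriented simplex `v = (v₁, …, v_n)` in the oriented
`n`-dimensional space `V`: it is `sign det v` if `p` lies in the open cone spanned by the `vᵢ`
(i.e. all the Cramer coordinates `det (v₁, …, p, …, v_n) / det v` are positive), and `0`
otherwise. -/
noncomputable def crossing (b : Module.Basis (Fin n) ℝ V) (p : V) (v : Fin n → V) : ℤ :=
  if ∀ i, 0 < b.det v * b.det (Function.update v i p) then (SignType.sign (b.det v) : ℤ) else 0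

/-- The number of signed crossings of the ray `ℝ₊ p` with a chain. -/
noncomputable def crossingNumber (b : Module.Basis (Fin n) ℝ V) (p : V) : Cv V n →ₗ[ℤ] ℤ :=
  Finsupp.linearCombination ℤ (crossing b p)

/-- `p` is in general position with respect to the chain `c`: it does not lie in the span of a
proper face of a simplex of `c`. -/
def Generic (p : V) {k : ℕ} (c : Cv V k) : Prop :=
  ∀ v ∈ c.support, ∀ i : Fin k, p ∉ Submodule.span ℝ (v '' {j | j ≠ i})

/-- `d` is the winding number (degree) around the origin of the `(n-1)`-dimensional cycle `c`: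
every ray in general position crosses `c` exactly `d` times, counted with signs. -/
def IsWinding (b : Module.Basis (Fin n) ℝ V) (c : Cv V n) (d : ℤ) : Prop :=
  ∀ p : V, Generic p c → crossingNumber b p c = d

variable {Γ : Type*} [Group Γ] [MulAction Γ V]

/-- A `Γ`-equivariant augmentation preserving chain map from the homogeneous bar resolution of `Γ`
to the affine chains of `V ∖ {0}`, defined in dimensions `≤ n - 1`. -/
structure SphereMap (Γ V : Type*) [Group Γ] [AddCommGroup V] [Module ℝ V] [MulAction Γ V]
    (n : ℕ) where
  /-- the maps -/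
  f : ∀ k, Cv Γ k →ₗ[ℤ] Cv V k
  /-- augmentation -/
  f_zero : ∀ e : Fin 0 → Γ, f 0 (single e 1) = single Fin.elim0 1
  /-- chain map -/
  comm : ∀ k, k < n → ∀ c : Cv Γ (k + 1), bd k (f (k + 1) c) = f k (bd k c)
  /-- equivariance -/
  equiv : ∀ k, k ≤ n → ∀ (γ : Γ) (c : Cv Γ k), f k (act γ k c) = act γ k (f k c)
  /-- the simplices miss the origin -/
  avoids : ∀ k, k ≤ n → ∀ x : Fin k → Γ, Avoids (f k (single x 1))

end Euler

section Class

variable {Γ : Type} [Group Γ] {V : Type*} [AddCommGroup V] [Module ℝ V] [MulAction Γ V] {n : ℕ}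

/-- `c ∈ Hⁿ(Γ; ℤ)` is the Euler class of the flat oriented bundle over `BΓ` with fibre the oriented
vector space `V` (orientation given by the basis `b`): it is the primary obstruction, i.e. it is
represented by the cocycle which sends an `n`-simplex `x = (x₀, …, x_n)` of the bar resolution to
the winding number of `f (∂ x)`, for an equivariant chain map `f` from the bar resolution to the
affine chains of `V ∖ {0}` defined in dimensions `≤ n - 1`. -/
def IsEulerClass (b : Module.Basis (Fin n) ℝ V)
    (c : groupCohomology (Rep.trivial ℤ Γ ℤ) n) : Prop :=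
  ∃ (F : SphereMap Γ V n) (E : groupCohomology.cocycles (Rep.trivial ℤ Γ ℤ) n),
    c = groupCohomology.π (Rep.trivial ℤ Γ ℤ) n E ∧
    ∀ x : Fin (n + 1) → Γ,
      IsWinding b (F.f n (bd n (single x 1)))
        (groupCohomology.iCocycles (Rep.trivial ℤ Γ ℤ) n E
          (fun j : Fin n => (x j.castSucc)⁻¹ * x j.succ))

end Class

end HodgeEuler
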