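import Pool.Agent.Lib_helper88.Hodge.TwoPart

namespace HodgeEuler

open Finsupp CategoryTheory groupCohomology

section Fill

variable {V : Type*} [AddCommGroup V] [Module ℝ V] {n : ℕ}

open Classical in
/-- a chosen filling -/
noncomputable def fillC {k : ℕ} (r : Cv V k) : Cv V (k + 1) :=
  if h : ∃ u : Cv V (k + 1), Avoids u ∧ bd k u = r then h.choose else 0

lemma fillC_spec {k : ℕ} {r : Cv V k} (h : ∃ u : Cv V (k + 1), Avoids u ∧ bd k u = r) :
    Avoids (fillC r) ∧ bd k (fillC r) = r := by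
  unfold fillC
  rw [dif_pos h]
  exact h.choose_spec

lemma avoids_fillC {k : ℕ} (r : Cv V k) : Avoids (fillC r) := by
  unfold fillC
  split_ifs with h
  · exact h.choose_spec.1
  · exact Avoids.zero

end Fill

section Equivariant

variable {Γ : Type*} [Group Γ] {V : Type*} [AddCommGroup V] [Module ℝ V]
  [DistribMulAction Γ V] [SMulCommClass Γ ℝ V] {n : ℕ}

/-- equivariant extension of `r` from the simplices -/
noncomputable def eqFill {j k : ℕ} (r : (Fin (j + 1) → Γ) → Cv V k) :
    Cv Γ (j + 1) →ₗ[ℤ] Cv V (k + 1) :=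
  Finsupp.linearCombination ℤ fun x => act (x 0) (k + 1) (fillC (act (x 0)⁻¹ k (r x)))

lemma eqFill_single {j k : ℕ} (r : (Fin (j + 1) → Γ) → Cv V k) (x : Fin (j + 1) → Γ) :
    eqFill r (single x 1) = act (x 0) (k + 1) (fillC (act (x 0)⁻¹ k (r x))) := by
  simp [eqFill]

lemma eqFill_equiv {j k : ℕ} (r : (Fin (j + 1) → Γ) → Cv V k)
    (hr : ∀ (γ : Γ) x, r (fun i => γ • x i) = act γ k (r x)) (γ : Γ) (c : Cv Γ (j + 1)) :
    eqFill r (act γ (j + 1) c) = act γ (k + 1) (eqFill r c) := by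
  have : eqFill r ∘ₗ act γ (j + 1) = act γ (k + 1) ∘ₗ eqFill r := by
    refine cv_ext fun x => ?_
    rw [LinearMap.comp_apply, LinearMap.comp_apply, act_single, eqFill_single, eqFill_single, hr]
    simp only [smul_eq_mul]
    rw [← act_mul, ← act_mul, mul_inv_rev, mul_assoc, inv_mul_cancel, mul_one]
  exact LinearMap.congr_fun this c

lemma eqFill_avoids {j k : ℕ} (r : (Fin (j + 1) → Γ) → Cv V k) (x : Fin (j + 1) → Γ) :
    Avoids (eqFill r (single x 1)) := by
  rw [eqFill_single]; exact (avoids_fillC _).act _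

lemma eqFill_bd_single {j k : ℕ} (r : (Fin (j + 1) → Γ) → Cv V k) (x : Fin (j + 1) → Γ)
    (h : ∃ u : Cv V (k + 1), Avoids u ∧ bd k u = act (x 0)⁻¹ k (r x)) :
    bd k (eqFill r (single x 1)) = r x := by
  rw [eqFill_single, bd_act, (fillC_spec h).2, ← act_mul, mul_inv_cancel, act_one]

variable (Γ V) in
/-- the recursively constructed equivariant chain map -/
noncomputable def sphF : ∀ k, Cv Γ k →ₗ[ℤ] Cv V k
  | 0 => Finsupp.linearCombination ℤ fun _ => single Fin.elim0 1
  | (k + 1) => eqFill fun x => sphF k (bd k (single x 1))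

lemma sphF_equiv (k : ℕ) :
    ∀ (γ : Γ) (c : Cv Γ k), sphF Γ V k (act γ k c) = act γ k (sphF Γ V k c) := by
  induction k with
  | zero => intro γ c; rw [act_zero_eq, act_zero_eq]
  | succ k ih =>
    intro γ c
    refine eqFill_equiv _ (fun γ x => ?_) γ c
    rw [← ih, ← bd_act, act_single]

lemma sphF_avoids (k : ℕ) (x : Fin k → Γ) : Avoids (sphF Γ V k (single x 1)) := by
  cases k with
  | zero =>
    intro v _
    rw [Set.range_eq_empty, convexHull_empty]
    exact Set.notMem_empty _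
  | succ k => exact eqFill_avoids _ _

lemma sphF_comm (b : Module.Basis (Fin n) ℝ V) (k : ℕ) (hk : k < n) :
    ∀ c : Cv Γ (k + 1), bd k (sphF Γ V (k + 1) c) = sphF Γ V k (bd k c) := by
  induction k with
  | zero =>
    have : bd 0 ∘ₗ sphF Γ V 1 = sphF Γ V 0 ∘ₗ bd 0 := by
      refine cv_ext fun x => ?_
      exact eqFill_bd_single _ x (exists_fill_zero b hk _)
    exact LinearMap.congr_fun this
  | succ k ih =>
    have : bd (k + 1) ∘ₗ sphF Γ V (k + 2) = sphF Γ V (k + 1) ∘ₗ bd (k + 1) := by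
      refine cv_ext fun x => ?_
      refine eqFill_bd_single _ x (exists_fill_succ b hk _ ?_ ?_)
      · exact Avoids.act (avoids_map _ _ fun v _ => sphF_avoids (k + 1) v) _
      · rw [bd_act, ih (by omega), bd_bd, map_zero, map_zero]
    exact LinearMap.congr_fun this

/-- existence of equivariant maps to the sphere -/
theorem exists_sphereMap (b : Module.Basis (Fin n) ℝ V) : Nonempty (SphereMap Γ V n) :=
  ⟨{ f := sphF Γ V
     f_zero := fun e => by simp [sphF]
     comm := fun k hk c => sphF_comm b k hk c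
     equiv := fun k _ γ c => sphF_equiv k γ c
     avoids := fun k _ x => sphF_avoids k x }⟩

/-- a linear map all of whose values are cycles has a linear winding number -/
lemma exists_windL {X : Type*} {k : ℕ} (b : Module.Basis (Fin (n + 1)) ℝ V)
    (G : Cv X k →ₗ[ℤ] Cv V (n + 1)) (hG : ∀ c, IsCyc (G c)) :
    ∃ A : Cv X k →ₗ[ℤ] ℤ, ∀ c, A c = wind b (G c) :=
  ⟨{ toFun := fun c => wind b (G c)
     map_add' := fun c c' => by rw [map_add, wind_add b (hG c) (hG c')]
     map_smul' := fun r c => by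
      rw [map_smul, wind_smul b r (hG c), RingHom.id_apply, smul_eq_mul] }, fun _ => rfl⟩

/-- two equivariant maps to the sphere are equivariantly homotopic up to a winding number -/
theorem exists_difference (b : Module.Basis (Fin (n + 1)) ℝ V)
    (hdet : ∀ (γ : Γ) (v : Fin (n + 1) → V), b.det (fun i => γ • v i) = b.det v)
    (F F' : SphereMap Γ V (n + 1)) :
    ∃ A : Cv Γ (n + 1) →ₗ[ℤ] ℤ, (∀ (γ : Γ) c, A (act γ (n + 1) c) = A c) ∧
      ∀ c : Cv Γ (n + 2), A (bd (n + 1) c) =
        wind b (F.f (n + 1) (bd (n + 1) c)) - wind b (F'.f (n + 1) (bd (n + 1) c)) := by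
  -- homotopies `H k : Cv Γ k → Cv V (k + 1)`, `k ≤ n`
  have hH : ∀ k, k ≤ n → ∃ H : Cv Γ k →ₗ[ℤ] Cv V (k + 1),
      (∀ (γ : Γ) c, H (act γ k c) = act γ (k + 1) (H c)) ∧ (∀ x, Avoids (H (single x 1))) ∧
      (∀ c : Cv Γ (k + 1), bd k (F.f (k + 1) c - F'.f (k + 1) c - H (bd k c)) = 0) := by
    intro k
    induction k with
    | zero =>
      intro _
      refine ⟨0, fun γ c => by simp, fun x => by simpa using Avoids.zero, fun c => ?_⟩
      have h0 : F.f 0 = F'.f 0 := cv_ext fun x => by rw [F.f_zero, F'.f_zero]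
      rw [map_sub, map_sub, F.comm 0 (Nat.succ_pos n), F'.comm 0 (Nat.succ_pos n), h0]
      simp
    | succ k ih =>
      intro hk
      obtain ⟨H, hH1, hH2, hH3⟩ := ih (by omega)
      let G : Cv Γ (k + 1) →ₗ[ℤ] Cv V (k + 1) := F.f (k + 1) - F'.f (k + 1) - H ∘ₗ bd k
      have hG : ∀ c, G c = F.f (k + 1) c - F'.f (k + 1) c - H (bd k c) := fun c => rfl
      have hGe : ∀ (γ : Γ) c, G (act γ (k + 1) c) = act γ (k + 1) (G c) := by
        intro γ c
        rw [hG, hG, F.equiv _ (by omega), F'.equiv _ (by omega), bd_act, hH1, map_sub, map_sub]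
      have hGa : ∀ c, Avoids (G c) := fun c => by
        rw [hG]
        exact ((F.avoids' (by omega) _).sub (F'.avoids' (by omega) _)).sub
          (avoids_map H (bd k c) fun v _ => hH2 v)
      refine ⟨eqFill fun x => G (single x 1), eqFill_equiv _ fun γ x => by
        rw [← hGe, act_single], fun x => eqFill_avoids _ x, fun c => ?_⟩
      have h1 : ∀ c : Cv Γ (k + 1), bd (k + 1) (eqFill (fun x => G (single x 1)) c) = G c := by
        intro c
        have : bd (k + 1) ∘ₗ eqFill (fun x => G (single x 1)) = G := by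
          refine cv_ext fun x => ?_
          refine eqFill_bd_single _ x (exists_fill_succ b (by omega) _ ((hGa _).act _) ?_)
          rw [bd_act, hG, hH3, map_zero]
        exact LinearMap.congr_fun this c
      rw [map_sub, map_sub, F.comm (k + 1) (by omega), F'.comm (k + 1) (by omega), h1, hG, bd_bd,
        map_zero, sub_zero, sub_self]
  obtain ⟨H, hH1, hH2, hH3⟩ := hH n le_rfl
  let G : Cv Γ (n + 1) →ₗ[ℤ] Cv V (n + 1) := F.f (n + 1) - F'.f (n + 1) - H ∘ₗ bd n
  have hG : ∀ c, G c = F.f (n + 1) c - F'.f (n + 1) c - H (bd n c) := fun c => rfl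
  have hGe : ∀ (γ : Γ) c, G (act γ (n + 1) c) = act γ (n + 1) (G c) := by
    intro γ c
    rw [hG, hG, F.equiv _ le_rfl, F'.equiv _ le_rfl, bd_act, hH1, map_sub, map_sub]
  have hGc : ∀ c, IsCyc (G c) := fun c => by
    rw [hG]
    exact ⟨((F.avoids' le_rfl _).sub (F'.avoids' le_rfl _)).sub
      (avoids_map H (bd n c) fun v _ => hH2 v), hH3 c⟩
  obtain ⟨A, hA⟩ := exists_windL b G hGc
  refine ⟨A, fun γ c => ?_, fun c => ?_⟩
  · rw [hA, hA, hGe, wind_act b hdet γ (hGc c)]
  · rw [hA, hG, bd_bd, map_zero, sub_zero, wind_sub b (F.isCyc c) (F'.isCyc c)]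

end Equivariant

section Class

variable {Γ : Type} [Group Γ] {V : Type*} [AddCommGroup V] [Module ℝ V]
  [DistribMulAction Γ V] [SMulCommClass Γ ℝ V] {n : ℕ}

/-- invariant functionals on the bar resolution come from inhomogeneous cochains -/
lemma exists_inhomogeneous (A : Cv Γ (n + 1) →ₗ[ℤ] ℤ)
    (hA : ∀ (γ : Γ) c, A (act γ (n + 1) c) = A c) :
    ∃ φ : (Fin n → Γ) → ℤ, A = homc φ := by
  refine ⟨fun g => A (single (Fin.partialProd g) 1), cv_ext fun x => ?_⟩
  have h1 : (fun i => x 0 • Fin.partialProd (fun j : Fin n => (x j.castSucc)⁻¹ * x j.succ) i) = x :=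
    Fin.partialProd_left_inv x
  have h2 := hA (x 0) (single (Fin.partialProd (fun j : Fin n => (x j.castSucc)⁻¹ * x j.succ)) 1)
  rw [act_single, h1] at h2
  rw [homc_single, one_mul]
  exact h2

lemma homc_injective {φ ψ : (Fin n → Γ) → ℤ} (h : homc φ = homc ψ) : φ = ψ := by
  funext g
  have h1 := LinearMap.congr_fun h (single (Fin.partialProd g) 1)
  rw [homc_single, homc_single, one_mul, one_mul] at h1
  have h2 : (fun j : Fin n => (Fin.partialProd g j.castSucc)⁻¹ * Fin.partialProd g j.succ) = g :=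
    funext fun j => Fin.partialProd_right_inv g j
  rwa [h2] at h1

/-- **The Euler class exists.** -/
theorem exists_eulerClass (b : Module.Basis (Fin (n + 1)) ℝ V)
    (hdet : ∀ (γ : Γ) (v : Fin (n + 1) → V), b.det (fun i => γ • v i) = b.det v) :
    ∃ c : groupCohomology (Rep.trivial ℤ Γ ℤ) (n + 1), IsEulerClass b c := by
  obtain ⟨F⟩ := exists_sphereMap (Γ := Γ) b
  obtain ⟨A, hA⟩ := exists_windL b (F.f (n + 1) ∘ₗ bd (n + 1)) (fun c => F.isCyc c)
  have hAi : ∀ (γ : Γ) c, A (act γ (n + 2) c) = A c := by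
    intro γ c
    rw [hA, hA, LinearMap.comp_apply, LinearMap.comp_apply, bd_act, F.equiv _ le_rfl,
      wind_act b hdet γ (F.isCyc c)]
  obtain ⟨φ, hφ⟩ := exists_inhomogeneous A hAi
  have hd : inhomogeneousCochains.d (Rep.trivial ℤ Γ ℤ) (n + 1) φ = 0 := by
    refine homc_injective (n := n + 2) ?_
    refine LinearMap.ext fun c => ?_
    rw [← homc_bd, ← hφ, hA, LinearMap.comp_apply, bd_bd, map_zero, wind_zero]
    have h0 : homc (Γ := Γ) (n := n + 2) 0 = 0 := cv_ext fun x => by
      rw [homc_single]; simp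
    rw [h0]; rfl
  refine ⟨π _ _ (cocyclesMk φ hd), F, cocyclesMk φ hd, rfl, fun x => ?_⟩
  rw [iCocycles_mk]
  have h1 : φ (fun j : Fin (n + 1) => (x j.castSucc)⁻¹ * x j.succ)
      = wind b (F.f (n + 1) (bd (n + 1) (single x 1))) := by
    have h2 := hA (single x 1)
    rw [hφ, homc_single, one_mul] at h2
    exact h2
  rw [h1]
  exact isWinding_wind b (F.isCyc _)

/-- **The Euler class is unique.** -/
theorem eulerClass_unique (b : Module.Basis (Fin (n + 1)) ℝ V)
    (hdet : ∀ (γ : Γ) (v : Fin (n + 1) → V), b.det (fun i => γ • v i) = b.det v)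
    {c c' : groupCohomology (Rep.trivial ℤ Γ ℤ) (n + 1)} (hc : IsEulerClass b c)
    (hc' : IsEulerClass b c') : c = c' := by
  obtain ⟨F, E, rfl, hE⟩ := hc
  obtain ⟨F', E', rfl, hE'⟩ := hc'
  obtain ⟨A, hA, hAd⟩ := exists_difference b hdet F F'
  obtain ⟨φ, hφ⟩ := exists_inhomogeneous A hA
  rw [← sub_eq_zero, ← map_sub]
  refine coho_pi_eq_zero_of _ _ _ φ ?_
  refine homc_injective (n := n + 1) ?_
  refine LinearMap.ext fun x => ?_
  rw [← homc_bd, ← hφ, hAd, ← homc_eq_wind b F E hE, ← homc_eq_wind b F' E' hE']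
  have h1 : (homc (n := n + 1) (iCocycles (Rep.trivial ℤ Γ ℤ) (n + 1) (E - E')))
      = homc (n := n + 1) (iCocycles (Rep.trivial ℤ Γ ℤ) (n + 1) E)
        - homc (n := n + 1) (iCocycles (Rep.trivial ℤ Γ ℤ) (n + 1) E') := by
    refine cv_ext fun x => ?_
    rw [LinearMap.sub_apply, homc_single, homc_single, homc_single, map_sub, one_mul, one_mul,
      one_mul]
    rfl
  rw [h1, LinearMap.sub_apply]

end Class

end HodgeEuler
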