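import Pool.Agent.Lib_helper88.Hodge.Chains

namespace HodgeEuler

open Finsupp

section Avoids

variable {V : Type*} [AddCommGroup V] [Module ℝ V]

lemma Avoids.add {k : ℕ} {c c' : Cv V k} (h : Avoids c) (h' : Avoids c') : Avoids (c + c') := by
  classical
  intro v hv
  rcases Finset.mem_union.mp (Finsupp.support_add hv) with h1 | h1
  · exact h v h1
  · exact h' v h1

lemma Avoids.neg {k : ℕ} {c : Cv V k} (h : Avoids c) : Avoids (-c) := by
  intro v hv
  rw [Finsupp.support_neg] at hv
  exact h v hv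

lemma Avoids.sub {k : ℕ} {c c' : Cv V k} (h : Avoids c) (h' : Avoids c') : Avoids (c - c') := by
  rw [sub_eq_add_neg]; exact h.add h'.neg

lemma Avoids.zero {k : ℕ} : Avoids (0 : Cv V k) := by
  intro v hv; simp at hv

lemma Avoids.smul {k : ℕ} {c : Cv V k} (m : ℤ) (h : Avoids c) : Avoids (m • c) := by
  intro v hv
  exact h v (Finsupp.support_smul hv)

lemma Avoids.sum {k : ℕ} {ι : Type*} (s : Finset ι) (c : ι → Cv V k)
    (h : ∀ i ∈ s, Avoids (c i)) : Avoids (∑ i ∈ s, c i) := by
  classical
  induction s using Finset.induction_on with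
  | empty => simpa using Avoids.zero
  | insert a s ha ih =>
    rw [Finset.sum_insert ha]
    exact (h a (Finset.mem_insert_self _ _)).add
      (ih fun i hi => h i (Finset.mem_insert_of_mem hi))

lemma avoids_single {k : ℕ} {v : Fin k → V} (h : (0 : V) ∉ convexHull ℝ (Set.range v)) (m : ℤ) :
    Avoids (single v m) := by
  intro w hw
  have := Finsupp.support_single_subset hw
  rw [Finset.mem_singleton] at this
  rwa [this]

/-- a linear map which sends the simplices of `c` to avoiding chains sends `c` to one. -/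
lemma avoids_map {X : Type*} {j k : ℕ} (f : Cv X j →ₗ[ℤ] Cv V k) (c : Cv X j)
    (h : ∀ v ∈ c.support, Avoids (f (single v 1))) : Avoids (f c) := by
  have : c = ∑ v ∈ c.support, (c v) • single v 1 := by
    conv_lhs => rw [← Finsupp.sum_single c]
    rw [Finsupp.sum]
    refine Finset.sum_congr rfl fun v _ => ?_
    simp
  rw [this, map_sum]
  refine Avoids.sum _ _ fun v hv => ?_
  rw [map_smul]
  exact (h v hv).smul _

lemma Avoids.bd {k : ℕ} {c : Cv V (k + 1)} (h : Avoids c) : Avoids (bd k c) := by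
  refine avoids_map (HodgeEuler.bd k) c fun v hv => ?_
  rw [bd_single]
  refine Avoids.sum _ _ fun i _ => Avoids.smul _ (avoids_single ?_ _)
  intro h0
  refine h v hv (convexHull_mono ?_ h0)
  rintro _ ⟨j, rfl⟩
  exact ⟨_, rfl⟩

lemma Avoids.cmap {k : ℕ} {c : Cv V k} (h : Avoids c) (φ : V ≃ₗ[ℝ] V) :
    Avoids (cmap φ k c) := by
  refine avoids_map (HodgeEuler.cmap φ k) c fun v hv => ?_
  rw [cmap_single]
  refine avoids_single ?_ _
  intro h0
  refine h v hv ?_
  have h1 : Set.range (fun i => φ (v i)) = φ '' (Set.range v) := by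
    rw [← Set.range_comp]; rfl
  rw [h1] at h0
  have h2 : φ '' (convexHull ℝ (Set.range v)) = convexHull ℝ (φ '' Set.range v) :=
    (φ : V →ₗ[ℝ] V).image_convexHull _
  rw [← h2] at h0
  obtain ⟨y, hy, hy0⟩ := h0
  have : y = 0 := by simpa using hy0
  rwa [this] at hy

lemma zero_notMem_cons {k : ℕ} {v : Fin k → V} {w : V}
    (hv : (0 : V) ∉ convexHull ℝ (Set.range v))
    (hw : w ∉ Submodule.span ℝ (Set.range v)) :
    (0 : V) ∉ convexHull ℝ (Set.range (Fin.cons w v : Fin (k + 1) → V)) := by
  intro h0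
  rw [Fin.range_cons] at h0
  rcases (Set.range v).eq_empty_or_nonempty with he | hne
  · rw [he] at h0 hw
    simp only [insert_empty_eq, convexHull_singleton, Set.mem_singleton_iff] at h0
    exact hw (by rw [← h0]; exact Submodule.zero_mem _)
  · rw [convexHull_insert hne, mem_convexJoin] at h0
    obtain ⟨x, hx, y, hy, h0⟩ := h0
    rw [Set.mem_singleton_iff] at hx
    subst hx
    obtain ⟨a, c, ha, hc, hac, h0⟩ := h0
    by_cases ha0 : a = 0
    · subst ha0
      have : c = 1 := by linarith
      subst this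
      rw [zero_smul, one_smul, zero_add] at h0
      exact hv (h0 ▸ hy)
    · apply hw
      have h1 : x = (-(a⁻¹ * c)) • y := by
        have h2 : a • x = -(c • y) := eq_neg_of_add_eq_zero_left h0
        have h3 : x = a⁻¹ • (a • x) := by rw [smul_smul, inv_mul_cancel₀ ha0, one_smul]
        rw [h3, h2, smul_neg, smul_smul, neg_smul]
      rw [h1]
      exact Submodule.smul_mem _ _
        (convexHull_min Submodule.subset_span (Submodule.convex _) hy)

variable {n : ℕ}

/-- A finite family of proper subspaces does not cover. -/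
lemma exists_notMem (S : Finset (Submodule ℝ V)) (hS : ∀ s ∈ S, s ≠ ⊤) :
    ∃ p : V, ∀ s ∈ S, p ∉ s := by
  have := Subspace.biUnion_ne_univ_of_top_notMem (k := ℝ) (E := V) (s := S)
    (fun h => hS ⊤ h rfl)
  by_contra hcon
  push Not at hcon
  apply this
  rw [Set.eq_univ_iff_forall]
  intro p
  obtain ⟨s, hs, hp⟩ := hcon p
  simp only [Set.mem_iUnion]
  exact ⟨s, hs, hp⟩

lemma span_range_ne_top (b : Module.Basis (Fin n) ℝ V) {k : ℕ} (hk : k < n) (v : Fin k → V) :
    Submodule.span ℝ (Set.range v) ≠ ⊤ := by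
  intro h
  have h1 := finrank_range_le_card (R := ℝ) v
  have h2 : Set.finrank ℝ (Set.range v) = n := by
    rw [Set.finrank, h, finrank_top, Module.finrank_eq_card_basis b, Fintype.card_fin]
  rw [h2, Fintype.card_fin] at h1
  omega

/-- every chain of dimension `< n - 1` has an avoiding cone. -/
lemma exists_cone (b : Module.Basis (Fin n) ℝ V) {k : ℕ} (hk : k < n) (r : Cv V k)
    (hr : Avoids r) : ∃ w, Avoids (cone w k r) := by
  classical
  obtain ⟨w, hw⟩ := exists_notMem (r.support.image fun v => Submodule.span ℝ (Set.range v)) (by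
    intro s hs
    obtain ⟨v, -, rfl⟩ := Finset.mem_image.mp hs
    exact span_range_ne_top b hk v)
  refine ⟨w, avoids_map _ _ fun v hv => ?_⟩
  rw [cone_single]
  exact avoids_single (zero_notMem_cons (hr v hv)
    (hw _ (Finset.mem_image_of_mem _ hv))) _

/-- **Filling lemma** (dimension `≥ 1`). -/
lemma exists_fill_succ (b : Module.Basis (Fin n) ℝ V) {k : ℕ} (hk : k + 1 < n) (r : Cv V (k + 1))
    (hr : Avoids r) (h0 : bd k r = 0) : ∃ u : Cv V (k + 2), Avoids u ∧ bd (k + 1) u = r := by
  obtain ⟨w, hw⟩ := exists_cone b hk r hr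
  refine ⟨_, hw, ?_⟩
  rw [bd_cone, h0, map_zero, sub_zero]

/-- **Filling lemma** (empty simplex). -/
lemma exists_fill_zero (b : Module.Basis (Fin n) ℝ V) (hn : 0 < n) (r : Cv V 0) :
    ∃ u : Cv V 1, Avoids u ∧ bd 0 u = r := by
  obtain ⟨w, hw⟩ := exists_cone b hn r (by
    intro v _
    rw [Set.range_eq_empty, convexHull_empty]
    exact Set.notMem_empty _)
  exact ⟨_, hw, bd_cone_zero _ _⟩

end Avoids

end HodgeEuler
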