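import Pool.Agent.Lib_helper88.Hodge.Cross

namespace HodgeEuler

open Finsupp

section Linear

variable {Γ : Type*} [Group Γ] {V : Type*} [AddCommGroup V] [Module ℝ V]
  [DistribMulAction Γ V] [SMulCommClass Γ ℝ V] {m : ℕ}

lemma act_eq_cmap (γ : Γ) (k : ℕ) (c : Cv V k) :
    act γ k c = cmap (DistribMulAction.toLinearEquiv ℝ V γ) k c := rfl

lemma Avoids.act {k : ℕ} {c : Cv V k} (h : Avoids c) (γ : Γ) : Avoids (act γ k c) := by
  rw [act_eq_cmap]; exact h.cmap _

lemma Avoids.ract {k : ℕ} {c : Cv V k} (h : Avoids c) (a : MonoidAlgebra ℤ Γ) :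
    Avoids (ract a k c) := by
  induction a using MonoidAlgebra.induction_on with
  | of γ => rw [ract_of]; exact h.act γ
  | add a b ha hb => rw [ract_add]; exact ha.add hb
  | smul r a ha =>
    have h1 : HodgeEuler.ract (r • a) k c = r • HodgeEuler.ract a k c := by
      simp only [HodgeEuler.ract, map_smul]; rfl
    rw [h1]; exact ha.smul r

lemma IsCyc.ract {c : Cv V (m + 1)} (h : IsCyc c) (a : MonoidAlgebra ℤ Γ) :
    IsCyc (ract a (m + 1) c) := ⟨h.1.ract a, by rw [bd_ract, h.2, map_zero]⟩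

lemma IsCyc.act {c : Cv V (m + 1)} (h : IsCyc c) (γ : Γ) :
    IsCyc (act γ (m + 1) c) := ⟨h.1.act γ, by rw [bd_act, h.2, map_zero]⟩

/-- winding numbers are invariant -/
lemma wind_act (b : Module.Basis (Fin (m + 1)) ℝ V)
    (hdet : ∀ (γ : Γ) (v : Fin (m + 1) → V), b.det (fun i => γ • v i) = b.det v) (γ : Γ)
    {z : Cv V (m + 1)} (hz : IsCyc z) : wind b (act γ (m + 1) z) = wind b z := by
  rw [act_eq_cmap]
  exact wind_map b _ (fun v => hdet γ v) hz

lemma wind_ract (b : Module.Basis (Fin (m + 1)) ℝ V)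
    (hdet : ∀ (γ : Γ) (v : Fin (m + 1) → V), b.det (fun i => γ • v i) = b.det v)
    (a : MonoidAlgebra ℤ Γ) {z : Cv V (m + 1)} (hz : IsCyc z) :
    wind b (ract a (m + 1) z) = (MonoidAlgebra.lift ℤ ℤ Γ 1 a) * wind b z := by
  induction a using MonoidAlgebra.induction_on with
  | of γ => rw [ract_of, wind_act b hdet γ hz]; simp
  | add a c ha hc =>
    rw [ract_add, wind_add b (hz.ract a) (hz.ract c), ha, hc, map_add, add_mul]
  | smul r a ha =>
    have h1 : ract (r • a) (m + 1) z = r • ract a (m + 1) z := by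
      simp only [ract, map_smul]; rfl
    rw [h1, wind_smul b r (hz.ract a), ha, map_smul, smul_eq_mul, mul_assoc]

/-- Two solutions of the twisted equations differ by a cycle. -/
lemma compare_general (b : Module.Basis (Fin (m + 1)) ℝ V) {M : ℕ} {h : Γ} (hM : h ^ M = 1)
    (y y' : ∀ k, Cv V (k + 1)) (h0 : bd 0 (y 0) = bd 0 (y' 0))
    (hy : ∀ k < m, bd (k + 1) (y (k + 1)) = ract (tw h M (k + 1)) (k + 1) (y k))
    (hy' : ∀ k < m, bd (k + 1) (y' (k + 1)) = ract (tw h M (k + 1)) (k + 1) (y' k))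
    (ha : ∀ k ≤ m, Avoids (y k)) (ha' : ∀ k ≤ m, Avoids (y' k)) :
    ∀ K ≤ m, ∃ r : Cv V (K + 1), IsCyc r ∧ ract (tw h M (K + 1)) (K + 1) r =
      ract (tw h M (K + 1)) (K + 1) (y K) - ract (tw h M (K + 1)) (K + 1) (y' K) := by
  intro K
  induction K with
  | zero =>
    intro _
    exact ⟨y 0 - y' 0, ⟨(ha 0 (Nat.zero_le _)).sub (ha' 0 (Nat.zero_le _)), by
      rw [map_sub, h0, sub_self]⟩, by rw [map_sub]⟩
  | succ K ih =>
    intro hK
    obtain ⟨r, hr, hr1⟩ := ih (by omega)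
    obtain ⟨u, hu, hu1⟩ := exists_fill_succ b (k := K) (by omega) r hr.1 hr.2
    refine ⟨y (K + 1) - y' (K + 1) - ract (tw h M (K + 1)) (K + 2) u, ⟨?_, ?_⟩, ?_⟩
    · exact ((ha _ hK).sub (ha' _ hK)).sub (hu.ract _)
    · rw [map_sub, map_sub, hy K (by omega), hy' K (by omega), bd_ract, hu1, hr1, sub_self]
    · rw [map_sub, map_sub, ← ract_mul, tw_mul_tw hM, ract_zero, sub_zero]

/-- equivariance with respect to the group ring -/
lemma SphereMap.ract {n : ℕ} (F : SphereMap Γ V n) {k : ℕ} (hk : k ≤ n) (a : MonoidAlgebra ℤ Γ)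
    (c : Cv Γ k) : F.f k (ract a k c) = HodgeEuler.ract a k (F.f k c) := by
  induction a using MonoidAlgebra.induction_on with
  | of γ => rw [ract_of, ract_of, F.equiv k hk]
  | add a b ha hb => rw [ract_add, ract_add, map_add, ha, hb]
  | smul r a ha =>
    have h1 : ∀ {X : Type _} [MulAction Γ X] (c : Cv X k),
        HodgeEuler.ract (r • a) k c = r • HodgeEuler.ract a k c := by
      intro X _ c
      simp only [HodgeEuler.ract, map_smul]; rfl
    rw [h1, map_smul, ha]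
    simp only [HodgeEuler.ract, map_smul]; rfl

lemma SphereMap.avoids' {n : ℕ} (F : SphereMap Γ V n) {k : ℕ} (hk : k ≤ n) (c : Cv Γ k) :
    Avoids (F.f k c) := avoids_map _ _ fun v _ => F.avoids k hk v

lemma SphereMap.isCyc {n : ℕ} (F : SphereMap Γ V (n + 1)) (c : Cv Γ (n + 2)) :
    IsCyc (F.f (n + 1) (bd (n + 1) c)) :=
  ⟨F.avoids' le_rfl _, by rw [F.comm n (Nat.lt_succ_self n), bd_bd, map_zero]⟩

/-- **Borsuk–Ulam type statement**: if `z` acts as `-1`, the Euler cocycle is odd on the standard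
`n`-cycle of `⟨z⟩`. -/
theorem odd_wind_cyc {q : ℕ} (b : Module.Basis (Fin (2 * q + 2)) ℝ V)
    (hdet : ∀ (γ : Γ) (v : Fin (2 * q + 2) → V), b.det (fun i => γ • v i) = b.det v)
    {z : Γ} (hz2 : z ^ 2 = 1) (hz : ∀ v : V, z • v = -v) (F : SphereMap Γ V (2 * q + 2)) :
    Odd (wind b (F.f (2 * q + 2) (bd (2 * q + 2) (cyc z 2 (2 * q + 2))))) := by
  -- action of `z`
  have hzact : ∀ k (c : Cv V k), act z k c = cmap (fun v : V => -v) k c := by
    intro k c
    have : (fun v : V => z • v) = (fun v : V => -v) := funext hz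
    rw [act, this]
  -- the first sequence
  let y : ∀ k, Cv V (k + 1) := fun k => F.f (k + 1) (cyc z 2 k)
  -- the second one
  have hy'ex : ∃ τ : ℕ → ℤ, (∀ k, τ k = 1 ∨ τ k = -1) ∧ τ 0 = 1 ∧
      ∀ k, τ (k + 1) = (-1) ^ (k + 1) * τ k := by
    refine ⟨fun k => Nat.rec (motive := fun _ => ℤ) 1 (fun k t => (-1) ^ (k + 1) * t) k, ?_, rfl,
      fun k => rfl⟩
    intro k
    induction k with
    | zero => left; rfl
    | succ k ih =>
      show (-1 : ℤ) ^ (k + 1) * _ = 1 ∨ (-1 : ℤ) ^ (k + 1) * _ = -1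
      beta_reduce at ih
      rcases neg_one_pow_eq_or ℤ (k + 1) with h | h <;> rcases ih with h' | h' <;>
        rw [h, h'] <;> simp
  obtain ⟨τ, hτ1, hτ0, hτs⟩ := hy'ex
  let y' : ∀ k, Cv V (k + 1) := fun k => τ k • cone (bseq b k) k (octa (bseq b) k)
  -- the key formula
  have hT : ∀ k, ract (tw z 2 (k + 1)) (k + 1) (cone (bseq b k) k (octa (bseq b) k))
      = (-1 : ℤ) ^ (k + 1) • octa (bseq b) (k + 1) := by
    intro k
    have hzc : act z (k + 1) (cone (bseq b k) k (octa (bseq b) k))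
        = (-1 : ℤ) ^ k • cone (-(bseq b k)) k (octa (bseq b) k) := by
      rw [hzact, cmap_cone, neg_octa, map_smul]
    by_cases hk : Even k
    · have hk' : ¬ Even (k + 1) := by rw [Nat.even_add_one]; exact not_not.mpr hk
      rw [tw_odd hk', ract_sub, ract_of, ract_one, hzc, hk.neg_one_pow, one_smul, pow_succ,
        hk.neg_one_pow, octa, one_mul, neg_one_smul, neg_sub]
    · have hk' : Even (k + 1) := Nat.even_add_one.mpr hk
      have hko : Odd k := Nat.not_even_iff_odd.mp hk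
      rw [tw_even hk', Finset.sum_range_succ, Finset.sum_range_one, pow_zero, pow_one, ract_add,
        ract_one, ract_of, hzc, hko.neg_one_pow, hk'.neg_one_pow, one_smul, neg_one_smul, octa,
        sub_eq_add_neg]
  have hy : ∀ k < 2 * q + 1, bd (k + 1) (y (k + 1)) = ract (tw z 2 (k + 1)) (k + 1) (y k) := by
    intro k hk
    show bd (k + 1) (F.f (k + 2) (cyc z 2 (k + 1))) = _
    rw [F.comm (k + 1) (by omega), bd_cyc hz2, F.ract (by omega)]
  have hy' : ∀ k < 2 * q + 1, bd (k + 1) (y' (k + 1)) = ract (tw z 2 (k + 1)) (k + 1) (y' k) := by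
    intro k _
    show bd (k + 1) (τ (k + 1) • cone _ (k + 1) (octa (bseq b) (k + 1)))
      = ract (tw z 2 (k + 1)) (k + 1) (τ k • _)
    rw [map_smul, map_smul, hT, bd_cone, bd_octa, map_zero, sub_zero, hτs, smul_smul, mul_comm]
  have hfill : bd 0 (y 0) = bd 0 (y' 0) := by
    show bd 0 (F.f 1 (cyc z 2 0)) = bd 0 (τ 0 • cone _ 0 (octa (bseq b) 0))
    rw [F.comm 0 (by omega), hτ0, one_smul, bd_cone_zero]
    have : bd 0 (cyc z 2 0) = single Fin.elim0 1 := by
      rw [cyc, bd_single]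
      simp only [Nat.reduceAdd, Fin.sum_univ_one, Fin.val_eq_zero, pow_zero, one_smul]
      congr 1
      exact Subsingleton.elim _ _
    rw [this, F.f_zero, octa]
  obtain ⟨r, hr, hr1⟩ := compare_general b hz2 y y' hfill hy hy'
    (fun k hk => F.avoids' (by omega) _)
    (fun k hk => (avoids_cone_octa b (by omega)).smul _) (2 * q + 1) le_rfl
  have h1 : F.f (2 * q + 2) (bd (2 * q + 2) (cyc z 2 (2 * q + 2)))
      = ract (tw z 2 (2 * q + 2)) (2 * q + 2) (y (2 * q + 1)) := by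
    have := bd_cyc hz2 (2 * q + 1)
    rw [show bd (2 * q + 2) (cyc z 2 (2 * q + 2))
      = ract (tw z 2 (2 * q + 1 + 1)) (2 * q + 1 + 1) (cyc z 2 (2 * q + 1)) from this]
    exact F.ract le_rfl _ _
  have h2 : ract (tw z 2 (2 * q + 2)) (2 * q + 2) (y (2 * q + 1))
      = ract (tw z 2 (2 * q + 2)) (2 * q + 2) r
        + (τ (2 * q + 1) * (-1) ^ (2 * q + 2)) • octa (bseq b) (2 * q + 2) := by
    have h3 : ract (tw z 2 (2 * q + 2)) (2 * q + 2) (y' (2 * q + 1))
        = (τ (2 * q + 1) * (-1) ^ (2 * q + 2)) • octa (bseq b) (2 * q + 2) := by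
      show ract (tw z 2 (2 * q + 2)) (2 * q + 2) (τ (2 * q + 1) • _) = _
      rw [map_smul, mul_smul]
      congr 1
      exact hT (2 * q + 1)
    have h4 : ract (tw z 2 (2 * q + 2)) (2 * q + 2) r
        = ract (tw z 2 (2 * q + 2)) (2 * q + 2) (y (2 * q + 1))
          - ract (tw z 2 (2 * q + 2)) (2 * q + 2) (y' (2 * q + 1)) := hr1
    rw [h4, ← h3]; abel
  have hoc : IsCyc (octa (bseq b) (2 * q + 2)) := ⟨avoids_octa b le_rfl, bd_octa _ _⟩
  rw [h1, h2, wind_add b (hr.ract _) (hoc.smul _), wind_ract b hdet _ hr, wind_smul b _ hoc,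
    aug_tw_even ⟨q + 1, by ring⟩, wind_eq b hoc (basis_sum_generic b)]
  have h5 : Odd (crossingNumber b (∑ i, b i) (octa (bseq b) (2 * q + 2))) := by
    rcases crossing_octa b with h | h
    · exact h ▸ odd_one
    · exact h ▸ odd_neg_one
  have h6 : Odd (τ (2 * q + 1) * (-1) ^ (2 * q + 2)) := by
    refine Odd.mul ?_ (Odd.pow odd_neg_one)
    rcases hτ1 (2 * q + 1) with h | h
    · exact h ▸ odd_one
    · exact h ▸ odd_neg_one
  refine Even.add_odd ?_ (h6.mul h5)
  exact ⟨wind b r, by push_cast; ring⟩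

end Linear

end HodgeEuler
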