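import Mathlib

/-! Homomorphisms from `Sp₂(ℤ) = SL₂(ℤ)` to commutative groups are killed by `12`. -/

namespace HodgeEuler

open Matrix ModularGroup

lemma sl2_pow_twelve {A : Type*} [CommGroup A] (x : SpecialLinearGroup (Fin 2) ℤ →* A)
    (γ : SpecialLinearGroup (Fin 2) ℤ) : x γ ^ 12 = 1 := by
  have hS : S ^ 4 = 1 := by decide
  have hST : (S * T) ^ 6 = 1 := by decide
  have h1 : x S ^ 4 = 1 := by rw [← map_pow, hS, map_one]
  have h2 : (x S * x T) ^ 6 = 1 := by rw [← map_mul, ← map_pow, hST, map_one]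
  have hmem : γ ∈ Subgroup.closure ({S, T} : Set (SpecialLinearGroup (Fin 2) ℤ)) := by
    rw [SpecialLinearGroup.SL2Z_generators]; exact Subgroup.mem_top _
  induction hmem using Subgroup.closure_induction with
  | mem y hy =>
    rcases hy with rfl | hy
    · rw [show 12 = 4 * 3 by norm_num, pow_mul, h1, one_pow]
    · rw [Set.mem_singleton_iff] at hy
      subst hy
      have h3 : (x S * x T) ^ 12 = 1 := by
        rw [show 12 = 6 * 2 by norm_num, pow_mul, h2, one_pow]
      rw [mul_pow, show x S ^ 12 = 1 by rw [show 12 = 4 * 3 by norm_num, pow_mul, h1, one_pow],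
        one_mul] at h3
      exact h3
  | one => rw [map_one, one_pow]
  | mul a b _ _ ha hb => rw [map_mul, mul_pow, ha, hb, one_mul]
  | inv a _ ha => rw [map_inv, inv_pow, ha, inv_one]

/-- `SL₂(ℤ) → Sp₂(ℤ)` -/
noncomputable def slToSp : SpecialLinearGroup (Fin 2) ℤ →* symplecticGroup (Fin 1) ℤ where
  toFun A := ⟨Matrix.reindex finSumFinEquiv.symm finSumFinEquiv.symm (A : Matrix (Fin 2) (Fin 2) ℤ), by
    rw [SymplecticGroup.mem_iff]
    have hd := A.2
    rw [det_fin_two] at hd
    ext i j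
    rcases i with i | i <;> rcases j with j | j <;> fin_cases i <;> fin_cases j <;>
      simp [Matrix.mul_apply, J, Fin.sum_univ_two, finSumFinEquiv] <;> linarith⟩
  map_one' := by
    apply Subtype.ext
    simp
  map_mul' A B := by
    apply Subtype.ext
    simp [Matrix.reindex_apply, Matrix.submatrix_mul_equiv]

lemma slToSp_surjective : Function.Surjective slToSp := by
  intro B
  refine ⟨⟨Matrix.reindex finSumFinEquiv finSumFinEquiv (B : Matrix (Fin 1 ⊕ Fin 1) (Fin 1 ⊕ Fin 1) ℤ), ?_⟩, ?_⟩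
  · rw [Matrix.det_reindex_self]; exact SymplecticGroup.det_eq_one B.2
  · apply Subtype.ext
    simp [slToSp, Matrix.reindex_apply]

/-- homomorphisms from `Sp₂(ℤ)` to commutative groups are killed by `12` -/
lemma sp2_pow_twelve {A : Type*} [CommGroup A] (x : symplecticGroup (Fin 1) ℤ →* A)
    (γ : symplecticGroup (Fin 1) ℤ) : x γ ^ 12 = 1 := by
  obtain ⟨A, rfl⟩ := slToSp_surjective γ
  exact sl2_pow_twelve (x.comp slToSp) A

end HodgeEuler
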