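import Pool.Agent.Lib_helper88.Hodge.SpTwo
import Pool.Agent.Lib_helper88.Hodge.SL2

/-! Genus one: the order of the Euler class of `Sp₂(ℤ) = SL₂(ℤ)`. -/

namespace HodgeEuler

open Finsupp CategoryTheory groupCohomology

section General

variable {Γ : Type} [Group Γ] {V : Type*} [AddCommGroup V] [Module ℝ V]
  [DistribMulAction Γ V] [SMulCommClass Γ ℝ V]

/-- a bounding cochain kills the multiple of the class -/
lemma smul_eq_zero_of_bounding {n : ℕ} (E : cocycles (Rep.trivial ℤ Γ ℤ) (n + 1)) {k : ℤ}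
    (A : Cv Γ (n + 1) →ₗ[ℤ] ℤ) (hA : ∀ (γ : Γ) c, A (act γ (n + 1) c) = A c)
    (hAE : ∀ c, A (bd (n + 1) c) =
        k * homc (n := n + 1) (iCocycles (Rep.trivial ℤ Γ ℤ) (n + 1) E) c) :
    k • π (Rep.trivial ℤ Γ ℤ) (n + 1) E = 0 := by
  obtain ⟨φ, rfl⟩ := exists_inhomogeneous A hA
  rw [← map_zsmul]
  refine coho_pi_eq_zero_of _ _ _ φ ?_
  refine homc_injective (n := n + 1) ?_
  refine LinearMap.ext fun c => ?_
  rw [← homc_bd, hAE]
  have h1 : (homc (n := n + 1) (iCocycles (Rep.trivial ℤ Γ ℤ) (n + 1) (k • E)))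
      = k • homc (n := n + 1) (iCocycles (Rep.trivial ℤ Γ ℤ) (n + 1) E) := by
    refine cv_ext fun x => ?_
    rw [LinearMap.smul_apply, homc_single, homc_single, map_zsmul, one_mul, one_mul]
    rfl
  rw [h1, LinearMap.smul_apply, smul_eq_mul]

/-- the order of the Euler class is divisible by the 2-part of the order of any `h` having `-1` among
its powers of exponent a power of `2` -/
theorem two_pow_dvd_weak {q K : ℕ} (b : Module.Basis (Fin (2 * q + 2)) ℝ V)
    (hdet : ∀ (γ : Γ) (v : Fin (2 * q + 2) → V), b.det (fun i => γ • v i) = b.det v)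
    {z h : Γ} (hzact : ∀ v : V, z • v = -v) (hz2 : z ^ 2 = 1)
    (hh : h ^ (2 ^ K) = z)
    {c : groupCohomology (Rep.trivial ℤ Γ ℤ) (2 * q + 2)} (hc : IsEulerClass b c) {k : ℤ}
    (hk : k • c = 0) : (2 : ℤ) ^ (K + 1) ∣ k := by
  obtain ⟨F, E, rfl, hE⟩ := hc
  obtain ⟨A, hA, hAE⟩ := exists_bounding E hk
  have hodd : Odd (homc (n := 2 * q + 2) (iCocycles (Rep.trivial ℤ Γ ℤ) (2 * q + 2) E)
      (cyc z 2 (2 * q + 2))) := by
    rw [homc_eq_wind b F E hE]
    exact odd_wind_cyc b hdet hz2 hzact F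
  have h1 := eval_cyc (L := 2 ^ K) (l := 2) A
    (homc (n := 2 * q + 2) (iCocycles (Rep.trivial ℤ Γ ℤ) (2 * q + 2) E)) hA hAE hh hz2
  have h2 := compare_eval (L := 2 ^ K) (l := 2)
    (homc (n := 2 * q + 2) (iCocycles (Rep.trivial ℤ Γ ℤ) (2 * q + 2) E))
    (fun γ c => homc_act _ γ c) (fun c => by
      rw [homc_eq_wind b F E hE, bd_bd, map_zero, wind_zero]) hh hz2
  have h3 : Odd (homc (n := 2 * q + 2) (iCocycles (Rep.trivial ℤ Γ ℤ) (2 * q + 2) E)
      (cyc h (2 * 2 ^ K) (2 * q + 2))) := by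
    obtain ⟨t, ht⟩ := h2
    have : homc (n := 2 * q + 2) (iCocycles (Rep.trivial ℤ Γ ℤ) (2 * q + 2) E)
      (cyc h (2 * 2 ^ K) (2 * q + 2)) = homc (n := 2 * q + 2)
        (iCocycles (Rep.trivial ℤ Γ ℤ) (2 * q + 2) E) (cyc z 2 (2 * q + 2)) - 2 * t := by
      push_cast at ht
      linarith
    rw [this]
    exact hodd.sub_even (even_two_mul t)
  have h4 : IsCoprime ((2 : ℤ) ^ (K + 1)) (homc (n := 2 * q + 2)
      (iCocycles (Rep.trivial ℤ Γ ℤ) (2 * q + 2) E) (cyc h (2 * 2 ^ K) (2 * q + 2))) := by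
    refine IsCoprime.pow_left ?_
    obtain ⟨t, ht⟩ := h3
    exact ⟨-t, 1, by rw [ht]; ring⟩
  refine h4.dvd_of_dvd_mul_right ?_
  rw [h1]
  refine ⟨A (cyc h (2 * 2 ^ K) (2 * q + 1)), ?_⟩
  push_cast
  ring

/-- In degree two: if all homomorphisms `Γ → ℤ/2m` are killed by `m` then the classes killed by
`2m` are killed by `m`. -/
theorem half_kills {m : ℕ} (hx : ∀ (x : Γ →* Multiplicative (ZMod (2 * m))) (γ : Γ), x γ ^ m = 1)
    (E : cocycles (Rep.trivial ℤ Γ ℤ) 2)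
    (hk : ((2 * m : ℕ) : ℤ) • π (Rep.trivial ℤ Γ ℤ) 2 E = 0) (hm : m ≠ 0) :
    (m : ℤ) • π (Rep.trivial ℤ Γ ℤ) 2 E = 0 := by
  obtain ⟨A, hA, hAE⟩ := exists_bounding (n := 1) E hk
  -- the homomorphism
  have hmul : ∀ γ δ : Γ, ((A (single ![1, γ * δ] 1) : ℤ) : ZMod (2 * m))
      = ((A (single ![1, γ] 1) : ℤ) : ZMod (2 * m)) + ((A (single ![1, δ] 1) : ℤ) : ZMod (2 * m)) := by
    intro γ δ
    have h1 := hAE (single ![1, γ, γ * δ] 1)
    rw [bd_single, Fin.sum_univ_three] at h1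
    have e0 : (fun j : Fin 2 => (![1, γ, γ * δ] : Fin 3 → Γ) ((0 : Fin 3).succAbove j))
        = fun j => γ • (![1, δ] : Fin 2 → Γ) j := by
      funext j; fin_cases j <;> simp [Fin.succAbove]
    have e1 : (fun j : Fin 2 => (![1, γ, γ * δ] : Fin 3 → Γ) ((1 : Fin 3).succAbove j))
        = ![1, γ * δ] := by
      funext j; fin_cases j <;> simp [Fin.succAbove]
    have e2 : (fun j : Fin 2 => (![1, γ, γ * δ] : Fin 3 → Γ) ((2 : Fin 3).succAbove j))
        = ![1, γ] := by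
      funext j; fin_cases j <;> simp [Fin.succAbove]
    rw [e0, e1, e2, ← act_single, map_add, map_add, map_smul, map_smul, map_smul, hA] at h1
    have h2 := congrArg (Int.cast : ℤ → ZMod (2 * m)) h1
    push_cast at h2
    have h3 : ((2 : ZMod (2 * m)) * (m : ZMod (2 * m))) = 0 := by
      have := ZMod.natCast_self (2 * m)
      push_cast at this
      exact this
    rw [h3, zero_mul] at h2
    simp at h2
    linear_combination -h2
  let x : Γ →* Multiplicative (ZMod (2 * m)) :=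
    MonoidHom.mk' (fun γ => Multiplicative.ofAdd ((A (single ![1, γ] 1) : ℤ) : ZMod (2 * m)))
      (fun γ δ => by rw [hmul, ofAdd_add])
  have heven : ∀ γ : Γ, (2 : ℤ) ∣ A (single ![1, γ] 1) := by
    intro γ
    have h1 := hx x γ
    have h2 : m • ((A (single ![1, γ] 1) : ℤ) : ZMod (2 * m)) = 0 := h1
    rw [nsmul_eq_mul] at h2
    have h3 : (((m : ℤ) * A (single ![1, γ] 1) : ℤ) : ZMod (2 * m)) = 0 := by
      push_cast; exact h2
    rw [ZMod.intCast_zmod_eq_zero_iff_dvd] at h3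
    obtain ⟨t, ht⟩ := h3
    refine ⟨t, ?_⟩
    have hm' : (m : ℤ) ≠ 0 := by exact_mod_cast hm
    refine mul_left_cancel₀ hm' ?_
    rw [ht]; push_cast; ring
  have heven' : ∀ v : Fin 2 → Γ, (2 : ℤ) ∣ A (single v 1) := by
    intro v
    have h1 : v = fun j => v 0 • (![1, (v 0)⁻¹ * v 1] : Fin 2 → Γ) j := by
      funext j; fin_cases j <;> simp
    rw [h1, ← act_single, hA]
    exact heven _
  choose B hB using heven'
  let A' : Cv Γ 2 →ₗ[ℤ] ℤ := Finsupp.linearCombination ℤ B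
  have hA' : ∀ c, A c = 2 * A' c := by
    have : A = (2 : ℤ) • A' := by
      refine cv_ext fun v => ?_
      rw [LinearMap.smul_apply, hB]
      simp [A']
    intro c
    rw [this, LinearMap.smul_apply, smul_eq_mul]
  refine smul_eq_zero_of_bounding (n := 1) E A' (fun γ c => ?_) (fun c => ?_)
  · have h1 := hA γ c
    rw [hA', hA'] at h1
    linarith
  · have h1 := hAE c
    rw [hA'] at h1
    push_cast at h1
    linarith

end General

/-- **Genus one.** -/
theorem genus_one (b : Module.Basis (Fin 2) ℝ (Fin 1 ⊕ Fin 1 → ℝ))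
    {c : groupCohomology (Rep.trivial ℤ (Matrix.symplecticGroup (Fin 1) ℤ) ℤ) 2}
    (hc : IsEulerClass b c) (h24 : (24 : ℤ) • c = 0) (h3 : ∀ k : ℤ, k • c = 0 → (3 : ℤ) ∣ k) :
    addOrderOf c = 12 := by
  have h12 : (12 : ℤ) • c = 0 := by
    obtain ⟨F, E, rfl, hE⟩ := hc
    exact half_kills (m := 12) (fun x γ => sp2_pow_twelve x γ) E (by exact_mod_cast h24)
      (by norm_num)
  have h4 : ∀ k : ℤ, k • c = 0 → (4 : ℤ) ∣ k := by
    intro k hk
    have := two_pow_dvd_weak (q := 0) (K := 1) b (fun A v => sp_det_invariant b A v)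
      (z := negOne 1) (h := Cg 1 (by norm_num)) (fun v => negOne_smul v) (negOne_sq _)
      (by rw [pow_one]; exact Cg_pow (g := 1) (by norm_num)) hc hk
    norm_num at this
    exact this
  have hd1 : addOrderOf c ∣ 12 := by
    rw [addOrderOf_dvd_iff_nsmul_eq_zero]
    exact_mod_cast h12
  have hk : ((addOrderOf c : ℕ) : ℤ) • c = 0 := by
    rw [natCast_zsmul, addOrderOf_nsmul_eq_zero]
  have hd2 : 12 ∣ addOrderOf c := by
    have h5 := h4 _ hk
    have h6 := h3 _ hk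
    omega
  exact Nat.dvd_antisymm hd1 hd2

end HodgeEuler
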