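import Mathlib

namespace HodgeEuler

section Scalar

variable {ι : Type*} [Fintype ι] [DecidableEq ι]

/-- signed end point indicator -/
noncomputable def endp (a d : ι → ℝ) (i : ι) : ℤ :=
  open Classical in
  if d i ≠ 0 ∧ ∀ j, j ≠ i → 0 < a j - a i / d i * d j then (SignType.sign (d i) : ℤ) else 0

lemma endp_neg (a d : ι → ℝ) (i : ι) : endp a (fun j => - d j) i = - endp a d i := by
  unfold endp
  have h : (∀ j, j ≠ i → 0 < a j - a i / (- d i) * (- d j)) ↔
      (∀ j, j ≠ i → 0 < a j - a i / d i * d j) := by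
    refine forall_congr' fun j => imp_congr_right fun _ => ?_
    rw [div_neg, neg_mul_neg]
  by_cases h1 : d i ≠ 0 ∧ ∀ j, j ≠ i → 0 < a j - a i / d i * d j
  · rw [if_pos h1, if_pos ⟨neg_ne_zero.mpr h1.1, h.mpr h1.2⟩, Left.sign_neg]
    simp
  · rw [if_neg h1, if_neg (fun h2 => h1 ⟨neg_ne_zero.mp h2.1, h.mp h2.2⟩)]
    simp

/-- the condition that the open interval is non-empty -/
def EndCond (a d : ι → ℝ) : Prop :=
  (∀ j, d j = 0 → 0 < a j) ∧ ∀ i j, 0 < d i → d j < 0 → - (a i / d i) < - (a j / d j)

lemma endCond_neg (a d : ι → ℝ) : EndCond a (fun j => - d j) ↔ EndCond a d := by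
  unfold EndCond
  constructor
  · rintro ⟨h1, h2⟩
    refine ⟨fun j hj => h1 j (by simp [hj]), fun i j hi hj => ?_⟩
    have := h2 j i (by linarith) (by linarith)
    rw [div_neg, div_neg] at this
    linarith
  · rintro ⟨h1, h2⟩
    refine ⟨fun j hj => h1 j (by simpa using hj), fun i j hi hj => ?_⟩
    have := h2 j i (by linarith) (by linarith)
    rw [div_neg, div_neg]
    linarith

open Classical in
lemma sum_endp_pos (a d : ι → ℝ)
    (hgen : ∀ i, d i ≠ 0 → ∀ j, j ≠ i → a j - a i / d i * d j ≠ 0) (hP : ∃ i, 0 < d i) :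
    ∑ i ∈ Finset.univ.filter (fun i => 0 < d i), endp a d i = if EndCond a d then 1 else 0 := by
  obtain ⟨i0, hi0, hmax⟩ := Finset.exists_max_image (Finset.univ.filter fun i => 0 < d i)
    (fun i => - (a i / d i)) (by obtain ⟨i, hi⟩ := hP; exact ⟨i, by simp [hi]⟩)
  have hd0 : 0 < d i0 := by simpa using hi0
  have hmax' : ∀ i, 0 < d i → - (a i / d i) ≤ - (a i0 / d i0) := fun i hi => hmax i (by simp [hi])
  rw [Finset.sum_eq_single i0]
  · -- value at the maximum
    have hform : ∀ j, d j ≠ 0 → a j - a i0 / d i0 * d j =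
        d j * (- (a i0 / d i0) - - (a j / d j)) := by
      intro j hj
      field_simp
      ring
    unfold endp
    by_cases hc : EndCond a d
    · rw [if_pos hc, if_pos, sign_pos hd0]
      · rfl
      · refine ⟨hd0.ne', fun j hj => ?_⟩
        rcases lt_trichotomy (d j) 0 with h | h | h
        · rw [hform j h.ne]
          have := hc.2 i0 j hd0 h
          exact mul_pos_of_neg_of_neg h (by linarith)
        · have := hc.1 j h
          rw [h]; linarith
        · have h1 := hmax' j h
          have h2 := hgen i0 hd0.ne' j hj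
          rw [hform j h.ne'] at h2 ⊢
          have h3 : 0 ≤ d j * (- (a i0 / d i0) - - (a j / d j)) :=
            mul_nonneg h.le (by linarith)
          exact lt_of_le_of_ne h3 (Ne.symm h2)
    · rw [if_neg hc, if_neg]
      rintro ⟨-, h⟩
      apply hc
      refine ⟨fun j hj => ?_, fun i j hi hj => ?_⟩
      · have hne : j ≠ i0 := by rintro rfl; rw [hj] at hd0; exact lt_irrefl _ hd0
        have := h j hne
        rw [hj] at this; linarith
      · have hne : j ≠ i0 := by rintro rfl; linarith
        have h1 := h j hne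
        rw [hform j hj.ne] at h1
        have h2 := hmax' i hi
        have h3 : - (a i0 / d i0) - - (a j / d j) < 0 := by
          by_contra hcon
          push Not at hcon
          have := mul_nonpos_of_nonpos_of_nonneg hj.le hcon
          linarith
        linarith
  · intro i hi hne
    have hdi : 0 < d i := by simpa using hi
    unfold endp
    rw [if_neg]
    rintro ⟨-, h⟩
    have h1 := h i0 (Ne.symm hne)
    have h2 := hmax' i hdi
    have h3 : a i0 - a i / d i * d i0 = d i0 * (- (a i / d i) - - (a i0 / d i0)) := by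
      field_simp
      ring
    rw [h3] at h1
    have h4 : d i0 * (- (a i / d i) - - (a i0 / d i0)) ≤ 0 :=
      mul_nonpos_of_nonneg_of_nonpos hd0.le (by linarith)
    linarith
  · intro h; exact absurd hi0 h

open Classical in
lemma sum_endp_split (a d : ι → ℝ) :
    ∑ i, endp a d i = ∑ i ∈ Finset.univ.filter (fun i => 0 < d i), endp a d i
      - ∑ i ∈ Finset.univ.filter (fun i => 0 < - d i), endp a (fun j => - d j) i := by
  simp only [endp_neg, Finset.sum_neg_distrib, sub_neg_eq_add]
  rw [Finset.sum_filter, Finset.sum_filter, ← Finset.sum_add_distrib]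
  refine Finset.sum_congr rfl fun i _ => ?_
  rcases lt_trichotomy (d i) 0 with h | h | h
  · rw [if_neg (by linarith), if_pos (by linarith), zero_add]
  · rw [if_neg (by linarith), if_neg (by linarith)]
    unfold endp
    rw [if_neg]
    · simp
    · rintro ⟨h1, -⟩; exact h1 h
  · rw [if_pos h, if_neg (by linarith), add_zero]

lemma sum_endp_mixed (a d : ι → ℝ)
    (hgen : ∀ i, d i ≠ 0 → ∀ j, j ≠ i → a j - a i / d i * d j ≠ 0) (hP : ∃ i, 0 < d i)
    (hN : ∃ i, d i < 0) : ∑ i, endp a d i = 0 := by
  classical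
  rw [sum_endp_split, sum_endp_pos a d hgen hP, sum_endp_pos a (fun j => - d j) ?_ ?_]
  · simp only [endCond_neg]; simp
  · intro i hi j hj
    have := hgen i (by simpa using hi) j hj
    rwa [div_neg, neg_mul_neg]
  · obtain ⟨i, hi⟩ := hN
    exact ⟨i, by linarith⟩

lemma sum_endp_allpos [Nonempty ι] (a d : ι → ℝ)
    (hgen : ∀ i, d i ≠ 0 → ∀ j, j ≠ i → a j - a i / d i * d j ≠ 0) (hP : ∀ i, 0 < d i) :
    ∑ i, endp a d i = 1 := by
  classical
  rw [sum_endp_split, sum_endp_pos a d hgen ⟨Classical.arbitrary ι, hP _⟩,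
    Finset.sum_eq_zero (s := Finset.univ.filter fun i => 0 < - d i)]
  · rw [if_pos, sub_zero]
    refine ⟨fun j hj => absurd hj (hP j).ne', fun i j _ hj => absurd hj (hP j).not_gt⟩
  · intro i hi
    have h1 : 0 < - d i := by simpa using hi
    have := hP i
    linarith

lemma sum_endp_allneg [Nonempty ι] (a d : ι → ℝ)
    (hgen : ∀ i, d i ≠ 0 → ∀ j, j ≠ i → a j - a i / d i * d j ≠ 0) (hN : ∀ i, d i < 0) :
    ∑ i, endp a d i = -1 := by
  have h := sum_endp_allpos a (fun j => - d j) (by
    intro i hi j hj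
    have := hgen i (by simpa using hi) j hj
    rwa [div_neg, neg_mul_neg]) (fun i => by have := hN i; linarith)
  simp only [endp_neg, Finset.sum_neg_distrib] at h
  linarith

end Scalar

end HodgeEuler
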