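import Mathlib

namespace HodgeEuler

open Matrix

section Sp

variable {g : ℕ}

/-- matrix unit -/
abbrev eu (i j : Fin g) : Matrix (Fin g) (Fin g) ℤ := Matrix.single i j 1

lemma eu_mul_same (i j k : Fin g) : eu i j * eu j k = eu i k := by
  simp [eu]

lemma eu_mul_ne (i : Fin g) {j k : Fin g} (l : Fin g) (h : j ≠ k) : eu i j * eu k l = 0 := by
  simp [eu, h]

lemma eu_transpose (i j : Fin g) : (eu i j)ᵀ = eu j i := by
  simp [eu]

/-- unipotent element -/
def nS (S : Matrix (Fin g) (Fin g) ℤ) (hS : Sᵀ = S) : symplecticGroup (Fin g) ℤ :=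
  ⟨fromBlocks 1 S 0 1, by
    rw [SymplecticGroup.fromBlocks_mem_iff]
    simp [hS]⟩

/-- opposite unipotent element -/
def nT (S : Matrix (Fin g) (Fin g) ℤ) (hS : Sᵀ = S) : symplecticGroup (Fin g) ℤ :=
  ⟨fromBlocks 1 0 S 1, by
    rw [SymplecticGroup.fromBlocks_mem_iff]
    simp [hS]⟩

/-- Levi element -/
def mU (U U' : Matrix (Fin g) (Fin g) ℤ) (h : Uᵀ * U' = 1) : symplecticGroup (Fin g) ℤ :=
  ⟨fromBlocks U 0 0 U', by
    rw [SymplecticGroup.fromBlocks_mem_iff]
    simp [h]⟩

/-- partial `J` -/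
def jE (i : Fin g) : symplecticGroup (Fin g) ℤ :=
  ⟨fromBlocks (1 - eu i i) (-(eu i i)) (eu i i) (1 - eu i i), by
    rw [SymplecticGroup.fromBlocks_mem_iff]
    simp only [transpose_sub, transpose_one, transpose_neg, eu_transpose, sub_mul, mul_sub,
      one_mul, mul_one, neg_mul, mul_neg, eu_mul_same]
    refine ⟨trivial, ?_, ?_⟩ <;> abel⟩

lemma eu_add_symm (i j : Fin g) : (eu i j + eu j i)ᵀ = eu i j + eu j i := by
  rw [transpose_add, eu_transpose, eu_transpose, add_comm]

lemma sp_mul_coe (a b : symplecticGroup (Fin g) ℤ) :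
    ((a * b : symplecticGroup (Fin g) ℤ) : Matrix (Fin g ⊕ Fin g) (Fin g ⊕ Fin g) ℤ)
      = (a : Matrix (Fin g ⊕ Fin g) (Fin g ⊕ Fin g) ℤ) * b := rfl

lemma nS_mul (S S' : Matrix (Fin g) (Fin g) ℤ) (hS : Sᵀ = S) (hS' : S'ᵀ = S') :
    nS S hS * nS S' hS' = nS (S + S') (by rw [transpose_add, hS, hS']) := by
  apply Subtype.ext
  rw [sp_mul_coe]
  simp only [nS, fromBlocks_multiply, mul_one, one_mul, mul_zero, zero_mul, add_zero, zero_add]
  rw [add_comm S' S]

lemma nT_mul_J (S : Matrix (Fin g) (Fin g) ℤ) (hS : Sᵀ = S) :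
    nT S hS * SymplecticGroup.symJ (Fin g) ℤ
      = SymplecticGroup.symJ (Fin g) ℤ * nS (-S) (by rw [transpose_neg, hS]) := by
  apply Subtype.ext
  rw [sp_mul_coe, sp_mul_coe]
  simp only [nS, nT, SymplecticGroup.coe_J, J, fromBlocks_multiply]
  simp

lemma jE_eq (i : Fin g) : jE i = nS (-(eu i i)) (by rw [transpose_neg, eu_transpose])
    * nT (eu i i) (eu_transpose i i) * nS (-(eu i i)) (by rw [transpose_neg, eu_transpose]) := by
  apply Subtype.ext
  rw [sp_mul_coe, sp_mul_coe]
  simp only [nS, nT, jE, fromBlocks_multiply, mul_one, one_mul, mul_zero, zero_mul, add_zero,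
    zero_add, mul_neg, neg_mul, add_mul, eu_mul_same, mul_add]
  congr 1 <;> abel

lemma mU_nS (U U' S : Matrix (Fin g) (Fin g) ℤ) (h : Uᵀ * U' = 1) (hS : Sᵀ = S) :
    mU U U' h * nS S hS = nS (U * S * Uᵀ) (by
      rw [transpose_mul, transpose_mul, hS, transpose_transpose, Matrix.mul_assoc]) * mU U U' h := by
  apply Subtype.ext
  rw [sp_mul_coe, sp_mul_coe]
  simp only [nS, mU, fromBlocks_multiply, mul_one, one_mul, mul_zero, zero_mul, add_zero,
    zero_add]
  rw [Matrix.mul_assoc, h, mul_one]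

/-- elementary Levi element -/
def tE (i j : Fin g) (c : ℤ) (hij : i ≠ j) : symplecticGroup (Fin g) ℤ :=
  mU (1 + c • eu i j) (1 - c • eu j i) (by
    rw [transpose_add, transpose_smul, eu_transpose, transpose_one, add_mul, mul_sub, mul_sub,
      smul_mul_smul_comm, eu_mul_ne _ _ hij]
    simp)

lemma tE_coe (i j : Fin g) (c : ℤ) (hij : i ≠ j) :
    ((tE i j c hij : symplecticGroup (Fin g) ℤ) : Matrix (Fin g ⊕ Fin g) (Fin g ⊕ Fin g) ℤ)
      = fromBlocks (1 + c • eu i j) 0 0 (1 - c • eu j i) := rfl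

/-- conjugation of a short root element by a partial `J` -/
lemma jE_nS (i j : Fin g) (hij : i ≠ j) :
    jE j * nS (eu i j + eu j i) (eu_add_symm i j) = tE i j (-1) hij * jE j := by
  apply Subtype.ext
  rw [sp_mul_coe, sp_mul_coe, tE_coe]
  have h1 := eu_mul_ne (g := g) j j hij.symm
  have h2 := eu_mul_ne (g := g) j i hij
  simp only [nS, jE, fromBlocks_multiply, mul_one, one_mul, mul_zero, zero_mul, add_zero,
    zero_add, mul_neg, neg_mul, add_mul, eu_mul_same, mul_add, sub_mul, mul_sub, neg_smul, one_smul,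
    eu_mul_ne j j hij.symm, eu_mul_ne j i hij, eu_mul_ne j j hij, sub_zero, smul_mul_assoc]
  congr 1 <;> abel

/-- permutation matrix, `e_i ↦ e_{π i}` -/
def pM (π : Equiv.Perm (Fin g)) : Matrix (Fin g) (Fin g) ℤ := (π⁻¹).permMatrix ℤ

lemma pM_mul (π σ : Equiv.Perm (Fin g)) : pM (π * σ) = pM π * pM σ := by
  rw [pM, pM, pM, _root_.mul_inv_rev, permMatrix_mul]

lemma pM_one : pM (1 : Equiv.Perm (Fin g)) = 1 := by
  rw [pM, inv_one, permMatrix_one]

lemma pM_transpose_mul (π : Equiv.Perm (Fin g)) : (pM π)ᵀ * pM π = 1 := by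
  have h1 : (pM π)ᵀ = pM π⁻¹ := by rw [pM, pM, transpose_permMatrix]
  rw [h1, ← pM_mul, inv_mul_cancel, pM_one]

lemma pM_apply (π : Equiv.Perm (Fin g)) (a b : Fin g) : pM π a b = if a = π b then 1 else 0 := by
  rw [pM, Equiv.Perm.permMatrix, PEquiv.toMatrix_apply]
  simp only [Equiv.toPEquiv_apply, Option.mem_def, Option.some.injEq]
  congr 1
  rw [Equiv.Perm.inv_def, Equiv.symm_apply_eq]

lemma pM_swap {i j : Fin g} (hij : i ≠ j) :
    pM (Equiv.swap i j) = 1 - eu i i - eu j j + eu i j + eu j i := by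
  ext a b
  rw [pM_apply]
  simp only [Matrix.add_apply, Matrix.sub_apply, Matrix.one_apply, eu, Matrix.single_apply]
  rcases eq_or_ne b i with rfl | hbi
  · rw [Equiv.swap_apply_left]
    rcases eq_or_ne a j with rfl | haj
    · simp [hij, hij.symm]
    · rcases eq_or_ne a b with rfl | hab
      · simp [hij, hij.symm]
      · simp [haj, haj.symm, hab, hij.symm, hab.symm]
  · rcases eq_or_ne b j with rfl | hbj
    · rw [Equiv.swap_apply_right]
      rcases eq_or_ne a i with rfl | hai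
      · simp [hij, hij.symm]
      · rcases eq_or_ne a b with rfl | hab
        · simp [hij, hij.symm]
        · simp [hai, hai.symm, hab, hab.symm, hij]
    · rw [Equiv.swap_apply_of_ne_of_ne hbi hbj]
      simp [hbi.symm, hbj.symm]

/-- the Levi element of a permutation -/
def pP (π : Equiv.Perm (Fin g)) : symplecticGroup (Fin g) ℤ :=
  mU (pM π) (pM π) (pM_transpose_mul π)

lemma pP_mul (π σ : Equiv.Perm (Fin g)) : pP (π * σ) = pP π * pP σ := by
  apply Subtype.ext
  rw [sp_mul_coe]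
  simp only [pP, mU, fromBlocks_multiply, mul_zero, zero_mul, add_zero, zero_add, pM_mul]

lemma pP_one : pP (1 : Equiv.Perm (Fin g)) = 1 := by
  apply Subtype.ext
  simp only [pP, mU, pM_one]
  exact fromBlocks_one

lemma pP_swap {i j : Fin g} (hij : i ≠ j) :
    pP (Equiv.swap i j) = tE i j 1 hij * tE j i (-1) hij.symm * tE i j 1 hij * (jE i * jE i) := by
  apply Subtype.ext
  rw [sp_mul_coe, sp_mul_coe, sp_mul_coe, sp_mul_coe, tE_coe, tE_coe]
  simp only [pP, mU, jE, fromBlocks_multiply, pM_swap hij, mul_one, one_mul, mul_zero, zero_mul,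
    add_zero, zero_add, mul_neg, neg_mul, add_mul, eu_mul_same, mul_add, sub_mul, mul_sub, neg_smul,
    one_smul, eu_mul_ne _ _ hij.symm, eu_mul_ne _ _ hij, sub_zero]
  congr 1 <;> abel

/-- the finite order element -/
def Cg (g : ℕ) (hg : 0 < g) : symplecticGroup (Fin g) ℤ :=
  pP (finRotate g) * jE ⟨g - 1, by omega⟩

end Sp

section Hom

variable {g : ℕ} (x : symplecticGroup (Fin g) ℤ →* Multiplicative (ZMod 2))

lemma exp_two (y : Multiplicative (ZMod 2)) : y * y = 1 := by
  revert y; decide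

lemma inv_eq_self' (y : Multiplicative (ZMod 2)) : y⁻¹ = y := by
  rw [inv_eq_iff_mul_eq_one, exp_two]

lemma x_nS_neg (S : Matrix (Fin g) (Fin g) ℤ) (hS : Sᵀ = S) :
    x (nS (-S) (by rw [transpose_neg, hS])) = x (nS S hS) := by
  have h1 : nS (-S) (by rw [transpose_neg, hS]) * nS S hS = 1 := by
    rw [nS_mul]
    apply Subtype.ext
    simp only [nS, neg_add_cancel]
    exact fromBlocks_one
  have h2 := congrArg x h1
  rw [map_mul, map_one] at h2
  rw [← inv_eq_self' (x (nS S hS)), eq_inv_iff_mul_eq_one, h2]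

lemma x_nT (S : Matrix (Fin g) (Fin g) ℤ) (hS : Sᵀ = S) : x (nT S hS) = x (nS S hS) := by
  have h := congrArg x (nT_mul_J S hS)
  rw [map_mul, map_mul, mul_comm, x_nS_neg x S hS] at h
  exact mul_left_cancel h

/-- value on the long root elements -/
noncomputable def tau (i : Fin g) : Multiplicative (ZMod 2) :=
  x (nS (eu i i) (eu_transpose i i))

lemma x_jE (i : Fin g) : x (jE i) = tau x i := by
  rw [jE_eq, map_mul, map_mul, x_nS_neg x _ (eu_transpose i i), x_nT, tau, exp_two, one_mul]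

lemma x_conj (U U' S : Matrix (Fin g) (Fin g) ℤ) (h : Uᵀ * U' = 1) (hS : Sᵀ = S)
    (hS' : (U * S * Uᵀ)ᵀ = U * S * Uᵀ) : x (nS (U * S * Uᵀ) hS') = x (nS S hS) := by
  have h1 := congrArg x (mU_nS U U' S h hS)
  rw [map_mul, map_mul, mul_comm] at h1
  exact (mul_right_cancel h1).symm

lemma x_nS_congr {S S' : Matrix (Fin g) (Fin g) ℤ} (h : S = S') (hS : Sᵀ = S) (hS' : S'ᵀ = S') :
    x (nS S hS) = x (nS S' hS') := by
  subst h; rfl

lemma tau_eq (i j : Fin g) (hij : i ≠ j) :
    x (nS (eu i j + eu j i) (eu_add_symm i j)) = tau x i := by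
  have h1 : (1 + eu i j) * eu j j * (1 + eu i j)ᵀ = eu j j + (eu i j + eu j i) + eu i i := by
    rw [transpose_add, transpose_one, eu_transpose]
    simp only [mul_one, one_mul, add_mul, mul_add, eu_mul_same]
    abel
  have hU : (1 + eu i j)ᵀ * (1 - eu j i) = 1 := by
    rw [transpose_add, transpose_one, eu_transpose]
    simp only [mul_one, one_mul, add_mul, mul_sub, eu_mul_ne _ _ hij, sub_zero]
    abel
  have h2 := x_conj x (1 + eu i j) (1 - eu j i) (eu j j) hU (eu_transpose j j) (by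
    rw [h1, transpose_add, transpose_add, eu_add_symm, eu_transpose, eu_transpose])
  have h3 : (eu j j + (eu i j + eu j i) + eu i i)ᵀ = eu j j + (eu i j + eu j i) + eu i i := by
    rw [transpose_add, transpose_add, eu_add_symm, eu_transpose, eu_transpose]
  rw [x_nS_congr x h1 _ h3] at h2
  have h4 : nS (eu j j + (eu i j + eu j i) + eu i i) h3
      = nS (eu j j) (eu_transpose j j) * nS (eu i j + eu j i) (eu_add_symm i j)
        * nS (eu i i) (eu_transpose i i) := by
    rw [nS_mul, nS_mul]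
  rw [h4, map_mul, map_mul, mul_assoc] at h2
  have h5 : x (nS (eu i j + eu j i) (eu_add_symm i j)) * x (nS (eu i i) (eu_transpose i i)) = 1 := by
    have := mul_left_cancel (h2.trans (mul_one _).symm)
    exact this
  rw [tau, ← inv_eq_self' (x (nS (eu i i) (eu_transpose i i))), eq_inv_iff_mul_eq_one, h5]

lemma tau_const (i j : Fin g) : tau x i = tau x j := by
  rcases eq_or_ne i j with h | h
  · rw [h]
  · rw [← tau_eq x i j h, ← tau_eq x j i h.symm]
    exact x_nS_congr x (add_comm _ _) _ _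

/-- for `g ≥ 3` the value is trivial -/
lemma tau_eq_one (i j k : Fin g) (hij : i ≠ j) (hjk : j ≠ k) (hik : i ≠ k) : tau x i = 1 := by
  have h1 : (1 + eu k j) * (eu i j + eu j i) * (1 + eu k j)ᵀ
      = (eu i j + eu j i) + (eu i k + eu k i) := by
    rw [transpose_add, transpose_one, eu_transpose]
    simp only [mul_one, one_mul, add_mul, mul_add, eu_mul_same, eu_mul_ne _ _ hij,
      eu_mul_ne _ _ hij.symm, add_zero, zero_add]
    abel
  have hU : (1 + eu k j)ᵀ * (1 - eu j k) = 1 := by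
    rw [transpose_add, transpose_one, eu_transpose]
    simp only [mul_one, one_mul, add_mul, mul_sub, eu_mul_ne _ _ hjk.symm, sub_zero]
    abel
  have h2 := x_conj x (1 + eu k j) (1 - eu j k) (eu i j + eu j i) hU (eu_add_symm i j) (by
    rw [h1, transpose_add, eu_add_symm, eu_add_symm])
  have h3 : ((eu i j + eu j i) + (eu i k + eu k i))ᵀ = (eu i j + eu j i) + (eu i k + eu k i) := by
    rw [transpose_add, eu_add_symm, eu_add_symm]
  rw [x_nS_congr x h1 _ h3] at h2
  have h4 : nS ((eu i j + eu j i) + (eu i k + eu k i)) h3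
      = nS (eu i j + eu j i) (eu_add_symm i j) * nS (eu i k + eu k i) (eu_add_symm i k) := by
    rw [nS_mul]
  rw [h4, map_mul, tau_eq x i k hik] at h2
  exact mul_left_cancel (h2.trans (mul_one _).symm)

lemma x_tE_neg (i j : Fin g) (hij : i ≠ j) : x (tE i j (-1) hij) = tau x i := by
  have h := congrArg x (jE_nS i j hij)
  rw [map_mul, map_mul, mul_comm, tau_eq x i j hij] at h
  exact (mul_right_cancel h).symm

lemma x_tE (i j : Fin g) (hij : i ≠ j) : x (tE i j 1 hij) = tau x i := by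
  have h1 : tE i j 1 hij * tE i j (-1) hij = 1 := by
    apply Subtype.ext
    rw [sp_mul_coe, tE_coe, tE_coe, fromBlocks_multiply]
    simp only [one_smul, neg_smul, mul_zero, zero_mul, add_zero, zero_add, add_mul, mul_add,
      sub_mul, mul_sub, mul_one, one_mul, mul_neg, eu_mul_ne _ _ hij.symm, eu_mul_ne _ _ hij,
      sub_zero, neg_zero]
    rw [Submonoid.coe_one, ← fromBlocks_one]
    congr 1 <;> abel
  have h2 := congrArg x h1
  rw [map_mul, map_one, x_tE_neg] at h2
  rw [← inv_eq_self' (tau x i), eq_inv_iff_mul_eq_one, h2]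

lemma x_pP_swap (i j : Fin g) (hij : i ≠ j) : x (pP (Equiv.swap i j)) = tau x i := by
  rw [pP_swap hij]
  simp only [map_mul, x_tE, x_tE_neg, x_jE, exp_two, mul_one, tau_const x j i, one_mul]

lemma x_pP (i : Fin g) (π : Equiv.Perm (Fin g)) :
    x (pP π) = if Equiv.Perm.sign π = 1 then 1 else tau x i := by
  induction π using Equiv.Perm.swap_induction_on with
  | one => rw [pP_one, map_one, map_one, if_pos rfl]
  | swap_mul π a b hab ih =>
    rw [pP_mul, map_mul, ih, x_pP_swap x a b hab, tau_const x a i, Equiv.Perm.sign_mul,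
      Equiv.Perm.sign_swap hab]
    rcases Int.units_eq_one_or (Equiv.Perm.sign π) with h | h
    · rw [h, if_pos rfl, if_neg (by decide), mul_one]
    · rw [h, if_neg (by decide), if_pos (by decide), exp_two]

/-- **Every homomorphism to `ℤ/2` kills the element `C`** -/
theorem x_Cg (hg : 2 ≤ g) : x (Cg g (by omega)) = 1 := by
  have hi : g - 1 < g := by omega
  rw [Cg, map_mul, x_jE, x_pP x ⟨g - 1, hi⟩, sign_finRotate]
  rcases Nat.even_or_odd (g - 1) with he | ho
  · rw [he.neg_one_pow, if_pos rfl, one_mul]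
    have h3 : 3 ≤ g := by
      rcases he with ⟨r, hr⟩; omega
    rw [tau_const x ⟨g - 1, hi⟩ ⟨0, by omega⟩]
    exact tau_eq_one x ⟨0, by omega⟩ ⟨1, by omega⟩ ⟨2, by omega⟩ (by simp [Fin.ext_iff])
      (by simp [Fin.ext_iff]) (by simp [Fin.ext_iff])
  · rw [ho.neg_one_pow, if_neg (by decide), exp_two]

end Hom

end HodgeEuler
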