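import Pool.Agent.Lib_helper88.Hodge.Coho

namespace HodgeEuler

open Finsupp CategoryTheory groupCohomology

section Main

variable {Γ : Type} [Group Γ] {V : Type*} [AddCommGroup V] [Module ℝ V]
  [DistribMulAction Γ V] [SMulCommClass Γ ℝ V]

/-- The Euler cocycle evaluated on arbitrary chains. -/
lemma homc_eq_wind {n : ℕ} (b : Module.Basis (Fin (n + 1)) ℝ V) (F : SphereMap Γ V (n + 1))
    (E : cocycles (Rep.trivial ℤ Γ ℤ) (n + 1))
    (hE : ∀ x : Fin (n + 1 + 1) → Γ,
      IsWinding b (F.f (n + 1) (bd (n + 1) (single x 1)))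
        (iCocycles (Rep.trivial ℤ Γ ℤ) (n + 1) E
          (fun j : Fin (n + 1) => (x j.castSucc)⁻¹ * x j.succ))) (c : Cv Γ (n + 2)) :
    homc (n := n + 1) (iCocycles (Rep.trivial ℤ Γ ℤ) (n + 1) E) c
      = wind b (F.f (n + 1) (bd (n + 1) c)) := by
  have h1 : ∀ x : Fin (n + 2) → Γ,
      homc (n := n + 1) (iCocycles (Rep.trivial ℤ Γ ℤ) (n + 1) E) (single x 1)
      = wind b (F.f (n + 1) (bd (n + 1) (single x 1))) := by
    intro x
    rw [homc_single, one_mul]
    exact (hE x).eq_wind b (F.isCyc _)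
  have h2 : c = ∑ v ∈ c.support, (c v) • single v 1 := by
    conv_lhs => rw [← Finsupp.sum_single c]
    rw [Finsupp.sum]
    refine Finset.sum_congr rfl fun v _ => ?_
    simp
  conv_lhs => rw [h2]
  conv_rhs => rw [h2]
  rw [map_sum, map_sum, map_sum, wind_sum]
  · refine Finset.sum_congr rfl fun v _ => ?_
    rw [map_smul, map_smul, map_smul, wind_smul b _ (F.isCyc _), h1, smul_eq_mul]
  · intro v _
    rw [map_smul, map_smul]
    exact (F.isCyc _).smul _

/-- an integer multiple of the class which vanishes gives a bounding cochain -/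
lemma exists_bounding {n : ℕ} (E : cocycles (Rep.trivial ℤ Γ ℤ) (n + 1)) {k : ℤ}
    (hk : k • π (Rep.trivial ℤ Γ ℤ) (n + 1) E = 0) :
    ∃ A : Cv Γ (n + 1) →ₗ[ℤ] ℤ, (∀ (γ : Γ) c, A (act γ (n + 1) c) = A c) ∧
      ∀ c, A (bd (n + 1) c) =
        k * homc (n := n + 1) (iCocycles (Rep.trivial ℤ Γ ℤ) (n + 1) E) c := by
  rw [← map_zsmul] at hk
  obtain ⟨y, hy⟩ := coho_pi_eq_zero _ n _ hk
  refine ⟨homc y, fun γ c => homc_act _ γ c, fun c => ?_⟩
  rw [homc_bd, ← hy]
  have h1 : (homc (n := n + 1) (iCocycles (Rep.trivial ℤ Γ ℤ) (n + 1) (k • E)))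
      = k • homc (n := n + 1) (iCocycles (Rep.trivial ℤ Γ ℤ) (n + 1) E) := by
    refine cv_ext fun x => ?_
    rw [LinearMap.smul_apply, homc_single, homc_single, map_zsmul, one_mul, one_mul]
    rfl
  rw [h1, LinearMap.smul_apply, smul_eq_mul]

/-- **Divisibility by the extra factor 2.** Let `Γ` act on the oriented even-dimensional real vector
space `V`, let `z ∈ Γ` be central and act as `-1`, and let `h ∈ Γ` satisfy `h ^ (2 ^ K) = z` and be
killed by all homomorphisms `Γ → ℤ/2`. Then the order of the Euler class is divisible by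
`2 ^ (K + 2)`. -/
theorem two_pow_dvd {q K : ℕ} (b : Module.Basis (Fin (2 * q + 2)) ℝ V)
    (hdet : ∀ (γ : Γ) (v : Fin (2 * q + 2) → V), b.det (fun i => γ • v i) = b.det v)
    {z h : Γ} (hzact : ∀ v : V, z • v = -v) (hz2 : z ^ 2 = 1) (hzc : ∀ γ : Γ, z * γ = γ * z)
    (hh : h ^ (2 ^ K) = z) (hx : ∀ x : Γ →* Multiplicative (ZMod 2), x h = 1)
    {c : groupCohomology (Rep.trivial ℤ Γ ℤ) (2 * q + 2)} (hc : IsEulerClass b c) {k : ℤ}
    (hk : k • c = 0) : (2 : ℤ) ^ (K + 2) ∣ k := by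
  obtain ⟨F, E, rfl, hE⟩ := hc
  obtain ⟨A, hA, hAE⟩ := exists_bounding E hk
  have hodd : Odd (homc (n := 2 * q + 2) (iCocycles (Rep.trivial ℤ Γ ℤ) (2 * q + 2) E)
      (cyc z 2 (2 * q + 2))) := by
    rw [homc_eq_wind b F E hE]
    exact odd_wind_cyc b hdet hz2 hzact F
  have key2 : ∀ j ≤ K + 2, (2 : ℤ) ^ j ∣ k := by
    intro j
    induction j with
    | zero => intro _; simp
    | succ j ih =>
      intro hj
      obtain ⟨t, ht⟩ := ih (by omega)
      rcases Int.even_or_odd t with he | ho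
      · obtain ⟨s, hs⟩ := he
        exact ⟨s, by rw [ht, hs, pow_succ]; ring⟩
      · exfalso
        have hL : 0 < 2 ^ K := by positivity
        obtain ⟨x, hxh⟩ := key (q := q) (z := z) (h := h) (L := 2 ^ K) hL hz2 hzc hh
          ((2 : ℤ) ^ (K + 1 - j) • A) (by
            intro γ c
            rw [LinearMap.smul_apply, LinearMap.smul_apply, hA])
          (t • homc (n := 2 * q + 2) (iCocycles (Rep.trivial ℤ Γ ℤ) (2 * q + 2) E)) (by
            intro c
            rw [LinearMap.smul_apply, LinearMap.smul_apply, smul_eq_mul, smul_eq_mul, hAE, ht]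
            have : (2 : ℤ) ^ (K + 1 - j) * 2 ^ j = 2 ^ (K + 1) := by
              rw [← pow_add]; congr 1; omega
            push_cast
            rw [← mul_assoc, ← mul_assoc, this, pow_succ, mul_comm (2 : ℤ) (2 ^ K), mul_assoc])
        rw [hx x, LinearMap.smul_apply, smul_eq_mul] at hxh
        have h1 : ((0 : ℤ) : ZMod 2) = ((t * homc (n := 2 * q + 2)
          (iCocycles (Rep.trivial ℤ Γ ℤ) (2 * q + 2) E) (cyc z 2 (2 * q + 2)) : ℤ) : ZMod 2) := by
          rw [← hxh]; simp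
        rw [ZMod.intCast_eq_intCast_iff_dvd_sub, sub_zero] at h1
        have h2 := ho.mul hodd
        rw [← Int.not_even_iff_odd] at h2
        exact h2 (even_iff_two_dvd.mpr h1)
  exact key2 _ le_rfl

end Main

end HodgeEuler
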