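import Pool.Agent.Lib_helper88.Hodge.Winding2

namespace HodgeEuler

open Finsupp

section Wind

variable {V : Type*} [AddCommGroup V] [Module ℝ V] {n m : ℕ}

open Classical in
/-- the winding number -/
noncomputable def wind (b : Module.Basis (Fin n) ℝ V) (c : Cv V n) : ℤ :=
  if h : ∃ D, IsWinding b c D then h.choose else 0

/-- cycles of `V ∖ 0` of dimension `m` -/
def IsCyc (z : Cv V (m + 1)) : Prop := Avoids z ∧ bd m z = 0

lemma IsCyc.add {z z' : Cv V (m + 1)} (h : IsCyc z) (h' : IsCyc z') : IsCyc (z + z') :=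
  ⟨h.1.add h'.1, by rw [map_add, h.2, h'.2, add_zero]⟩

lemma IsCyc.sub {z z' : Cv V (m + 1)} (h : IsCyc z) (h' : IsCyc z') : IsCyc (z - z') :=
  ⟨h.1.sub h'.1, by rw [map_sub, h.2, h'.2, sub_zero]⟩

lemma IsCyc.neg {z : Cv V (m + 1)} (h : IsCyc z) : IsCyc (-z) :=
  ⟨h.1.neg, by rw [map_neg, h.2, neg_zero]⟩

lemma IsCyc.smul {z : Cv V (m + 1)} (r : ℤ) (h : IsCyc z) : IsCyc (r • z) :=
  ⟨h.1.smul r, by rw [map_smul, h.2, smul_zero]⟩

lemma IsCyc.zero : IsCyc (0 : Cv V (m + 1)) := ⟨Avoids.zero, map_zero _⟩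

lemma IsCyc.sum {ι : Type*} (s : Finset ι) (c : ι → Cv V (m + 1)) (h : ∀ i ∈ s, IsCyc (c i)) :
    IsCyc (∑ i ∈ s, c i) :=
  ⟨Avoids.sum _ _ fun i hi => (h i hi).1, by
    rw [map_sum]; exact Finset.sum_eq_zero fun i hi => (h i hi).2⟩

lemma IsCyc.bd {c : Cv V (m + 2)} (h : Avoids c) : IsCyc (bd (m + 1) c) :=
  ⟨h.bd, bd_bd _ _⟩

variable (b : Module.Basis (Fin (m + 1)) ℝ V)

lemma isWinding_wind {z : Cv V (m + 1)} (hz : IsCyc z) : IsWinding b z (wind b z) := by
  classical
  have h : ∃ D, IsWinding b z D := by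
    obtain ⟨p0, hp0⟩ := exists_generic b {z}
    refine ⟨crossingNumber b p0 z, fun p hp => ?_⟩
    exact crossing_indep b z hz.1 hz.2 p p0 hp (hp0 z (Finset.mem_singleton_self z))
  unfold wind
  rw [dif_pos h]
  exact h.choose_spec

lemma IsWinding.unique {n : ℕ} {b : Module.Basis (Fin n) ℝ V} {z : Cv V n} {D D' : ℤ}
    (h : IsWinding b z D) (h' : IsWinding b z D') : D = D' := by
  classical
  obtain ⟨p, hp⟩ := exists_generic b {z}
  have hp1 := hp z (Finset.mem_singleton_self z)
  rw [← h p hp1, ← h' p hp1]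

lemma IsWinding.eq_wind {z : Cv V (m + 1)} {D : ℤ} (h : IsWinding b z D) (hz : IsCyc z) :
    D = wind b z := h.unique (isWinding_wind b hz)

lemma wind_eq {z : Cv V (m + 1)} (hz : IsCyc z) {p : V} (hp : Generic p z) :
    wind b z = crossingNumber b p z := (isWinding_wind b hz p hp).symm

lemma wind_zero : wind b (0 : Cv V (m + 1)) = 0 := by
  classical
  obtain ⟨p, hp⟩ := exists_generic b {(0 : Cv V (m + 1))}
  rw [wind_eq b IsCyc.zero (hp _ (Finset.mem_singleton_self _)), map_zero]

lemma wind_add {z z' : Cv V (m + 1)} (hz : IsCyc z) (hz' : IsCyc z') :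
    wind b (z + z') = wind b z + wind b z' := by
  classical
  obtain ⟨p, hp⟩ := exists_generic b {z, z', z + z'}
  rw [wind_eq b hz (hp _ (by simp)), wind_eq b hz' (hp _ (by simp)),
    wind_eq b (hz.add hz') (hp _ (by simp)), map_add]

lemma wind_smul {z : Cv V (m + 1)} (r : ℤ) (hz : IsCyc z) :
    wind b (r • z) = r * wind b z := by
  classical
  obtain ⟨p, hp⟩ := exists_generic b {z, r • z}
  rw [wind_eq b hz (hp _ (by simp)), wind_eq b (hz.smul r) (hp _ (by simp)), map_smul,
    smul_eq_mul]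

lemma wind_neg {z : Cv V (m + 1)} (hz : IsCyc z) : wind b (-z) = - wind b z := by
  have := wind_smul b (-1) hz
  rw [neg_one_smul] at this
  rw [this]; ring

lemma wind_sub {z z' : Cv V (m + 1)} (hz : IsCyc z) (hz' : IsCyc z') :
    wind b (z - z') = wind b z - wind b z' := by
  rw [sub_eq_add_neg, wind_add b hz hz'.neg, wind_neg b hz']; ring

lemma wind_sum {ι : Type*} (s : Finset ι) (c : ι → Cv V (m + 1)) (h : ∀ i ∈ s, IsCyc (c i)) :
    wind b (∑ i ∈ s, c i) = ∑ i ∈ s, wind b (c i) := by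
  classical
  induction s using Finset.induction_on with
  | empty => simp [wind_zero]
  | insert a s ha ih =>
    rw [Finset.sum_insert ha, Finset.sum_insert ha, wind_add b (h a (Finset.mem_insert_self _ _))
      (IsCyc.sum s c fun i hi => h i (Finset.mem_insert_of_mem hi)),
      ih fun i hi => h i (Finset.mem_insert_of_mem hi)]

/-- boundaries have winding number zero -/
lemma wind_bd {c : Cv V (m + 2)} (hc : Avoids c) : wind b (bd (m + 1) c) = 0 := by
  classical
  obtain ⟨p, hp⟩ := exists_generic b (insert (bd (m + 1) c)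
    (c.support.biUnion fun v => (Finset.univ : Finset (Fin (m + 2))).image fun i =>
      single (fun j => v (i.succAbove j)) (1 : ℤ)))
  rw [wind_eq b (IsCyc.bd hc) (hp _ (Finset.mem_insert_self _ _))]
  have h2 : c = ∑ v ∈ c.support, (c v) • single v 1 := by
    conv_lhs => rw [← Finsupp.sum_single c]
    rw [Finsupp.sum]
    refine Finset.sum_congr rfl fun v _ => ?_
    simp
  have h3 : bd (m + 1) c = ∑ v ∈ c.support, (c v) • bd (m + 1) (single v 1) := by
    conv_lhs => rw [h2]
    rw [map_sum]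
    refine Finset.sum_congr rfl fun v _ => ?_
    rw [map_smul]
  rw [h3, map_sum]
  refine Finset.sum_eq_zero fun v hv => ?_
  rw [map_smul, crossing_bd_avoid b (Nat.succ_pos m) v p ?_ (hc v hv), smul_zero]
  intro i l
  have h4 := hp (single (fun j => v (i.succAbove j)) (1 : ℤ)) (by
    refine Finset.mem_insert_of_mem ?_
    simp only [Finset.mem_biUnion, Finset.mem_image, Finset.mem_univ, true_and]
    exact ⟨v, hv, i, rfl⟩)
  exact h4 _ (by rw [Finsupp.support_single _ one_ne_zero]; exact Finset.mem_singleton_self _) l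

end Wind

section Map

variable {V : Type*} [AddCommGroup V] [Module ℝ V] {n m : ℕ}

lemma crossing_map (b : Module.Basis (Fin n) ℝ V) (φ : V ≃ₗ[ℝ] V)
    (hφ : ∀ v : Fin n → V, b.det (fun i => φ (v i)) = b.det v) (p : V) (v : Fin n → V) :
    crossing b (φ p) (fun i => φ (v i)) = crossing b p v := by
  classical
  have h1 : ∀ i, b.det (Function.update (fun i => φ (v i)) i (φ p))
      = b.det (Function.update v i p) := by
    intro i
    rw [← hφ (Function.update v i p)]
    congr 1
    funext j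
    by_cases hj : j = i
    · subst hj; simp
    · simp [hj]
  unfold crossing
  simp only [h1, hφ]

lemma crossingNumber_map (b : Module.Basis (Fin n) ℝ V) (φ : V ≃ₗ[ℝ] V)
    (hφ : ∀ v : Fin n → V, b.det (fun i => φ (v i)) = b.det v) (p : V) (c : Cv V n) :
    crossingNumber b (φ p) (cmap φ n c) = crossingNumber b p c := by
  have : crossingNumber b (φ p) ∘ₗ cmap φ n = crossingNumber b p := by
    refine cv_ext fun v => ?_
    rw [LinearMap.comp_apply, cmap_single, crossingNumber_single, crossingNumber_single,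
      crossing_map b φ hφ]
  exact LinearMap.congr_fun this c

lemma Generic.map {p : V} {k : ℕ} {c : Cv V k} (h : Generic p c) (φ : V ≃ₗ[ℝ] V) :
    Generic (φ p) (cmap φ k c) := by
  classical
  intro v hv i hmem
  have h1 : (cmap φ k c).support ⊆ c.support.image (fun v i => φ (v i)) :=
    Finsupp.mapDomain_support
  obtain ⟨v', hv', rfl⟩ := Finset.mem_image.mp (h1 hv)
  apply h v' hv' i
  have h2 : (fun i => φ (v' i)) '' {j | j ≠ i} = φ '' (v' '' {j | j ≠ i}) := by
    rw [Set.image_image]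
  rw [h2, ← LinearEquiv.coe_coe, Submodule.span_image] at hmem
  obtain ⟨y, hy, hy'⟩ := hmem
  have : y = p := φ.injective hy'
  rwa [← this]

lemma wind_map (b : Module.Basis (Fin (m + 1)) ℝ V) (φ : V ≃ₗ[ℝ] V)
    (hφ : ∀ v : Fin (m + 1) → V, b.det (fun i => φ (v i)) = b.det v) {z : Cv V (m + 1)}
    (hz : IsCyc z) : wind b (cmap φ (m + 1) z) = wind b z := by
  classical
  obtain ⟨p, hp⟩ := exists_generic b {z}
  have hp1 := hp z (Finset.mem_singleton_self z)
  have hz' : IsCyc (cmap φ (m + 1) z) := ⟨hz.1.cmap φ, by rw [bd_cmap, hz.2, map_zero]⟩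
  rw [wind_eq b hz hp1, wind_eq b hz' (hp1.map φ), crossingNumber_map b φ hφ]

end Map

end HodgeEuler
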