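import Pool.Agent.Lib_helper88.Hodge.Fill
import Pool.Agent.Lib_helper88.Hodge.Scalar

namespace HodgeEuler

open Finsupp

section Winding

variable {V : Type*} [AddCommGroup V] [Module ℝ V] {n : ℕ}

/-- Cramer's rule -/
lemma det_update_sum (b : Module.Basis (Fin n) ℝ V) (v : Fin n → V) (c : Fin n → ℝ) (i : Fin n) :
    b.det (Function.update v i (∑ j, c j • v j)) = c i * b.det v := by
  classical
  rw [AlternatingMap.map_update_sum, Finset.sum_eq_single i]
  · rw [AlternatingMap.map_update_smul, Function.update_eq_self, smul_eq_mul]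
  · intro j _ hj
    rw [AlternatingMap.map_update_smul, AlternatingMap.map_update_self _ _ (Ne.symm hj), smul_zero]
  · intro h; exact absurd (Finset.mem_univ i) h

/-- crossing sign in terms of coordinates -/
lemma crossing_eq_of_sum (b : Module.Basis (Fin n) ℝ V) (v : Fin n → V) (c : Fin n → ℝ) (p : V)
    (hp : p = ∑ j, c j • v j) (hv : b.det v ≠ 0) :
    crossing b p v = (open Classical in if ∀ i, 0 < c i then (SignType.sign (b.det v) : ℤ) else 0) := by
  classical
  unfold crossing
  have h : (∀ i, 0 < b.det v * b.det (Function.update v i p)) ↔ ∀ i, 0 < c i := by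
    refine forall_congr' fun i => ?_
    rw [hp, det_update_sum]
    have h1 : b.det v * (c i * b.det v) = c i * (b.det v * b.det v) := by ring
    rw [h1]
    exact mul_pos_iff_of_pos_right (mul_self_pos.mpr hv)
  simp only [h]

lemma crossing_eq_zero_of_det (b : Module.Basis (Fin n) ℝ V) (hn : 0 < n) (v : Fin n → V) (p : V)
    (hv : b.det v = 0) : crossing b p v = 0 := by
  unfold crossing
  rw [if_neg]
  intro h
  have := h ⟨0, hn⟩
  rw [hv, zero_mul] at this
  exact lt_irrefl _ this

/-- The linear relation between `n + 1` vectors. -/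
lemma sum_det_smul (b : Module.Basis (Fin n) ℝ V) (u : Fin (n + 1) → V) :
    ∑ i : Fin (n + 1), ((-1 : ℝ) ^ (i : ℕ) * b.det (fun j => u (i.succAbove j))) • u i = 0 := by
  refine b.ext_elem fun k => ?_
  rw [map_zero, Finsupp.zero_apply]
  let M : Matrix (Fin (n + 1)) (Fin (n + 1)) ℝ :=
    Matrix.of fun i j => Fin.cons (α := fun _ => ℝ) (b.repr (u j) k) (fun l => b.repr (u j) l) i
  have hM : M.det = 0 := by
    refine Matrix.det_zero_of_row_eq (i := 0) (j := k.succ) (Fin.succ_ne_zero k).symm ?_
    funext j
    simp [M]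
  rw [Matrix.det_succ_row_zero] at hM
  rw [map_sum, Finsupp.finsetSum_apply]
  rw [← hM]
  refine Finset.sum_congr rfl fun i _ => ?_
  rw [map_smul, Finsupp.smul_apply, smul_eq_mul]
  have h1 : M 0 i = b.repr (u i) k := by simp [M]
  have h2 : b.det (fun j => u (i.succAbove j)) = (M.submatrix Fin.succ i.succAbove).det := by
    rw [Module.Basis.det_apply]
    congr 1
  rw [h1, h2]
  ring

/-- The crossing number of the boundary of a simplex, in scalar form. -/
lemma crossing_bd_eq (b : Module.Basis (Fin n) ℝ V) (hn : 0 < n) (u : Fin (n + 1) → V) (p : V)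
    (hp : ∀ i : Fin (n + 1), ∀ l : Fin n,
      p ∉ Submodule.span ℝ ((fun j => u (i.succAbove j)) '' {j | j ≠ l}))
    (d : Fin (n + 1) → ℝ)
    (hd : d = fun i : Fin (n + 1) => (-1 : ℝ) ^ (i : ℕ) * b.det (fun j => u (i.succAbove j)))
    (hne : ∃ i, d i ≠ 0) :
    ∃ a : Fin (n + 1) → ℝ, (∀ i, d i ≠ 0 → ∀ j, j ≠ i → a j - a i / d i * d j ≠ 0) ∧
      crossingNumber b p (bd n (single u 1)) = ∑ i, endp a d i := by
  classical
  have hrel : ∑ i, d i • u i = 0 := by rw [hd]; exact sum_det_smul b u
  have hdet : ∀ i, d i ≠ 0 → b.det (fun j => u (i.succAbove j)) ≠ 0 := by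
    intro i hi h
    apply hi
    rw [hd]; simp [h]
  -- expand `p`
  obtain ⟨a, ha⟩ : ∃ a : Fin (n + 1) → ℝ, p = ∑ i, a i • u i := by
    obtain ⟨i0, hi0⟩ := hne
    have h1 := hdet i0 hi0
    have hb := (Module.Basis.is_basis_iff_det b).mpr (isUnit_iff_ne_zero.mpr h1)
    have hmem : p ∈ Submodule.span ℝ (Set.range (fun j => u (i0.succAbove j))) := by
      rw [hb.2]; exact Submodule.mem_top
    obtain ⟨c, hc⟩ := (Submodule.mem_span_range_iff_exists_fun ℝ).mp hmem
    refine ⟨fun i => Fin.insertNth (α := fun _ => ℝ) i0 0 c i, ?_⟩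
    rw [Fin.sum_univ_succAbove _ i0]
    simp only [Fin.insertNth_apply_same, zero_smul, Fin.insertNth_apply_succAbove, zero_add]
    exact hc.symm
  -- coordinates of `p` in the face `i`
  have hcoord : ∀ i, d i ≠ 0 →
      p = ∑ j : Fin n, (a (i.succAbove j) - a i / d i * d (i.succAbove j)) • u (i.succAbove j) := by
    intro i hi
    have h1 : p = ∑ j, (a j - a i / d i * d j) • u j := by
      have h2 : ∑ j, (a j - a i / d i * d j) • u j
          = ∑ j, a j • u j - (a i / d i) • ∑ j, d j • u j := by
        rw [Finset.smul_sum, ← Finset.sum_sub_distrib]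
        refine Finset.sum_congr rfl fun j _ => ?_
        rw [sub_smul, smul_smul]
      rw [h2, hrel, smul_zero, sub_zero, ← ha]
    conv_lhs => rw [h1]
    rw [Fin.sum_univ_succAbove _ i]
    have h3 : a i - a i / d i * d i = 0 := by field_simp; ring
    rw [h3, zero_smul, zero_add]
  refine ⟨a, ?_, ?_⟩
  · intro i hi j hj h0
    obtain ⟨l, rfl⟩ := Fin.exists_succAbove_eq hj
    apply hp i l
    rw [hcoord i hi, ← Finset.add_sum_erase _ _ (Finset.mem_univ l), h0, zero_smul,
      zero_add]
    refine Submodule.sum_mem _ fun m hm => Submodule.smul_mem _ _ (Submodule.subset_span ?_)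
    exact ⟨m, Finset.ne_of_mem_erase hm, rfl⟩
  · rw [bd_single, map_sum]
    refine Finset.sum_congr rfl fun i _ => ?_
    rw [map_smul]
    have h1 : crossingNumber b p (single (fun j => u (i.succAbove j)) 1)
        = crossing b p (fun j => u (i.succAbove j)) := by
      simp [crossingNumber]
    rw [h1, smul_eq_mul]
    by_cases hi : d i = 0
    · have h2 : b.det (fun j => u (i.succAbove j)) = 0 := by
        have h3 : (-1 : ℝ) ^ (i : ℕ) * b.det (fun j => u (i.succAbove j)) = 0 := by
          rw [← hi, hd]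
        exact (mul_eq_zero.mp h3).resolve_left (pow_ne_zero _ (by norm_num))
      rw [crossing_eq_zero_of_det b hn _ p h2, mul_zero]
      unfold endp
      rw [if_neg (fun h => h.1 hi)]
    · rw [crossing_eq_of_sum b _ _ p (hcoord i hi) (hdet i hi)]
      unfold endp
      have h2 : (∀ l : Fin n, 0 < a (i.succAbove l) - a i / d i * d (i.succAbove l)) ↔
          (d i ≠ 0 ∧ ∀ j, j ≠ i → 0 < a j - a i / d i * d j) := by
        constructor
        · intro h
          refine ⟨hi, fun j hj => ?_⟩
          obtain ⟨l, rfl⟩ := Fin.exists_succAbove_eq hj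
          exact h l
        · intro h l
          exact h.2 _ (Fin.succAbove_ne i l)
      simp only [h2]
      split_ifs
      · have h3 : (SignType.sign (d i) : ℤ)
            = (-1) ^ (i : ℕ) * (SignType.sign (b.det (fun j => u (i.succAbove j))) : ℤ) := by
          rw [hd]
          simp only
          rcases Nat.even_or_odd (i : ℕ) with he | ho
          · rw [he.neg_one_pow, he.neg_one_pow, one_mul, one_mul]
          · rw [ho.neg_one_pow, ho.neg_one_pow, neg_one_mul, neg_one_mul, Left.sign_neg]
            simp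
        rw [h3]
      · rw [mul_zero]

lemma crossingNumber_single (b : Module.Basis (Fin n) ℝ V) (p : V) (v : Fin n → V) (m : ℤ) :
    crossingNumber b p (single v m) = m * crossing b p v := by
  simp [crossingNumber]

/-- the boundary of a simplex which misses the origin has crossing number zero -/
lemma crossing_bd_avoid (b : Module.Basis (Fin n) ℝ V) (hn : 0 < n) (u : Fin (n + 1) → V) (p : V)
    (hp : ∀ i : Fin (n + 1), ∀ l : Fin n,
      p ∉ Submodule.span ℝ ((fun j => u (i.succAbove j)) '' {j | j ≠ l}))
    (hu : (0 : V) ∉ convexHull ℝ (Set.range u)) :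
    crossingNumber b p (bd n (single u 1)) = 0 := by
  classical
  set d : Fin (n + 1) → ℝ := fun i => (-1 : ℝ) ^ (i : ℕ) * b.det (fun j => u (i.succAbove j))
    with hd
  by_cases hne : ∃ i, d i ≠ 0
  · obtain ⟨a, hgen, hsum⟩ := crossing_bd_eq b hn u p hp d hd hne
    have hrel : ∑ i, d i • u i = 0 := by rw [hd]; exact sum_det_smul b u
    -- not all of one sign
    have key : ∀ e : Fin (n + 1) → ℝ, (∑ i, e i • u i = 0) → (∃ i, e i ≠ 0) → ∃ i, e i < 0 := by
      intro e he hne'
      by_contra hcon
      push Not at hcon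
      apply hu
      obtain ⟨i, hi⟩ := hne'
      have hpos : 0 < ∑ i, e i :=
        Finset.sum_pos' (fun j _ => hcon j) ⟨i, Finset.mem_univ _, lt_of_le_of_ne (hcon i) hi.symm⟩
      have := Finset.centerMass_mem_convexHull (R := ℝ) (Finset.univ) (w := e) (z := u)
        (s := Set.range u) (fun j _ => hcon j) hpos (fun j _ => ⟨j, rfl⟩)
      rw [Finset.centerMass, he, smul_zero] at this
      exact this
    have hN : ∃ i, d i < 0 := key d hrel hne
    have hP : ∃ i, 0 < d i := by
      obtain ⟨i, hi⟩ := key (fun i => - d i) (by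
        simp only [neg_smul, Finset.sum_neg_distrib, hrel, neg_zero]) (by
        obtain ⟨i, hi⟩ := hne
        exact ⟨i, by simpa using hi⟩)
      exact ⟨i, by linarith⟩
    rw [hsum, sum_endp_mixed a d hgen hP hN]
  · push Not at hne
    rw [bd_single, map_sum]
    refine Finset.sum_eq_zero fun i _ => ?_
    rw [map_smul, crossingNumber_single, one_mul, crossing_eq_zero_of_det b hn, smul_zero]
    have h3 : (-1 : ℝ) ^ (i : ℕ) * b.det (fun j => u (i.succAbove j)) = 0 := hne i
    exact (mul_eq_zero.mp h3).resolve_left (pow_ne_zero _ (by norm_num))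

end Winding

end HodgeEuler
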