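import Pool.Agent.Lib_helper88.Hodge.Winding

namespace HodgeEuler

open Finsupp

section Winding

variable {V : Type*} [AddCommGroup V] [Module ℝ V] {n : ℕ}

/-- signed maximal minors -/
noncomputable def minors (b : Module.Basis (Fin n) ℝ V) (u : Fin (n + 1) → V) :
    Fin (n + 1) → ℝ :=
  fun i => (-1 : ℝ) ^ (i : ℕ) * b.det (fun j => u (i.succAbove j))

open Classical in
/-- does the simplex contain the origin in its interior? (with sign) -/
noncomputable def chi (b : Module.Basis (Fin n) ℝ V) (u : Fin (n + 1) → V) : ℤ :=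
  if ∀ i, 0 < minors b u i then 1 else if ∀ i, minors b u i < 0 then -1 else 0

lemma crossing_bd_of_minors_zero (b : Module.Basis (Fin n) ℝ V) (hn : 0 < n)
    (u : Fin (n + 1) → V) (p : V) (h : ∀ i, minors b u i = 0) :
    crossingNumber b p (bd n (single u 1)) = 0 := by
  rw [bd_single, map_sum]
  refine Finset.sum_eq_zero fun i _ => ?_
  rw [map_smul, crossingNumber_single, one_mul, crossing_eq_zero_of_det b hn, smul_zero]
  have h3 : (-1 : ℝ) ^ (i : ℕ) * b.det (fun j => u (i.succAbove j)) = 0 := h i
  exact (mul_eq_zero.mp h3).resolve_left (pow_ne_zero _ (by norm_num))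

lemma allpos_of_nonneg (w : V) (v : Fin n → V) (hv : (0 : V) ∉ convexHull ℝ (Set.range v))
    (hw : ∀ l, w ∉ Submodule.span ℝ (v '' {j | j ≠ l}))
    (d : Fin (n + 1) → ℝ) (hrel : ∑ i, d i • (Fin.cons w v : Fin (n + 1) → V) i = 0)
    (hnn : ∀ i, 0 ≤ d i) (hne : ∃ i, d i ≠ 0) : ∀ i, 0 < d i := by
  classical
  rw [Fin.sum_univ_succ] at hrel
  simp only [Fin.cons_zero, Fin.cons_succ] at hrel
  have h0 : d 0 ≠ 0 := by
    intro h0
    rw [h0, zero_smul, zero_add] at hrel
    apply hv
    have hpos : 0 < ∑ i : Fin n, d i.succ := by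
      obtain ⟨i, hi⟩ := hne
      rcases Fin.eq_zero_or_eq_succ i with h | ⟨j, rfl⟩
      · rw [h] at hi; exact absurd h0 hi
      · exact Finset.sum_pos' (fun j _ => hnn _)
          ⟨j, Finset.mem_univ _, lt_of_le_of_ne (hnn _) hi.symm⟩
    have := Finset.centerMass_mem_convexHull (R := ℝ) (Finset.univ) (w := fun i : Fin n => d i.succ)
      (z := v) (s := Set.range v) (fun j _ => hnn _) hpos (fun j _ => ⟨j, rfl⟩)
    rw [Finset.centerMass, hrel, smul_zero] at this
    exact this
  intro i
  rcases Fin.eq_zero_or_eq_succ i with h | ⟨l, rfl⟩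
  · rw [h]; exact lt_of_le_of_ne (hnn _) h0.symm
  · refine lt_of_le_of_ne (hnn _) fun hl => ?_
    apply hw l
    have h1 : w = (-(d 0)⁻¹) • ∑ j : Fin n, d j.succ • v j := by
      have h2 : d 0 • w = - ∑ j : Fin n, d j.succ • v j := eq_neg_of_add_eq_zero_left hrel
      have h3 : w = (d 0)⁻¹ • (d 0 • w) := by rw [smul_smul, inv_mul_cancel₀ h0, one_smul]
      rw [h3, h2, smul_neg, neg_smul]
    rw [h1, ← Finset.add_sum_erase _ _ (Finset.mem_univ l), ← hl, zero_smul, zero_add]
    refine Submodule.smul_mem _ _ (Submodule.sum_mem _ fun m hm => Submodule.smul_mem _ _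
      (Submodule.subset_span ⟨m, Finset.ne_of_mem_erase hm, rfl⟩))

/-- crossing number of the boundary of a cone simplex -/
lemma crossing_bd_cons (b : Module.Basis (Fin n) ℝ V) (hn : 0 < n) (w : V) (v : Fin n → V)
    (hv : (0 : V) ∉ convexHull ℝ (Set.range v))
    (hw : ∀ l, w ∉ Submodule.span ℝ (v '' {j | j ≠ l})) (p : V)
    (hp : ∀ i : Fin (n + 1), ∀ l : Fin n,
      p ∉ Submodule.span ℝ
        ((fun j => (Fin.cons w v : Fin (n + 1) → V) (i.succAbove j)) '' {j | j ≠ l})) :
    crossingNumber b p (bd n (single (Fin.cons w v) 1)) = chi b (Fin.cons w v) := by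
  classical
  set u : Fin (n + 1) → V := Fin.cons w v with hu
  set d : Fin (n + 1) → ℝ := minors b u with hd
  have hrel : ∑ i, d i • u i = 0 := by rw [hd]; exact sum_det_smul b u
  have hchi : chi b u = if ∀ i, 0 < d i then 1 else if ∀ i, d i < 0 then -1 else 0 := rfl
  by_cases hne : ∃ i, d i ≠ 0
  · obtain ⟨a, hgen, hsum⟩ := crossing_bd_eq b hn u p hp d hd hne
    rw [hsum]
    by_cases hnn : ∀ i, 0 ≤ d i
    · have hall := allpos_of_nonneg w v hv hw d hrel hnn hne
      rw [sum_endp_allpos a d hgen hall, hchi, if_pos hall]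
    · by_cases hnp : ∀ i, d i ≤ 0
      · have hall := allpos_of_nonneg w v hv hw (fun i => - d i) (by
          simp only [neg_smul, Finset.sum_neg_distrib]
          rw [← hu, hrel, neg_zero]) (fun i => by have := hnp i; linarith) (by
          obtain ⟨i, hi⟩ := hne
          exact ⟨i, by simpa using hi⟩)
        have hall' : ∀ i, d i < 0 := fun i => by have := hall i; linarith
        rw [sum_endp_allneg a d hgen hall', hchi, if_neg, if_pos hall']
        intro h
        have h1 := h 0
        have h2 := hall' 0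
        linarith
      · push Not at hnn hnp
        obtain ⟨i, hi⟩ := hnn
        obtain ⟨j, hj⟩ := hnp
        rw [sum_endp_mixed a d hgen ⟨j, hj⟩ ⟨i, hi⟩, hchi, if_neg, if_neg]
        · intro h; have := h j; linarith
        · intro h; have := h i; linarith
  · push Not at hne
    rw [crossing_bd_of_minors_zero b hn u p hne, hchi, if_neg, if_neg]
    · intro h; have := h 0; rw [hne 0] at this; exact lt_irrefl _ this
    · intro h; have := h 0; rw [hne 0] at this; exact lt_irrefl _ this

lemma span_finset_ne_top (b : Module.Basis (Fin n) ℝ V) (T : Finset V) (hT : T.card < n) :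
    Submodule.span ℝ (T : Set V) ≠ ⊤ := by
  intro h
  have h1 := finrank_span_finset_le_card (R := ℝ) T
  rw [Set.finrank, h, finrank_top, Module.finrank_eq_card_basis b, Fintype.card_fin] at h1
  omega

lemma span_image_ne_top (b : Module.Basis (Fin n) ℝ V) (v : Fin n → V) (l : Fin n) :
    Submodule.span ℝ (v '' {j | j ≠ l}) ≠ ⊤ := by
  classical
  have h1 : v '' {j | j ≠ l} = (((Finset.univ.erase l).image v : Finset V) : Set V) := by
    ext x; simp
  rw [h1]
  refine span_finset_ne_top b _ ?_
  have h2 : ((Finset.univ.erase l).image v).card ≤ (Finset.univ.erase l).card :=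
    Finset.card_image_le
  rw [Finset.card_erase_of_mem (Finset.mem_univ _), Finset.card_univ, Fintype.card_fin] at h2
  have := l.isLt
  omega

lemma span_insert_ne_top (b : Module.Basis (Fin n) ℝ V) (v : Fin n → V) (p : V) (i l : Fin n)
    (hil : i ≠ l) :
    Submodule.span ℝ (insert p (v '' {j | j ≠ i ∧ j ≠ l})) ≠ ⊤ := by
  classical
  have h1 : insert p (v '' {j | j ≠ i ∧ j ≠ l}) =
      ((insert p (((Finset.univ.erase i).erase l).image v) : Finset V) : Set V) := by
    ext x; simp [and_comm]
  rw [h1]
  refine span_finset_ne_top b _ ?_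
  have h2 : (((Finset.univ.erase i).erase l).image v).card ≤ ((Finset.univ.erase i).erase l).card :=
    Finset.card_image_le
  rw [Finset.card_erase_of_mem (by simp [hil.symm]), Finset.card_erase_of_mem (Finset.mem_univ _),
    Finset.card_univ, Fintype.card_fin] at h2
  have h3 := Finset.card_insert_le p (((Finset.univ.erase i).erase l).image v)
  have h4 := i.isLt
  have h5 := l.isLt
  have h6 : (i : ℕ) ≠ l := fun h => hil (Fin.ext h)
  omega

/-- finitely many chains have a common generic vector -/
lemma exists_generic (b : Module.Basis (Fin n) ℝ V) (S : Finset (Cv V n)) :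
    ∃ p, ∀ c ∈ S, Generic p c := by
  classical
  obtain ⟨p, hp⟩ := exists_notMem
    (S.biUnion fun c => c.support.biUnion fun v => (Finset.univ : Finset (Fin n)).image fun l =>
      Submodule.span ℝ (v '' {j | j ≠ l})) (by
    intro s hs
    simp only [Finset.mem_biUnion, Finset.mem_image, Finset.mem_univ, true_and] at hs
    obtain ⟨c, -, v, -, l, rfl⟩ := hs
    exact span_image_ne_top b v l)
  refine ⟨p, fun c hc v hv l => hp _ ?_⟩
  simp only [Finset.mem_biUnion, Finset.mem_image, Finset.mem_univ, true_and]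
  exact ⟨c, hc, v, hv, l, rfl⟩

lemma mem_span_insert_swap {w p : V} {S : Set V} (h : p ∈ Submodule.span ℝ (insert w S))
    (hp : p ∉ Submodule.span ℝ S) : w ∈ Submodule.span ℝ (insert p S) := by
  rw [Submodule.mem_span_insert] at h ⊢
  obtain ⟨a, x, hx, rfl⟩ := h
  have ha : a ≠ 0 := by
    rintro rfl
    apply hp
    rw [zero_smul, zero_add]
    exact hx
  refine ⟨a⁻¹, -(a⁻¹ • x), Submodule.neg_mem _ (Submodule.smul_mem _ _ hx), ?_⟩
  rw [smul_add, smul_smul, inv_mul_cancel₀ ha, one_smul]
  abel

/-- The crossing number of a cycle does not depend on the generic ray. -/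
lemma crossing_indep {m : ℕ} (b : Module.Basis (Fin (m + 1)) ℝ V) (z : Cv V (m + 1))
    (hz : Avoids z) (hz0 : bd m z = 0) (p p' : V) (hp : Generic p z) (hp' : Generic p' z) :
    crossingNumber b p z = crossingNumber b p' z := by
  classical
  obtain ⟨w, hw⟩ := exists_notMem
    ((z.support.biUnion fun v => (Finset.univ : Finset (Fin (m + 1))).image fun l =>
        Submodule.span ℝ (v '' {j | j ≠ l})) ∪
      (z.support.biUnion fun v => ((Finset.univ : Finset (Fin (m + 1) × Fin (m + 1))).filter
        fun q => q.1 ≠ q.2).image fun q : Fin (m + 1) × Fin (m + 1) =>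
          Submodule.span ℝ (insert p (v '' {j | j ≠ q.1 ∧ j ≠ q.2}))) ∪
      (z.support.biUnion fun v => ((Finset.univ : Finset (Fin (m + 1) × Fin (m + 1))).filter
        fun q => q.1 ≠ q.2).image fun q : Fin (m + 1) × Fin (m + 1) =>
          Submodule.span ℝ (insert p' (v '' {j | j ≠ q.1 ∧ j ≠ q.2})))) (by
    intro s hs
    simp only [Finset.mem_union, Finset.mem_biUnion, Finset.mem_image, Finset.mem_univ, true_and,
      Finset.mem_filter] at hs
    rcases hs with (⟨v, -, l, rfl⟩ | ⟨v, -, q, hq, rfl⟩) | ⟨v, -, q, hq, rfl⟩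
    · exact span_image_ne_top b v l
    · exact span_insert_ne_top b v p q.1 q.2 hq
    · exact span_insert_ne_top b v p' q.1 q.2 hq)
  have hw1 : ∀ v ∈ z.support, ∀ l, w ∉ Submodule.span ℝ (v '' {j | j ≠ l}) := by
    intro v hv l
    refine hw _ ?_
    simp only [Finset.mem_union, Finset.mem_biUnion, Finset.mem_image, Finset.mem_univ, true_and]
    exact Or.inl (Or.inl ⟨v, hv, l, rfl⟩)
  have hw2 : ∀ v ∈ z.support, ∀ i l, i ≠ l →
      w ∉ Submodule.span ℝ (insert p (v '' {j | j ≠ i ∧ j ≠ l})) := by
    intro v hv i l hil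
    refine hw _ ?_
    simp only [Finset.mem_union, Finset.mem_biUnion, Finset.mem_image, Finset.mem_univ, true_and,
      Finset.mem_filter]
    exact Or.inl (Or.inr ⟨v, hv, (i, l), hil, rfl⟩)
  have hw3 : ∀ v ∈ z.support, ∀ i l, i ≠ l →
      w ∉ Submodule.span ℝ (insert p' (v '' {j | j ≠ i ∧ j ≠ l})) := by
    intro v hv i l hil
    refine hw _ ?_
    simp only [Finset.mem_union, Finset.mem_biUnion, Finset.mem_image, Finset.mem_univ, true_and,
      Finset.mem_filter]
    exact Or.inr ⟨v, hv, (i, l), hil, rfl⟩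
  have key : ∀ p : V, Generic p z → (∀ v ∈ z.support, ∀ i l, i ≠ l →
      w ∉ Submodule.span ℝ (insert p (v '' {j | j ≠ i ∧ j ≠ l}))) →
      crossingNumber b p z = ∑ v ∈ z.support, z v * chi b (Fin.cons w v) := by
    intro p hp hwp
    have h1 : z = bd (m + 1) (cone w (m + 1) z) := by rw [bd_cone, hz0, map_zero, sub_zero]
    have h2 : z = ∑ v ∈ z.support, (z v) • single v 1 := by
      conv_lhs => rw [← Finsupp.sum_single z]
      rw [Finsupp.sum]
      refine Finset.sum_congr rfl fun v _ => ?_
      simp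
    have h3 : bd (m + 1) (cone w (m + 1) z)
        = ∑ v ∈ z.support, (z v) • bd (m + 1) (single (Fin.cons w v) 1) := by
      conv_lhs => rw [h2]
      rw [map_sum, map_sum]
      refine Finset.sum_congr rfl fun v _ => ?_
      rw [map_smul, map_smul, cone_single]
    conv_lhs => rw [h1, h3, map_sum]
    refine Finset.sum_congr rfl fun v hv => ?_
    rw [map_smul, smul_eq_mul, crossing_bd_cons b (Nat.succ_pos m) w v (hz v hv) (hw1 v hv) p]
    intro i l
    rcases Fin.eq_zero_or_eq_succ i with h | ⟨i', rfl⟩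
    · subst h
      simpa using hp v hv l
    · intro hmem
      rcases Fin.eq_zero_or_eq_succ l with h | ⟨l', rfl⟩
      · subst h
        apply hp v hv i'
        refine Submodule.span_mono ?_ hmem
        rintro _ ⟨j, hj, rfl⟩
        obtain ⟨j', rfl⟩ := Fin.exists_succ_eq.mpr hj
        refine ⟨i'.succAbove j', Fin.succAbove_ne i' j', ?_⟩
        simp only [Fin.succ_succAbove_succ, Fin.cons_succ]
      · apply hwp v hv i' (i'.succAbove l') (Fin.succAbove_ne i' l').symm
        refine mem_span_insert_swap (Submodule.span_mono ?_ hmem) (fun h => hp v hv i'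
          (Submodule.span_mono (Set.image_mono fun j hj => hj.1) h))
        rintro _ ⟨j, hj, rfl⟩
        rcases Fin.eq_zero_or_eq_succ j with h | ⟨j', rfl⟩
        · subst h
          left
          simp only [Fin.succ_succAbove_zero, Fin.cons_zero]
        · right
          refine ⟨i'.succAbove j', ⟨Fin.succAbove_ne i' j', ?_⟩, ?_⟩
          · intro h
            exact hj (congrArg Fin.succ (Fin.succAbove_right_injective h))
          · simp only [Fin.succ_succAbove_succ, Fin.cons_succ]
  rw [key p hp hw2, key p' hp' hw3]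

end Winding

end HodgeEuler
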